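import Pool.Agent.UBR.GoodCyc
import Pool.Agent.UBV2.LocSep

/-!
# Chordal distances in a cycle at the bad places

The maps are `[F : h ^ n G]` with `v h < 1`, where `F / G` has good reduction, `F` has unit leading
coefficient and no multiple root in the residue field.
-/

set_option autoImplicit false

namespace UBR

open Polynomial WithZero UBV2

variable {K : Type*} [Field K]

/-- the condition at the bad places -/
structure BadAt (v : Valuation K ℤᵐ⁰) (d : ℕ) (F G : K[X]) : Prop extends GoodAt v d F G where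
  dF : F.natDegree ≤ d
  dG : G.natDegree ≤ d
  lead : v (F.coeff d) = 1
  simple : Simple v F

namespace BadAux

/-- `x` is in the residue class of infinity -/
def Att (v : Valuation K ℤᵐ⁰) (P : K × K) : Prop := v P.2 < v P.1

lemma hom_C_mul (d : ℕ) (b : K) (G : K[X]) (x y : K) : hom d (C b * G) x y = b * hom d G x y := by
  unfold hom
  rw [Finset.mul_sum]
  refine Finset.sum_congr rfl fun i _ => ?_
  rw [coeff_C_mul]
  ring

lemma hom_eq {d : ℕ} {F : K[X]} (hF : F.natDegree ≤ d) {x y : K} (hy : y ≠ 0) :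
    hom d F x y = y ^ d * F.eval (x / y) := by
  unfold hom
  rw [eval_eq_sum_range' (Nat.lt_succ_of_le hF), Finset.mul_sum]
  refine Finset.sum_congr rfl fun i hi => ?_
  rw [Finset.mem_range] at hi
  have e : y ^ d = y ^ i * y ^ (d - i) := by rw [← pow_add]; congr 1; omega
  rw [e, div_pow]
  have := pow_ne_zero i hy
  field_simp

lemma hom_le {v : Valuation K ℤᵐ⁰} {d : ℕ} {F : K[X]} (hF : ∀ i, v (F.coeff i) ≤ 1) (P : K × K) :
    v (hom d F P.1 P.2) ≤ nrm v P ^ d := by
  unfold hom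
  refine Valuation.map_sum_le v fun i hi => ?_
  rw [Finset.mem_range] at hi
  rw [map_mul, map_mul, map_pow, map_pow]
  calc v (F.coeff i) * (v P.1 ^ i * v P.2 ^ (d - i)) ≤ 1 * (nrm v P ^ i * nrm v P ^ (d - i)) :=
        mul_le_mul' (hF i) (mul_le_mul' (pow_le_pow_left' (fst_le v P) _)
          (pow_le_pow_left' (snd_le v P) _))
    _ = nrm v P ^ d := by
        rw [one_mul, ← pow_add]
        congr 1
        omega

lemma att_nrm {v : Valuation K ℤᵐ⁰} {P : K × K} (h : Att v P) : nrm v P = v P.1 :=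
  max_eq_left h.le

lemma hom_att {v : Valuation K ℤᵐ⁰} {d : ℕ} {F : K[X]} (hF : ∀ i, v (F.coeff i) ≤ 1)
    (hl : v (F.coeff d) = 1) {P : K × K} (h : Att v P) :
    v (hom d F P.1 P.2) = v P.1 ^ d := by
  have h1 : v P.1 ≠ 0 := (zero_le.trans_lt h).ne'
  have h2 : v (F.coeff d * (P.1 ^ d * P.2 ^ (d - d))) = v P.1 ^ d := by
    rw [Nat.sub_self, pow_zero, mul_one, map_mul, hl, one_mul, map_pow]
  unfold hom
  rw [Finset.sum_range_succ, Valuation.map_add_eq_of_lt_right, h2]
  rw [h2]
  refine Valuation.map_sum_lt v (pow_ne_zero _ h1) fun i hi => ?_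
  rw [Finset.mem_range] at hi
  rw [map_mul, map_mul, map_pow, map_pow]
  have h3 : v P.2 ^ (d - i) < v P.1 ^ (d - i) := pow_lt_pow_left₀ h zero_le (by omega)
  calc v (F.coeff i) * (v P.1 ^ i * v P.2 ^ (d - i)) ≤ 1 * (v P.1 ^ i * v P.2 ^ (d - i)) :=
        mul_le_mul_left (hF i) _
    _ = v P.1 ^ i * v P.2 ^ (d - i) := one_mul _
    _ < v P.1 ^ i * v P.1 ^ (d - i) := by
        exact mul_lt_mul_of_pos_left h3 (zero_lt_iff.2 (pow_ne_zero _ h1))
    _ = v P.1 ^ d := by
        rw [← pow_add]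
        congr 1
        omega

end BadAux

open BadAux

section

variable {v : Valuation K ℤᵐ⁰} {n : ℕ} {h : K} (hn : 0 < n) (hh0 : h ≠ 0) (hh : v h < 1)
  {d : ℕ → ℕ} (hd : ∀ i, 1 ≤ d i) {F G : ℕ → K[X]} (hbad : ∀ i, BadAt v (d i) (F i) (G i))

include hn hh hbad

lemma att_step {P : K × K} {i : ℕ} (hP : Att v P) :
    Att v (mapR (d i) (F i) (C (h ^ n) * G i) P) ∧
      nrm v (mapR (d i) (F i) (C (h ^ n) * G i) P) = nrm v P ^ d i := by
  have h1 : v (hom (d i) (F i) P.1 P.2) = v P.1 ^ d i := hom_att (hbad i).hF (hbad i).lead hP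
  have h2 : v (hom (d i) (C (h ^ n) * G i) P.1 P.2) < v P.1 ^ d i := by
    rw [hom_C_mul, map_mul, map_pow]
    have h3 := hom_le (d := d i) (hbad i).hG P
    rw [att_nrm hP] at h3
    have h4 : v P.1 ≠ 0 := (zero_le.trans_lt hP).ne'
    calc v h ^ n * v (hom (d i) (G i) P.1 P.2) ≤ v h ^ n * v P.1 ^ d i := mul_le_mul_right h3 _
      _ < 1 * v P.1 ^ d i := mul_lt_mul_of_pos_right (pow_lt_one₀ zero_le hh hn.ne')
          (zero_lt_iff.2 (pow_ne_zero _ h4))
      _ = v P.1 ^ d i := one_mul _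
  have h5 : Att v (mapR (d i) (F i) (C (h ^ n) * G i) P) := by
    unfold Att mapR
    simp only
    rw [h1]
    exact h2
  refine ⟨h5, ?_⟩
  rw [att_nrm h5, att_nrm hP]
  exact h1

variable {X Y : ℕ → K × K} (hX0 : ∀ i, X i ≠ 0)
  (hX : ∀ i, ∃ a : K, a ≠ 0 ∧ X (i + 1) = a • mapR (d i) (F i) (C (h ^ n) * G i) (X i))
  (hY0 : ∀ i, Y i ≠ 0)
  (hY : ∀ i, ∃ a : K, a ≠ 0 ∧ Y (i + 1) = a • mapR (d i) (F i) (C (h ^ n) * G i) (Y i))
  {L : ℕ} (hL : 0 < L) (hXL : ∀ i, ∃ a : K, a ≠ 0 ∧ X (i + L) = a • X i)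
  (hYL : ∀ i, ∃ a : K, a ≠ 0 ∧ Y (i + L) = a • Y i)

omit hn hh hbad in
lemma att_smul {a : K} (ha : a ≠ 0) {P : K × K} : Att v (a • P) ↔ Att v P := by
  unfold Att
  simp only [Prod.smul_fst, Prod.smul_snd, smul_eq_mul, map_mul]
  exact mul_lt_mul_iff_right₀ (zero_lt_iff.2 ((Valuation.ne_zero_iff v).2 ha))

include hX hL hXL

/-- a periodic orbit is in the class of infinity at all times or never -/
lemma att_all : (∀ i, Att v (X i)) ∨ (∀ i, ¬ Att v (X i)) := by
  by_cases hex : ∃ i, Att v (X i)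
  · left
    obtain ⟨i0, h0⟩ := hex
    have h1 : ∀ t, Att v (X (i0 + t)) := by
      intro t
      induction t with
      | zero => exact h0
      | succ t ih =>
        obtain ⟨a, ha, hXa⟩ := hX (i0 + t)
        rw [← add_assoc, hXa, att_smul ha]
        exact (att_step hn hh hbad ih).1
    have hper : ∀ t i, Att v (X (i + L * t)) ↔ Att v (X i) := by
      intro t
      induction t with
      | zero => intro i; simp
      | succ t ih =>
        intro i
        obtain ⟨a, ha, hXa⟩ := hXL (i + L * t)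
        have e : i + L * (t + 1) = (i + L * t) + L := by ring
        rw [e, hXa, att_smul ha, ih]
    intro i
    rw [← hper i0 i]
    have e : i + L * i0 = i0 + (i + L * i0 - i0) := by
      have : i0 ≤ L * i0 := Nat.le_mul_of_pos_left _ hL
      omega
    rw [e]
    exact h1 _
  · right
    push Not at hex
    exact hex

omit hL hXL in
include hX0 hh0 in
/-- the affine coordinates of an orbit outside the class of infinity -/
lemma int_orbit (hint : ∀ i, ¬ Att v (X i)) (i : ℕ) :
    (X i).2 ≠ 0 ∧ v ((X i).1 / (X i).2) ≤ 1 ∧ v ((G i).eval ((X i).1 / (X i).2)) = 1 ∧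
      h ^ n * (G i).eval ((X i).1 / (X i).2) * ((X (i + 1)).1 / (X (i + 1)).2) =
        (F i).eval ((X i).1 / (X i).2) := by
  have hy : ∀ i, (X i).2 ≠ 0 := by
    intro i h0
    have h1 := hint i
    unfold Att at h1
    rw [h0, map_zero, not_lt] at h1
    have h2 : (X i).1 = 0 := by
      by_contra hne
      exact absurd (le_antisymm h1 zero_le) ((Valuation.ne_zero_iff v).2 hne)
    exact hX0 i (Prod.ext h2 h0)
  have hz : ∀ i, v ((X i).1 / (X i).2) ≤ 1 := by
    intro i
    have h1 := hint i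
    unfold Att at h1
    rw [not_lt] at h1
    rw [map_div₀]
    exact (div_le_one₀ (zero_lt_iff.2 ((Valuation.ne_zero_iff v).2 (hy i)))).2 h1
  set z := (X i).1 / (X i).2 with hzdef
  obtain ⟨a, ha, hXa⟩ := hX i
  have e1 : (X (i + 1)).1 = a * ((X i).2 ^ d i * (F i).eval z) := by
    rw [hXa]
    unfold mapR
    simp only [Prod.smul_mk, smul_eq_mul]
    rw [hom_eq (hbad i).dF (hy i)]
  have e2 : (X (i + 1)).2 = a * ((X i).2 ^ d i * (h ^ n * (G i).eval z)) := by
    rw [hXa]
    unfold mapR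
    simp only [Prod.smul_mk, smul_eq_mul]
    rw [hom_C_mul, hom_eq (hbad i).dG (hy i)]
    ring
  have hne2 := hy (i + 1)
  rw [e2] at hne2
  have hG0 : (G i).eval z ≠ 0 := by
    intro h0
    rw [h0, mul_zero, mul_zero, mul_zero] at hne2
    exact hne2 rfl
  have hq : (X (i + 1)).1 / (X (i + 1)).2 = (F i).eval z / (h ^ n * (G i).eval z) := by
    rw [e1, e2, mul_div_mul_left _ _ ha, mul_div_mul_left _ _ (pow_ne_zero _ (hy i))]
  have hhn : h ^ n ≠ 0 := pow_ne_zero _ hh0
  have heq : h ^ n * (G i).eval z * ((X (i + 1)).1 / (X (i + 1)).2) = (F i).eval z := by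
    rw [hq]
    field_simp
  refine ⟨hy i, hz i, ?_, heq⟩
  -- the value of `G`
  have hP : nrm v ((z, 1) : K × K) = 1 := by
    unfold nrm
    simp only [map_one]
    exact max_eq_right (hz i)
  have h1 := (hbad i).hne _ hP
  unfold nrm mapR at h1
  simp only at h1
  rw [hom_eq (hbad i).dF one_ne_zero, hom_eq (hbad i).dG one_ne_zero, one_pow, one_mul, one_mul,
    div_one] at h1
  have h2 : v ((G i).eval z) ≤ 1 := by
    rw [← h1]
    exact le_max_right _ _
  have h3 : v ((F i).eval z) < 1 := by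
    rw [← heq, map_mul, map_mul, map_pow]
    calc v h ^ n * v ((G i).eval z) * v ((X (i + 1)).1 / (X (i + 1)).2) ≤ v h ^ n * 1 * 1 :=
          mul_le_mul' (mul_le_mul_right h2 _) (hz (i + 1))
      _ = v h ^ n := by rw [mul_one, mul_one]
      _ < 1 := pow_lt_one₀ zero_le hh hn.ne'
  rcases le_max_iff.1 h1.ge with h4 | h4
  · exact absurd (h4.trans_lt h3) (lt_irrefl _)
  · exact le_antisymm h2 h4

end

/-- one step: the distance of two close integral points is multiplied by `v h ^ (-n)` -/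
lemma step_close {v : Valuation K ℤᵐ⁰} {n : ℕ} {h : K} (hn : 0 < n) (hh : v h < 1) {F G : K[X]}
    (hF : ∀ i, v (F.coeff i) ≤ 1) (hG : ∀ i, v (G.coeff i) ≤ 1) (hs : Simple v F)
    {x y x' y' : K} (hx : v x ≤ 1) (hy : v y ≤ 1) (hy' : v y' ≤ 1)
    (hGx : v (G.eval x) = 1) (hGy : v (G.eval y) = 1)
    (ex : h ^ n * G.eval x * x' = F.eval x) (ey : h ^ n * G.eval y * y' = F.eval y)
    (hxy : v (x - y) < 1) : v h ^ n * v (x' - y') = v (x - y) := by
  rcases eq_or_ne x y with rfl | hne
  · have h1 : h ^ n * G.eval x * (x' - y') = 0 := by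
      rw [mul_sub, ex, ey, sub_self]
    have h2 := congrArg v h1
    rw [map_mul, map_mul, hGx, mul_one, map_pow, map_zero] at h2
    rw [h2, sub_self, map_zero]
  have hε1 : v h ^ n < 1 := pow_lt_one₀ zero_le hh hn.ne'
  obtain ⟨k, hk1, hk2⟩ := LocSepAux.taylor v hF hx hy
  have h1 : v (F.eval y) < 1 := by
    rw [← ey, map_mul, map_mul, map_pow, hGy, mul_one]
    calc v h ^ n * v y' ≤ v h ^ n * 1 := mul_le_mul_right hy' _
      _ = v h ^ n := mul_one _
      _ < 1 := hε1
  have h2 := hs y hy h1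
  have h3 : v (k * (x - y)) < 1 := by
    rw [map_mul]
    calc v k * v (x - y) ≤ 1 * v (x - y) := mul_le_mul_left hk1 _
      _ = v (x - y) := one_mul _
      _ < 1 := hxy
  have h4 : v (F.derivative.eval y + k * (x - y)) = 1 := by
    rw [Valuation.map_add_eq_of_lt_left v (by rw [h2]; exact h3), h2]
  have h5 : v (F.eval x - F.eval y) = v (x - y) := by rw [hk2, map_mul, h4, mul_one]
  have h6 : v (F.eval y * (G.eval x - G.eval y)) < v (x - y) := by
    rw [map_mul]
    have h7 := LocSepAux.lip v hG hx hy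
    have h8 : 0 < v (x - y) := zero_lt_iff.2 ((Valuation.ne_zero_iff v).2 (sub_ne_zero.2 hne))
    calc v (F.eval y) * v (G.eval x - G.eval y) ≤ v (F.eval y) * v (x - y) :=
          mul_le_mul_right h7 _
      _ < 1 * v (x - y) := mul_lt_mul_of_pos_right h1 h8
      _ = v (x - y) := one_mul _
  have key : h ^ n * G.eval x * G.eval y * (x' - y') =
      G.eval y * (F.eval x - F.eval y) - F.eval y * (G.eval x - G.eval y) := by
    linear_combination G.eval y * ex - G.eval x * ey
  have h7 := congrArg v key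
  have h8 : v (G.eval y * (F.eval x - F.eval y)) = v (x - y) := by
    rw [map_mul, hGy, one_mul, h5]
  have h9 : v (G.eval y * (F.eval x - F.eval y) - F.eval y * (G.eval x - G.eval y)) =
      v (G.eval y * (F.eval x - F.eval y)) :=
    Valuation.map_sub_eq_of_lt_left v (by rw [h8]; exact h6)
  rw [h9, h8, map_mul, map_mul, map_mul, hGx, hGy, mul_one, mul_one, map_pow] at h7
  exact h7

/-- an increasing sequence of distances reaches one -/
lemma reach {ε : ℤᵐ⁰} (hε1 : ε < 1) {D : ℕ → ℤᵐ⁰} (hD1 : ∀ i, D i ≤ 1) (hD0 : D 0 ≠ 0)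
    (hstep : ∀ i, D i < 1 → ε * D (i + 1) = D i) {L : ℕ} (hL : 0 < L) (hDL : D L = D 0) :
    ∃ e : ℕ, D 0 = ε ^ e := by
  have hex : ∃ k, ¬ D k < 1 := by
    by_contra hno
    push Not at hno
    have h1 : ∀ k, ε ^ k * D k = D 0 := by
      intro k
      induction k with
      | zero => simp
      | succ k ih => rw [pow_succ, mul_assoc, hstep _ (hno k), ih]
    have h2 := h1 L
    rw [hDL] at h2
    have h4 : ε ^ L = 1 := mul_right_cancel₀ hD0 (by rw [h2, one_mul])
    exact absurd h4 (pow_lt_one₀ zero_le hε1 hL.ne').ne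
  classical
  refine ⟨Nat.find hex, ?_⟩
  have h1 : ∀ k, k ≤ Nat.find hex → ε ^ k * D k = D 0 := by
    intro k
    induction k with
    | zero => intro _; simp
    | succ k ih =>
      intro hk
      have h2 := Nat.find_min hex (m := k) (by omega)
      rw [not_not] at h2
      rw [pow_succ, mul_assoc, hstep _ h2, ih (by omega)]
  have h2 : D (Nat.find hex) = 1 := le_antisymm (hD1 _) (not_lt.1 (Nat.find_spec hex))
  have h3 := h1 _ le_rfl
  rw [h2, mul_one] at h3
  exact h3.symm

/-- chordal distance of two points outside the class of infinity -/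
lemma chord_int {v : Valuation K ℤᵐ⁰} {P Q : K × K} (hP : P.2 ≠ 0) (hQ : Q.2 ≠ 0)
    (hPz : v (P.1 / P.2) ≤ 1) (hQz : v (Q.1 / Q.2) ≤ 1) :
    chord v P Q = v (P.1 / P.2 - Q.1 / Q.2) := by
  have e1 : P = P.2 • ((P.1 / P.2, 1) : K × K) := by
    rw [Prod.smul_mk, smul_eq_mul, smul_eq_mul, mul_one, mul_div_cancel₀ _ hP]
  have e2 : Q = Q.2 • ((Q.1 / Q.2, 1) : K × K) := by
    rw [Prod.smul_mk, smul_eq_mul, smul_eq_mul, mul_one, mul_div_cancel₀ _ hQ]
  have h1 : chord v P Q = chord v ((P.1 / P.2, 1) : K × K) ((Q.1 / Q.2, 1) : K × K) := by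
    conv_lhs => rw [e1, e2]
    exact chord_smul v hP hQ _ _
  rw [h1]
  unfold chord wedge nrm
  simp only [map_one, mul_one, one_mul]
  rw [max_eq_right hPz, max_eq_right hQz, mul_one, div_one]

/-- chordal distances of periodic orbits at a bad place -/
theorem bad_chord {v : Valuation K ℤᵐ⁰} {n : ℕ} {h : K} (hn : 0 < n) (hh0 : h ≠ 0) (hh : v h < 1)
    {d : ℕ → ℕ} (hd : ∀ i, 1 ≤ d i) {F G : ℕ → K[X]} (hbad : ∀ i, BadAt v (d i) (F i) (G i))
    {X Y : ℕ → K × K} (hX0 : ∀ i, X i ≠ 0) (hY0 : ∀ i, Y i ≠ 0)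
    (hX : ∀ i, ∃ a : K, a ≠ 0 ∧ X (i + 1) = a • mapR (d i) (F i) (C (h ^ n) * G i) (X i))
    (hY : ∀ i, ∃ a : K, a ≠ 0 ∧ Y (i + 1) = a • mapR (d i) (F i) (C (h ^ n) * G i) (Y i))
    {L : ℕ} (hL : 0 < L) (hXL : ∀ i, ∃ a : K, a ≠ 0 ∧ X (i + L) = a • X i)
    (hYL : ∀ i, ∃ a : K, a ≠ 0 ∧ Y (i + L) = a • Y i) (hXY : wedge (X 0) (Y 0) ≠ 0) :
    ∃ e : ℕ, chord v (X 0) (Y 0) = (v h ^ n) ^ e := by
  have hε1 : v h ^ n < 1 := pow_lt_one₀ zero_le hh hn.ne'
  have hchL : ∀ i, chord v (X (i + L)) (Y (i + L)) = chord v (X i) (Y i) := by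
    intro i
    obtain ⟨a, ha, h1⟩ := hXL i
    obtain ⟨b, hb, h2⟩ := hYL i
    rw [h1, h2, chord_smul v ha hb]
  have hch0 : chord v (X 0) (Y 0) ≠ 0 := by
    unfold chord
    exact div_ne_zero ((Valuation.ne_zero_iff v).2 hXY)
      (mul_ne_zero (nrm_ne v (hX0 0)) (nrm_ne v (hY0 0)))
  rcases att_all hn hh hbad hX hL hXL with hXa | hXi
  · rcases att_all hn hh hbad hY hL hYL with hYa | hYi
    · -- both in the class of infinity
      exfalso
      have hstep : ∀ i, chord v (X (i + 1)) (Y (i + 1)) ≤ v h ^ n * chord v (X i) (Y i) := by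
        intro i
        obtain ⟨a, ha, h1⟩ := hX i
        obtain ⟨b, hb, h2⟩ := hY i
        have hp := zero_lt_iff.2 (nrm_ne v (hX0 i))
        have hq := zero_lt_iff.2 (nrm_ne v (hY0 i))
        rw [h1, h2, chord_smul v ha hb]
        unfold chord
        rw [(att_step hn hh hbad (hXa i)).2, (att_step hn hh hbad (hYa i)).2, ← mul_pow,
          ← mul_div_assoc, div_le_div_iff₀ (pow_pos (mul_pos hp hq) _) (mul_pos hp hq)]
        have e : wedge (mapR (d i) (F i) (C (h ^ n) * G i) (X i))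
            (mapR (d i) (F i) (C (h ^ n) * G i) (Y i)) =
            h ^ n * wedge (mapR (d i) (F i) (G i) (X i)) (mapR (d i) (F i) (G i) (Y i)) := by
          unfold wedge mapR
          simp only [hom_C_mul]
          ring
        have h3 := wedge_map_le (d := d i) (hbad i).hF (hbad i).hG (X i) (Y i)
        rw [e, map_mul, map_pow]
        calc v h ^ n * v (wedge (mapR (d i) (F i) (G i) (X i)) (mapR (d i) (F i) (G i) (Y i))) *
              (nrm v (X i) * nrm v (Y i))
            ≤ v h ^ n * (v (wedge (X i) (Y i)) * (nrm v (X i) * nrm v (Y i)) ^ (d i - 1)) *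
              (nrm v (X i) * nrm v (Y i)) := mul_le_mul_left (mul_le_mul_right h3 _) _
          _ = v h ^ n * v (wedge (X i) (Y i)) * (nrm v (X i) * nrm v (Y i)) ^ d i := by
              obtain ⟨m, hm⟩ : ∃ m, d i = m + 1 := ⟨d i - 1, by have := hd i; omega⟩
              rw [hm, Nat.add_sub_cancel, pow_succ, mul_assoc, mul_assoc, mul_assoc]
      have h1 : ∀ t, chord v (X t) (Y t) ≤ (v h ^ n) ^ t * chord v (X 0) (Y 0) := by
        intro t
        induction t with
        | zero => simp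
        | succ t ih =>
          calc _ ≤ v h ^ n * chord v (X t) (Y t) := hstep t
            _ ≤ v h ^ n * ((v h ^ n) ^ t * chord v (X 0) (Y 0)) := mul_le_mul_right ih _
            _ = (v h ^ n) ^ (t + 1) * chord v (X 0) (Y 0) := by
                rw [← mul_assoc, ← pow_succ']
      have h2 := h1 L
      have h3 := hchL 0
      rw [Nat.zero_add] at h3
      rw [h3] at h2
      have h4 : (v h ^ n) ^ L * chord v (X 0) (Y 0) < 1 * chord v (X 0) (Y 0) :=
        mul_lt_mul_of_pos_right (pow_lt_one₀ zero_le hε1 hL.ne') (zero_lt_iff.2 hch0)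
      rw [one_mul] at h4
      exact absurd (h2.trans_lt h4) (lt_irrefl _)
    · -- one of them in the class of infinity
      refine ⟨0, ?_⟩
      have h1 := hXa 0
      have h2 := hYi 0
      unfold Att at h1 h2
      rw [not_lt] at h2
      have h3 : v (Y 0).2 ≠ 0 := by
        intro h0
        rw [h0] at h2
        apply hY0 0
        have h4 : (Y 0).1 = 0 := by
          by_contra hne
          exact absurd (le_antisymm h2 zero_le) ((Valuation.ne_zero_iff v).2 hne)
        have h5 : (Y 0).2 = 0 := by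
          by_contra hne
          exact absurd h0 ((Valuation.ne_zero_iff v).2 hne)
        exact Prod.ext h4 h5
      have hx0 : v (X 0).1 ≠ 0 := (zero_le.trans_lt h1).ne'
      unfold chord wedge nrm
      rw [max_eq_left h1.le, max_eq_right h2, pow_zero]
      have h6 : v ((X 0).2 * (Y 0).1) < v ((X 0).1 * (Y 0).2) := by
        rw [map_mul, map_mul]
        calc v (X 0).2 * v (Y 0).1 ≤ v (X 0).2 * v (Y 0).2 := mul_le_mul_right h2 _
          _ < v (X 0).1 * v (Y 0).2 := mul_lt_mul_of_pos_right h1 (zero_lt_iff.2 h3)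
      rw [Valuation.map_sub_eq_of_lt_left v h6, map_mul, div_self (mul_ne_zero hx0 h3)]
  · rcases att_all hn hh hbad hY hL hYL with hYa | hYi
    · refine ⟨0, ?_⟩
      have h1 := hYa 0
      have h2 := hXi 0
      unfold Att at h1 h2
      rw [not_lt] at h2
      have h3 : v (X 0).2 ≠ 0 := by
        intro h0
        rw [h0] at h2
        apply hX0 0
        have h4 : (X 0).1 = 0 := by
          by_contra hne
          exact absurd (le_antisymm h2 zero_le) ((Valuation.ne_zero_iff v).2 hne)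
        have h5 : (X 0).2 = 0 := by
          by_contra hne
          exact absurd h0 ((Valuation.ne_zero_iff v).2 hne)
        exact Prod.ext h4 h5
      have hx0 : v (Y 0).1 ≠ 0 := (zero_le.trans_lt h1).ne'
      rw [chord_symm]
      unfold chord wedge nrm
      rw [max_eq_left h1.le, max_eq_right h2, pow_zero]
      have h6 : v ((Y 0).2 * (X 0).1) < v ((Y 0).1 * (X 0).2) := by
        rw [map_mul, map_mul]
        calc v (Y 0).2 * v (X 0).1 ≤ v (Y 0).2 * v (X 0).2 := mul_le_mul_right h2 _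
          _ < v (Y 0).1 * v (X 0).2 := mul_lt_mul_of_pos_right h1 (zero_lt_iff.2 h3)
      rw [Valuation.map_sub_eq_of_lt_left v h6, map_mul, div_self (mul_ne_zero hx0 h3)]
    · -- both outside
      have oX := int_orbit hn hh0 hh hbad hX0 hX hXi
      have oY := int_orbit hn hh0 hh hbad hY0 hY hYi
      have hch : ∀ i, chord v (X i) (Y i) = v ((X i).1 / (X i).2 - (Y i).1 / (Y i).2) := fun i =>
        chord_int (oX i).1 (oY i).1 (oX i).2.1 (oY i).2.1
      refine reach hε1 (D := fun i => chord v (X i) (Y i))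
        (fun i => chord_le_one v (hX0 i) (hY0 i)) hch0 ?_ hL ?_
      · intro i hi
        change chord v (X i) (Y i) < 1 at hi
        change v h ^ n * chord v (X (i + 1)) (Y (i + 1)) = chord v (X i) (Y i)
        rw [hch] at hi
        rw [hch, hch]
        exact step_close hn hh (hbad i).hF (hbad i).hG (hbad i).simple (oX i).2.1 (oY i).2.1
          (oY (i + 1)).2.1 (oX i).2.2.1 (oY i).2.2.1 (oX i).2.2.2 (oY i).2.2.2 hi
      · have h3 := hchL 0
        rw [Nat.zero_add] at h3
        exact h3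

end UBR
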