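import Pool.Agent.UBR.CycLoc
import Pool.Agent.UBR.Bad

/-!
# Maps given by forms and the metric condition
-/

set_option autoImplicit false

universe u

namespace UBR

open UBC Pool.Agent.UBC OnePoint WithZero Polynomial BadAux

variable {K : Type*} [Field K]

/-- the map `g` of the projective line is given by the forms `F`, `G` of degree `e` -/
def Rep (e : ℕ) (F G : K[X]) (g : OnePoint K → OnePoint K) : Prop :=
  ∀ z, ∃ c : K, c ≠ 0 ∧ mapR e F G (co z) = c • co (g z)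

lemma chordal_map {v : Valuation K ℤᵐ⁰} {e : ℕ} {F G : K[X]} {g : OnePoint K → OnePoint K}
    (hg : Rep e F G g) (z w : OnePoint K) :
    chordal v (g z) (g w) = chord v (mapR e F G (co z)) (mapR e F G (co w)) := by
  obtain ⟨c, hc, h1⟩ := hg z
  obtain ⟨c', hc', h2⟩ := hg w
  rw [h1, h2, chord_smul v hc hc']
  rfl

lemma good_chordal {v : Valuation K ℤᵐ⁰} {e : ℕ} (he : 1 ≤ e) {F G : K[X]}
    (hG : GoodAt v e F G) {g : OnePoint K → OnePoint K} (hg : Rep e F G g) (z w : OnePoint K) :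
    chordal v (g z) (g w) ≤ chordal v z w := by
  rw [chordal_map hg]
  exact hG.chord_map_le he (co_ne z) (co_ne w)

lemma chordal_infty (v : Valuation K ℤᵐ⁰) (z : OnePoint K) :
    chordal v z ∞ < 1 ↔ Att v (co z) := by
  have h1 : nrm v (co (∞ : OnePoint K)) = 1 := by
    unfold nrm co
    simp
  have h2 : v (wedge (co z) (co (∞ : OnePoint K))) = v (co z).2 := by
    unfold wedge co
    simp
  unfold chordal chord Att
  rw [h1, h2, mul_one, div_lt_one₀ (zero_lt_iff.2 (nrm_ne v (co_ne z)))]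
  unfold nrm
  simp only [lt_max_iff, lt_self_iff_false, or_false]

/-- contraction in the residue class of infinity -/
lemma att_contr {v : Valuation K ℤᵐ⁰} {n : ℕ} {h : K} (hn : 0 < n) (hh : v h < 1)
    {d : ℕ} (hd : 1 ≤ d) {F G : K[X]} (hbad : BadAt v d F G) {P Q : K × K} (hP0 : P ≠ 0)
    (hQ0 : Q ≠ 0) (hP : Att v P) (hQ : Att v Q) :
    chord v (mapR d F (C (h ^ n) * G) P) (mapR d F (C (h ^ n) * G) Q) ≤
      v h ^ n * chord v P Q := by
  have hp := zero_lt_iff.2 (nrm_ne v hP0)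
  have hq := zero_lt_iff.2 (nrm_ne v hQ0)
  have s1 := (att_step (n := n) (h := h) hn hh (d := fun _ => d) (F := fun _ => F)
    (G := fun _ => G) (fun _ => hbad) (i := 0) hP).2
  have s2 := (att_step (n := n) (h := h) hn hh (d := fun _ => d) (F := fun _ => F)
    (G := fun _ => G) (fun _ => hbad) (i := 0) hQ).2
  unfold chord
  rw [s1, s2, ← mul_pow, ← mul_div_assoc,
    div_le_div_iff₀ (pow_pos (mul_pos hp hq) _) (mul_pos hp hq)]
  have e : wedge (mapR d F (C (h ^ n) * G) P) (mapR d F (C (h ^ n) * G) Q) =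
      h ^ n * wedge (mapR d F G P) (mapR d F G Q) := by
    unfold wedge mapR
    simp only [hom_C_mul]
    ring
  have h3 := wedge_map_le (d := d) hbad.hF hbad.hG P Q
  rw [e, map_mul, map_pow]
  calc v h ^ n * v (wedge (mapR d F G P) (mapR d F G Q)) * (nrm v P * nrm v Q)
      ≤ v h ^ n * (v (wedge P Q) * (nrm v P * nrm v Q) ^ (d - 1)) *
        (nrm v P * nrm v Q) := mul_le_mul_left (mul_le_mul_right h3 _) _
    _ = v h ^ n * v (wedge P Q) * (nrm v P * nrm v Q) ^ d := by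
        obtain ⟨m, hm⟩ : ∃ m, d = m + 1 := ⟨d - 1, by omega⟩
        rw [hm, Nat.add_sub_cancel, pow_succ, mul_assoc, mul_assoc, mul_assoc]

/-- affine coordinate of a point outside the class of infinity -/
lemma int_point {v : Valuation K ℤᵐ⁰} {P : K × K} (hP0 : P ≠ 0) (hP : ¬ Att v P) :
    P.2 ≠ 0 ∧ v (P.1 / P.2) ≤ 1 := by
  have h1 := hP
  unfold Att at h1
  rw [not_lt] at h1
  have hy : P.2 ≠ 0 := by
    intro h0
    rw [h0, map_zero] at h1
    have h2 : P.1 = 0 := by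
      by_contra hne
      exact absurd (le_antisymm h1 zero_le) ((Valuation.ne_zero_iff v).2 hne)
    exact hP0 (Prod.ext h2 h0)
  refine ⟨hy, ?_⟩
  rw [map_div₀]
  exact (div_le_one₀ (zero_lt_iff.2 ((Valuation.ne_zero_iff v).2 hy))).2 h1

/-- one step outside the class of infinity -/
lemma int_step {v : Valuation K ℤᵐ⁰} {n : ℕ} {h : K} (hn : 0 < n) (hh0 : h ≠ 0) (hh : v h < 1)
    {d : ℕ} {F G : K[X]} (hbad : BadAt v d F G) {P : K × K} (hP0 : P ≠ 0)
    (hP : ¬ Att v P) (hm0 : mapR d F (C (h ^ n) * G) P ≠ 0)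
    (hm : ¬ Att v (mapR d F (C (h ^ n) * G) P)) :
    v (G.eval (P.1 / P.2)) = 1 ∧
      h ^ n * G.eval (P.1 / P.2) * ((mapR d F (C (h ^ n) * G) P).1 /
        (mapR d F (C (h ^ n) * G) P).2) = F.eval (P.1 / P.2) := by
  obtain ⟨hy, hz⟩ := int_point hP0 hP
  obtain ⟨hy', hz'⟩ := int_point hm0 hm
  set z := P.1 / P.2 with hzdef
  have e1 : (mapR d F (C (h ^ n) * G) P).1 = P.2 ^ d * F.eval z := by
    unfold mapR
    simp only
    rw [hom_eq hbad.dF hy]
  have e2 : (mapR d F (C (h ^ n) * G) P).2 = P.2 ^ d * (h ^ n * G.eval z) := by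
    unfold mapR
    simp only
    rw [hom_C_mul, hom_eq hbad.dG hy]
    ring
  rw [e2] at hy'
  rw [e1, e2] at hz'
  rw [e1, e2]
  have hG0 : G.eval z ≠ 0 := by
    intro h0
    rw [h0, mul_zero, mul_zero] at hy'
    exact hy' rfl
  rw [mul_div_mul_left _ _ (pow_ne_zero _ hy)] at hz' ⊢
  have hhn : h ^ n ≠ 0 := pow_ne_zero _ hh0
  have heq : h ^ n * G.eval z * (F.eval z / (h ^ n * G.eval z)) = F.eval z := by
    field_simp
  refine ⟨?_, heq⟩
  -- the value of `G`
  have hP1 : nrm v ((z, 1) : K × K) = 1 := by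
    unfold nrm
    simp only [map_one]
    exact max_eq_right hz
  have h1 := hbad.hne _ hP1
  unfold nrm mapR at h1
  simp only at h1
  rw [hom_eq hbad.dF one_ne_zero, hom_eq hbad.dG one_ne_zero, one_pow, one_mul, one_mul,
    div_one] at h1
  have h2 : v (G.eval z) ≤ 1 := by
    rw [← h1]
    exact le_max_right _ _
  have h3 : v (F.eval z) < 1 := by
    rw [← heq, map_mul, map_mul, map_pow]
    calc v h ^ n * v (G.eval z) * v (F.eval z / (h ^ n * G.eval z)) ≤ v h ^ n * 1 * 1 :=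
          mul_le_mul' (mul_le_mul_right h2 _) hz'
      _ = v h ^ n := by rw [mul_one, mul_one]
      _ < 1 := pow_lt_one₀ zero_le hh hn.ne'
  rcases le_max_iff.1 h1.ge with h4 | h4
  · exact absurd (h4.trans_lt h3) (lt_irrefl _)
  · exact le_antisymm h2 h4

/-- a bad map satisfies the metric condition -/
theorem bad_powExp [DecidableEq K] {v : Valuation K ℤᵐ⁰} {σ : GL (Fin 2) K} {n : ℕ} {h : K}
    (hn : 0 < n) (hh0 : h ≠ 0) (hh : v h < 1) {d : ℕ} (hd : 1 ≤ d) {F G : K[X]}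
    (hbad : BadAt v d F G) {f g : OnePoint K → OnePoint K} (hg : Rep d F (C (h ^ n) * G) g)
    (hfg : ∀ x, σ • f x = g (σ • x)) : PowExp n (delta v σ) (cls v σ) f := by
  have hU : ∀ x, x ∈ cls v σ ↔ Att v (co (σ • x)) := fun x => chordal_infty v _
  have hAtt : ∀ z, Att v (co (g z)) ↔ Att v (mapR d F (C (h ^ n) * G) (co z)) := by
    intro z
    obtain ⟨c, hc, h1⟩ := hg z
    rw [h1, att_smul hc]
  have hhv : v h ≠ 0 := (Valuation.ne_zero_iff v).2 hh0
  refine ⟨fun x hx => ?_, fun x hx y hy => ?_, fun x y hx hy hfx hfy => ?_⟩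
  · rw [hU] at hx ⊢
    rw [hfg, hAtt]
    exact (att_step (n := n) (h := h) hn hh (d := fun _ => d) (F := fun _ => F)
      (G := fun _ => G) (fun _ => hbad) (i := 0) hx).1
  · rw [hU] at hx hy
    unfold delta
    rw [hfg, hfg, chordal_map hg]
    have h1 := att_contr hn hh hd hbad (co_ne _) (co_ne _) hx hy
    refine h1.trans ?_
    calc v h ^ n * chord v (co (σ • x)) (co (σ • y)) ≤ 1 * chord v (co (σ • x)) (co (σ • y)) :=
          mul_le_mul_left (pow_lt_one₀ zero_le hh hn.ne').le _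
      _ = chordal v (σ • x) (σ • y) := one_mul _
  · rcases ((um_delta v σ).le_one x y).eq_or_lt with hlt | hlt
    · exact Or.inl ⟨1, by rw [hlt, one_pow]⟩
    refine Or.inr ⟨(v h)⁻¹, (one_lt_inv₀ (zero_lt_iff.2 hhv)).2 hh, ?_⟩
    rw [hU] at hx hy hfx hfy
    rw [hfg, hAtt] at hfx hfy
    have hm : ∀ z, mapR d F (C (h ^ n) * G) (co z) ≠ 0 := by
      intro z h0
      obtain ⟨c, hc, h1⟩ := hg z
      rw [h0] at h1
      rcases smul_eq_zero.1 h1.symm with h2 | h2
      · exact hc h2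
      · exact co_ne _ h2
    obtain ⟨a1, a2⟩ := int_point (co_ne _) hx
    obtain ⟨b1, b2⟩ := int_point (co_ne _) hy
    obtain ⟨a1', a2'⟩ := int_point (hm _) hfx
    obtain ⟨b1', b2'⟩ := int_point (hm _) hfy
    obtain ⟨s1, s2⟩ := int_step hn hh0 hh hbad (co_ne _) hx (hm _) hfx
    obtain ⟨t1, t2⟩ := int_step hn hh0 hh hbad (co_ne _) hy (hm _) hfy
    have hd1 : delta v σ x y = v ((co (σ • x)).1 / (co (σ • x)).2 -
        (co (σ • y)).1 / (co (σ • y)).2) := chord_int a1 b1 a2 b2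
    have hd2 : delta v σ (f x) (f y) = v ((mapR d F (C (h ^ n) * G) (co (σ • x))).1 /
        (mapR d F (C (h ^ n) * G) (co (σ • x))).2 -
        (mapR d F (C (h ^ n) * G) (co (σ • y))).1 /
        (mapR d F (C (h ^ n) * G) (co (σ • y))).2) := by
      unfold delta
      rw [hfg, hfg, chordal_map hg]
      exact chord_int a1' b1' a2' b2'
    rw [hd1] at hlt ⊢
    rw [hd2]
    have h5 := step_close hn hh hbad.hF hbad.hG hbad.simple a2 b2 b2' s1 t1 s2 t2 hlt
    rw [← h5, inv_pow, ← mul_assoc, inv_mul_cancel₀ (pow_ne_zero _ hhv), one_mul]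

/-- a good map satisfies the metric condition -/
theorem good_powExp [DecidableEq K] {v : Valuation K ℤᵐ⁰} {σ : GL (Fin 2) K} {n : ℕ} {d : ℕ}
    (hd : 1 ≤ d) {F G : K[X]} (hG : GoodAt v d F G) {f g : OnePoint K → OnePoint K}
    (hg : Rep d F G g) (hfg : ∀ x, σ • f x = g (σ • x)) :
    PowExp n (delta v σ) Set.univ f := by
  refine ⟨fun x _ => Set.mem_univ _, fun x _ y _ => ?_, fun x y hx => absurd (Set.mem_univ x) hx⟩
  unfold delta
  rw [hfg, hfg]
  exact good_chordal hd hG hg _ _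

/-- good maps -/
theorem adm_good [DecidableEq K] {v : Valuation K ℤᵐ⁰} {n : ℕ} (σ : GL (Fin 2) K)
    {A : Set (OnePoint K → OnePoint K)}
    (hA : ∀ f ∈ A, ∃ (d : ℕ) (F G : K[X]) (g : OnePoint K → OnePoint K), 1 ≤ d ∧
      GoodAt v d F G ∧ Rep d F G g ∧ ∀ x, σ • f x = g (σ • x)) : Adm n v A := by
  refine ⟨σ, Set.univ, fun f hf => ?_⟩
  obtain ⟨d, F, G, g, hd, hG, hg, hfg⟩ := hA f hf
  exact good_powExp hd hG hg hfg

/-- bad maps -/
theorem adm_bad [DecidableEq K] {v : Valuation K ℤᵐ⁰} {n : ℕ} (hn : 0 < n) (σ : GL (Fin 2) K)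
    {A : Set (OnePoint K → OnePoint K)}
    (hA : ∀ f ∈ A, ∃ (d : ℕ) (F G : K[X]) (h : K) (g : OnePoint K → OnePoint K), 1 ≤ d ∧
      h ≠ 0 ∧ v h < 1 ∧ BadAt v d F G ∧ Rep d F (C (h ^ n) * G) g ∧
      ∀ x, σ • f x = g (σ • x)) : Adm n v A := by
  refine ⟨σ, cls v σ, fun f hf => ?_⟩
  obtain ⟨d, F, G, h, g, hd, hh0, hh, hbad, hg, hfg⟩ := hA f hf
  exact bad_powExp hn hh0 hh hd hbad hg hfg

end UBR
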