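import Pool.Agent.UBV2.Mixed
import Pool.Agent.UBV2.Bip

/-!
# Cycles on the projective line: the abstract argument with cross-ratios, `n ≥ 6` even

`D i j` is the determinant of the coordinate vectors of the points `i` and `j` of a cycle of length
`q ^ s`.
-/

set_option autoImplicit false

universe u

namespace UBR

open UBC UBV2 Height NumberField IsDedekindDomain WithZero

/-- The local condition on the determinants: they are, up to factors depending on one index,
determined by the greatest common divisor of the difference of the indices with `k`, or all of them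
are `n`-th powers. -/
def LocD {K : Type*} [Field K] (v : Valuation K ℤᵐ⁰) (n k : ℕ) (D : ℕ → ℕ → K) : Prop :=
  ∃ (κ : ℤᵐ⁰) (u : ℕ → ℤᵐ⁰) (w : ℕ → ℕ → ℤᵐ⁰),
    (∀ i j : ℕ, i < k → j < k → i ≠ j → v (D i j) = κ * u i * u j * w i j) ∧
    ((∀ i j i' j' : ℕ, i < k → j < k → i' < k → j' < k → i ≠ j → i' ≠ j' →
      Nat.gcd (Nat.dist i j) k = Nat.gcd (Nat.dist i' j') k → w i j = w i' j') ∨
    (∀ i j : ℕ, i < k → j < k → i ≠ j → ∃ γ : ℤᵐ⁰, w i j = γ ^ n))

namespace CrAbsAux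

/-- the quotient of values -/
theorem quot {K : Type*} [Field K] (v : Valuation K ℤᵐ⁰) {κ u1 u2 u3 u4 w1 w2 w3 w4 : ℤᵐ⁰}
    {d1 d2 d3 d4 : K} (h1 : v d1 = κ * u1 * u2 * w1) (h2 : v d2 = κ * u3 * u4 * w2)
    (h3 : v d3 = κ * u3 * u2 * w3) (h4 : v d4 = κ * u1 * u4 * w4) (h30 : d3 ≠ 0) (h40 : d4 ≠ 0) :
    v (d1 * d2 / (d3 * d4)) = w1 * w2 / (w3 * w4) := by
  have n3 : κ * u3 * u2 * w3 ≠ 0 := by rw [← h3]; exact (Valuation.ne_zero_iff v).2 h30
  have n4 : κ * u1 * u4 * w4 ≠ 0 := by rw [← h4]; exact (Valuation.ne_zero_iff v).2 h40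
  simp only [ne_eq, mul_eq_zero, not_or] at n3 n4
  obtain ⟨⟨⟨a1, a2⟩, a3⟩, a4⟩ := n3
  obtain ⟨⟨⟨-, b2⟩, b3⟩, b4⟩ := n4
  rw [map_div₀, map_mul, map_mul, h1, h2, h3, h4]
  rw [div_eq_div_iff (by simp [a1, a2, a3, a4, b2, b3, b4]) (by simp [a4, b4])]
  ac_rfl

end CrAbsAux

open CrAbsAux

/-- the set with the gap property -/
def TM {K : Type*} [Field K] [NumberField K] (n : ℕ) (S : Set (HeightOneSpectrum (𝓞 K))) : Set K :=
  {t : K | t ≠ 1 ∧ Sel n S t ∧ Sel 2 S (1 - t)}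

/-- two index sets -/
theorem core {K : Type u} [Field K] [NumberField K] {n : ℕ} (hev : Even n)
    {S : Set (HeightOneSpectrum (𝓞 K))} {B : ℕ}
    (hB : ∀ X Y : Finset K, (∀ x ∈ X, x ≠ 0) → (∀ y ∈ Y, y ≠ 0) →
      (∀ x ∈ X, ∀ y ∈ Y, x / y ∈ TM n S) → X.card ≤ B ∨ Y.card ≤ B)
    {k : ℕ} (hk : 1 < k) {D : ℕ → ℕ → K}
    (hpl : ∀ a b c d : ℕ, D a b * D c d - D c b * D a d = D a c * D b d)
    (hne : ∀ i j : ℕ, i < k → j < k → i ≠ j → D i j ≠ 0)
    (hloc : ∀ v : HeightOneSpectrum (𝓞 K), v ∉ S → LocD (v.valuation K) n k D)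
    {a1 a2 : ℕ} (ha1 : a1 < k) (ha2 : a2 < k) (ha : a1 ≠ a2) (I J : Finset ℕ)
    (hI : ∀ b ∈ I, b < k ∧ Nat.gcd (Nat.dist a1 b) k = 1 ∧ Nat.gcd (Nat.dist a2 b) k = 1)
    (hJ : ∀ b ∈ J, b < k ∧ Nat.gcd (Nat.dist a1 b) k = 1 ∧ Nat.gcd (Nat.dist a2 b) k = 1)
    (hIJ : ∀ b ∈ I, ∀ b' ∈ J, b ≠ b' ∧
      Nat.gcd (Nat.dist b b') k = Nat.gcd (Nat.dist a1 a2) k) :
    I.card ≤ B ∨ J.card ≤ B := by
  classical
  obtain ⟨m, hm⟩ := hev
  have hm' : n = m * 2 := by omega
  have hd1 : ∀ {a b : ℕ}, Nat.gcd (Nat.dist a b) k = 1 → a ≠ b := by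
    rintro a b h rfl
    rw [Nat.dist_self, Nat.gcd_zero_left] at h
    omega
  set μ : ℕ → K := fun b => D a1 b / D a2 b with hμ
  have hN : ∀ b, (b < k ∧ Nat.gcd (Nat.dist a1 b) k = 1 ∧ Nat.gcd (Nat.dist a2 b) k = 1) →
      D a1 b ≠ 0 ∧ D a2 b ≠ 0 := fun b hb =>
    ⟨hne _ _ ha1 hb.1 (hd1 hb.2.1), hne _ _ ha2 hb.1 (hd1 hb.2.2)⟩
  have hinj : ∀ b b', (b < k ∧ Nat.gcd (Nat.dist a1 b) k = 1 ∧ Nat.gcd (Nat.dist a2 b) k = 1) →
      (b' < k ∧ Nat.gcd (Nat.dist a1 b') k = 1 ∧ Nat.gcd (Nat.dist a2 b') k = 1) →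
      μ b = μ b' → b = b' := by
    intro b b' hb hb' h
    by_contra hcon
    obtain ⟨h1, h2⟩ := hN b hb
    obtain ⟨h3, h4⟩ := hN b' hb'
    simp only [hμ] at h
    rw [div_eq_div_iff h2 h4] at h
    have h5 := hpl a1 b a2 b'
    have h6 : D a1 b * D a2 b' - D a2 b * D a1 b' = 0 := by rw [h]; ring
    rw [h6] at h5
    exact mul_ne_zero (hne _ _ ha1 ha2 ha) (hne _ _ hb.1 hb'.1 hcon) h5.symm
  have hcardI : (I.image μ).card = I.card := Finset.card_image_of_injOn fun b hb b' hb' h =>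
    hinj b b' (hI b hb) (hI b' hb') h
  have hcardJ : (J.image μ).card = J.card := Finset.card_image_of_injOn fun b hb b' hb' h =>
    hinj b b' (hJ b hb) (hJ b' hb') h
  rw [← hcardI, ← hcardJ]
  refine hB _ _ ?_ ?_ ?_
  · intro z hz
    obtain ⟨b, hb, rfl⟩ := Finset.mem_image.1 hz
    obtain ⟨h1, h2⟩ := hN b (hI b hb)
    exact div_ne_zero h1 h2
  · intro z hz
    obtain ⟨b, hb, rfl⟩ := Finset.mem_image.1 hz
    obtain ⟨h1, h2⟩ := hN b (hJ b hb)
    exact div_ne_zero h1 h2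
  · intro z hz z' hz'
    obtain ⟨b, hb, rfl⟩ := Finset.mem_image.1 hz
    obtain ⟨b', hb', rfl⟩ := Finset.mem_image.1 hz'
    obtain ⟨h1, h2⟩ := hN b (hI b hb)
    obtain ⟨h3, h4⟩ := hN b' (hJ b' hb')
    obtain ⟨hbb, hgg⟩ := hIJ b hb b' hb'
    have h12 := hne _ _ ha1 ha2 ha
    have hb0 := hne _ _ (hI b hb).1 (hJ b' hb').1 hbb
    have e1 : μ b / μ b' = D a1 b * D a2 b' / (D a2 b * D a1 b') := by
      simp only [hμ]
      field_simp
    have e2 : 1 - μ b / μ b' = -(D a1 a2 * D b b' / (D a2 b * D a1 b')) := by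
      rw [e1, ← hpl a1 b a2 b']
      field_simp
      ring
    have hne1 : 1 - μ b / μ b' ≠ 0 := by
      rw [e2]
      exact neg_ne_zero.2 (div_ne_zero (mul_ne_zero h12 hb0) (mul_ne_zero h2 h3))
    -- valuations
    have hval : ∀ v : HeightOneSpectrum (𝓞 K), v ∉ S →
        (∃ γ : ℤᵐ⁰, v.valuation K (μ b / μ b') = γ ^ n) ∧
        (∃ γ : ℤᵐ⁰, v.valuation K (1 - μ b / μ b') = γ ^ 2) := by
      intro v hv
      obtain ⟨κ, u, w, huw, hcase⟩ := hloc v hv
      have k1 := huw a1 b ha1 (hI b hb).1 (hd1 (hI b hb).2.1)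
      have k2 := huw a2 b ha2 (hI b hb).1 (hd1 (hI b hb).2.2)
      have k3 := huw a1 b' ha1 (hJ b' hb').1 (hd1 (hJ b' hb').2.1)
      have k4 := huw a2 b' ha2 (hJ b' hb').1 (hd1 (hJ b' hb').2.2)
      have k5 := huw a1 a2 ha1 ha2 ha
      have k6 := huw b b' (hI b hb).1 (hJ b' hb').1 hbb
      have q1 : v.valuation K (μ b / μ b') = w a1 b * w a2 b' / (w a2 b * w a1 b') := by
        rw [e1]
        exact quot (v.valuation K) k1 k4 k2 k3 h2 h3
      have q2 : v.valuation K (1 - μ b / μ b') = w a1 a2 * w b b' / (w a2 b * w a1 b') := by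
        rw [e2, Valuation.map_neg]
        refine quot (v.valuation K) (u1 := u a1) (u2 := u a2) (u3 := u b) (u4 := u b') k5 k6 ?_ k3
          h2 h3
        rw [k2]
        ac_rfl
      have n2 : w a2 b ≠ 0 := by
        intro h0
        rw [h0, mul_zero] at k2
        exact (Valuation.ne_zero_iff _).2 h2 k2
      have n3 : w a1 b' ≠ 0 := by
        intro h0
        rw [h0, mul_zero] at k3
        exact (Valuation.ne_zero_iff _).2 h3 k3
      rcases hcase with hc | hc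
      · have g1 : w a1 b = w a2 b := hc _ _ _ _ ha1 (hI b hb).1 ha2 (hI b hb).1
          (hd1 (hI b hb).2.1) (hd1 (hI b hb).2.2) (by rw [(hI b hb).2.1, (hI b hb).2.2])
        have g2 : w a2 b' = w a1 b' := hc _ _ _ _ ha2 (hJ b' hb').1 ha1 (hJ b' hb').1
          (hd1 (hJ b' hb').2.2) (hd1 (hJ b' hb').2.1) (by rw [(hJ b' hb').2.1, (hJ b' hb').2.2])
        have g3 : w b b' = w a1 a2 := hc _ _ _ _ (hI b hb).1 (hJ b' hb').1 ha1 ha2 hbb ha hgg
        have g4 : w a2 b = w a1 b' := hc _ _ _ _ ha2 (hI b hb).1 ha1 (hJ b' hb').1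
          (hd1 (hI b hb).2.2) (hd1 (hJ b' hb').2.1) (by rw [(hI b hb).2.2, (hJ b' hb').2.1])
        constructor
        · refine ⟨1, ?_⟩
          rw [q1, g1, g2, div_self (mul_ne_zero n2 n3), one_pow]
        · refine ⟨w a1 a2 / w a1 b', ?_⟩
          rw [q2, g3, g4, div_pow, pow_two, pow_two]
      · obtain ⟨γ1, c1⟩ := hc a1 b ha1 (hI b hb).1 (hd1 (hI b hb).2.1)
        obtain ⟨γ2, c2⟩ := hc a2 b ha2 (hI b hb).1 (hd1 (hI b hb).2.2)
        obtain ⟨γ3, c3⟩ := hc a1 b' ha1 (hJ b' hb').1 (hd1 (hJ b' hb').2.1)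
        obtain ⟨γ4, c4⟩ := hc a2 b' ha2 (hJ b' hb').1 (hd1 (hJ b' hb').2.2)
        obtain ⟨γ5, c5⟩ := hc a1 a2 ha1 ha2 ha
        obtain ⟨γ6, c6⟩ := hc b b' (hI b hb).1 (hJ b' hb').1 hbb
        constructor
        · refine ⟨γ1 * γ4 / (γ2 * γ3), ?_⟩
          rw [q1, c1, c2, c3, c4, div_pow, mul_pow, mul_pow]
        · refine ⟨(γ5 * γ6 / (γ2 * γ3)) ^ m, ?_⟩
          rw [q2, c2, c3, c5, c6, ← pow_mul, ← hm', div_pow, mul_pow, mul_pow]
    refine ⟨fun h => hne1 (by rw [h, sub_self]), ⟨?_, fun v hv => (hval v hv).1⟩,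
      ⟨hne1, fun v hv => (hval v hv).2⟩⟩
    exact div_ne_zero (div_ne_zero h1 h2) (div_ne_zero h3 h4)

namespace CrAbsAux

theorem gcd_cop {q s d : ℕ} (hq : q.Prime) (hd : ¬ q ∣ d) : Nat.gcd d (q ^ s) = 1 :=
  Nat.Coprime.pow_right s ((Nat.Prime.coprime_iff_not_dvd hq).2 hd).symm

theorem gcd_one_level {q s e : ℕ} (hq : q.Prime) (he : ¬ q ∣ e) (hs : 1 ≤ s) :
    Nat.gcd (q * e) (q ^ s) = q := by
  obtain ⟨s', rfl⟩ : ∃ s', s = s' + 1 := ⟨s - 1, by omega⟩
  rw [pow_succ, mul_comm (q ^ s') q, Nat.gcd_mul_left, gcd_cop hq he, mul_one]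

theorem not_dvd_dist {q i j : ℕ} (hij : i % q ≠ j % q) : ¬ q ∣ Nat.dist i j := by
  intro hdvd
  apply hij
  rcases le_total i j with h1 | h1
  · rw [Nat.dist_eq_sub_of_le h1] at hdvd
    exact (Nat.modEq_iff_dvd' h1).2 hdvd
  · rw [Nat.dist_eq_sub_of_le_right h1] at hdvd
    exact ((Nat.modEq_iff_dvd' h1).2 hdvd).symm

theorem dist_level {q t t' : ℕ} (hq : 2 ≤ q) :
    ∃ e : ℕ, ¬ q ∣ e ∧ Nat.dist (q * (q * t) + 1) (q * (q * t') + 1 + q) = q * e := by
  rcases Nat.lt_or_ge t' t with h | h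
  · obtain ⟨d, rfl⟩ : ∃ d, t = t' + 1 + d := ⟨t - t' - 1, by omega⟩
    refine ⟨q * (d + 1) - 1, ?_, ?_⟩
    · intro hdvd
      have h1 : q ∣ (q * (d + 1) - 1) + 1 := by
        have h2 : 1 ≤ q * (d + 1) := Nat.mul_pos (by omega) (by omega)
        rw [Nat.sub_add_cancel h2]
        exact dvd_mul_right _ _
      have h3 := (Nat.dvd_add_right hdvd).1 h1
      have := Nat.le_of_dvd one_pos h3
      omega
    · have h1 : q * (q * (t' + 1 + d)) = q * (q * t') + q * (q * (d + 1)) := by ring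
      have h2 : q ≤ q * (q * (d + 1)) :=
        Nat.le_mul_of_pos_right _ (Nat.mul_pos (by omega) (by omega))
      rw [Nat.dist_eq_sub_of_le_right (by omega), Nat.mul_sub, mul_one]
      omega
  · obtain ⟨d, rfl⟩ : ∃ d, t' = t + d := ⟨t' - t, by omega⟩
    refine ⟨q * d + 1, ?_, ?_⟩
    · intro hdvd
      have h3 := (Nat.dvd_add_right (dvd_mul_right q d)).1 hdvd
      have := Nat.le_of_dvd one_pos h3
      omega
    · have h1 : q * (q * (t + d)) = q * (q * t) + q * (q * d) := by ring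
      have h2 : q * (q * d + 1) = q * (q * d) + q := by ring
      rw [Nat.dist_eq_sub_of_le (by omega), h2]
      omega

end CrAbsAux

open CrAbsAux

/-- The length of a cycle of prime power length is bounded, `n ≥ 6` even. -/
theorem cr_abs (K : Type u) [Field K] [NumberField K] {n : ℕ} (hn : 6 ≤ n) (hev : Even n)
    (S : Set (HeightOneSpectrum (𝓞 K))) (hS : S.Finite) :
    ∃ B : ℕ, ∀ (q s : ℕ), q.Prime → ∀ D : ℕ → ℕ → K,
      (∀ a b c d : ℕ, D a b * D c d - D c b * D a d = D a c * D b d) →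
      (∀ i j : ℕ, i < q ^ s → j < q ^ s → i ≠ j → D i j ≠ 0) →
      (∀ v : HeightOneSpectrum (𝓞 K), v ∉ S → LocD (v.valuation K) n (q ^ s) D) →
      q ^ s ≤ B := by
  classical
  obtain ⟨L, _, _, _, hgap⟩ := exists_gap_mixed K hn hev S hS
  obtain ⟨B, hB⟩ := bip_bound K L _ hgap
  refine ⟨9 * B + 5, fun q s hq D hpl hne hloc => ?_⟩
  have hq2 := hq.two_le
  rcases Nat.eq_zero_or_pos s with rfl | hs
  · rw [pow_zero]
    omega
  have hk1 : 1 < q ^ s := Nat.one_lt_pow hs.ne' hq.one_lt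
  rcases Nat.lt_or_ge q 5 with hq5 | hq5
  · -- small primes
    have hq3 : q ≤ 3 := by
      rcases Nat.lt_or_ge q 4 with h | h
      · omega
      · have h4 : q = 4 := by omega
        rw [h4] at hq
        exact absurd hq (by norm_num)
    rcases Nat.lt_or_ge s 2 with hs2 | hs2
    · have : s = 1 := by omega
      rw [this, pow_one]
      omega
    obtain ⟨s', rfl⟩ : ∃ s', s = s' + 2 := ⟨s - 2, by omega⟩
    have hk : q ^ (s' + 2) = q * (q * q ^ s') := by rw [pow_add]; ring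
    have hlt : ∀ t, t < q ^ s' → q * (q * t) + 1 + q < q ^ (s' + 2) := by
      intro t ht
      rw [hk]
      have h1 : q * (q * (t + 1)) ≤ q * (q * q ^ s') :=
        Nat.mul_le_mul_left _ (Nat.mul_le_mul_left _ ht)
      have h2 : q * (q * (t + 1)) = q * (q * t) + q * q := by ring
      have h3 : 1 + q < q * q := by nlinarith
      omega
    set f : ℕ → ℕ := fun t => q * (q * t) + 1 with hf
    set g : ℕ → ℕ := fun t => q * (q * t) + 1 + q with hg
    have hfmod : ∀ t, f t % q = 1 % q := fun t => by simp only [hf]; rw [Nat.mul_add_mod]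
    have hgmod : ∀ t, g t % q = 1 % q := fun t => by
      simp only [hg]; rw [Nat.add_mod_right, Nat.mul_add_mod]
    have h1q : (1 : ℕ) % q ≠ 0 := by rw [Nat.mod_eq_of_lt (by omega)]; norm_num
    have hcf : ((Finset.range (q ^ s')).image f).card = q ^ s' := by
      rw [Finset.card_image_of_injective _ (fun t t' h => by
        simp only [hf] at h
        have h1 : q * (q * t) = q * (q * t') := by omega
        exact Nat.eq_of_mul_eq_mul_left hq.pos (Nat.eq_of_mul_eq_mul_left hq.pos h1)),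
        Finset.card_range]
    have hcg : ((Finset.range (q ^ s')).image g).card = q ^ s' := by
      rw [Finset.card_image_of_injective _ (fun t t' h => by
        simp only [hg] at h
        have h1 : q * (q * t) = q * (q * t') := by omega
        exact Nat.eq_of_mul_eq_mul_left hq.pos (Nat.eq_of_mul_eq_mul_left hq.pos h1)),
        Finset.card_range]
    have hmain := core (S := S) hev hB hk1 hpl hne hloc (a1 := 0) (a2 := q) (by omega)
      (by rw [hk]; have : 0 < q ^ s' := pow_pos hq.pos _; nlinarith [Nat.mul_pos hq.pos this])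
      (by omega)
      ((Finset.range (q ^ s')).image f) ((Finset.range (q ^ s')).image g) ?_ ?_ ?_
    · rw [hcf, hcg, or_self] at hmain
      have h9 : q * q ≤ 9 := by nlinarith
      have h10 : q * (q * q ^ s') = q * q * q ^ s' := by ring
      rw [hk, h10]
      calc q * q * q ^ s' ≤ 9 * B := Nat.mul_le_mul h9 hmain
        _ ≤ 9 * B + 5 := by omega
    · intro b hb
      obtain ⟨t, ht, rfl⟩ := Finset.mem_image.1 hb
      rw [Finset.mem_range] at ht
      refine ⟨by have := hlt t ht; simp only [hf]; omega, ?_, ?_⟩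
      · exact gcd_cop hq (not_dvd_dist (by rw [Nat.zero_mod, hfmod]; exact h1q.symm))
      · exact gcd_cop hq (not_dvd_dist (by rw [Nat.mod_self, hfmod]; exact h1q.symm))
    · intro b hb
      obtain ⟨t, ht, rfl⟩ := Finset.mem_image.1 hb
      rw [Finset.mem_range] at ht
      refine ⟨hlt t ht, ?_, ?_⟩
      · exact gcd_cop hq (not_dvd_dist (by rw [Nat.zero_mod, hgmod]; exact h1q.symm))
      · exact gcd_cop hq (not_dvd_dist (by rw [Nat.mod_self, hgmod]; exact h1q.symm))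
    · intro b hb b' hb'
      obtain ⟨t, ht, rfl⟩ := Finset.mem_image.1 hb
      obtain ⟨t', ht', rfl⟩ := Finset.mem_image.1 hb'
      obtain ⟨e, he1, he2⟩ := dist_level (t := t) (t' := t') hq2
      constructor
      · intro h
        simp only [hf, hg] at h
        rw [h, Nat.dist_self] at he2
        have h3 : e = 0 := by
          rcases Nat.eq_zero_or_pos e with h4 | h4
          · exact h4
          · have := Nat.mul_pos hq.pos h4
            omega
        rw [h3] at he1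
        exact he1 (dvd_zero q)
      · simp only [hf, hg]
        rw [he2, gcd_one_level hq he1 (by omega), Nat.dist_eq_sub_of_le (Nat.zero_le q),
          Nat.sub_zero]
        have h4 := gcd_one_level (q := q) (s := s' + 2) (e := 1) hq
          (fun h => by have := Nat.le_of_dvd one_pos h; omega) (by omega)
        rw [mul_one] at h4
        exact h4.symm
  · -- large primes
    obtain ⟨h, hqh⟩ : ∃ h, q = 2 * h + 1 := hq.odd_of_ne_two (by omega)
    have hkq : q ^ s = q ^ (s - 1) * q := by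
      rw [← pow_succ]
      congr 1
      omega
    set f : ℕ × ℕ → ℕ := fun p => p.1 * q + p.2 with hf
    have hrange : ∀ p : ℕ × ℕ, p.1 < q ^ (s - 1) → p.2 < q → f p < q ^ s := by
      intro p h1 h2
      have h3 : (p.1 + 1) * q ≤ q ^ (s - 1) * q := Nat.mul_le_mul_right q h1
      have h4 : (p.1 + 1) * q = p.1 * q + q := by ring
      rw [hkq]
      change p.1 * q + p.2 < _
      omega
    have hmod : ∀ p : ℕ × ℕ, p.2 < q → f p % q = p.2 := by
      intro p h2
      change (p.1 * q + p.2) % q = p.2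
      rw [Nat.add_comm, Nat.add_mul_mod_self_right, Nat.mod_eq_of_lt h2]
    have hinj : ∀ p p' : ℕ × ℕ, p.2 < q → p'.2 < q → f p = f p' → p = p' := by
      intro p p' h2 h2' h5
      have h6 : p.2 = p'.2 := by rw [← hmod p h2, ← hmod p' h2', h5]
      have h7 : p.1 * q + p.2 = p'.1 * q + p'.2 := h5
      rw [h6] at h7
      have h8 : p.1 = p'.1 := Nat.eq_of_mul_eq_mul_right hq.pos (by omega)
      exact Prod.ext h8 h6
    set I : Finset (ℕ × ℕ) := Finset.range (q ^ (s - 1)) ×ˢ Finset.Icc 2 (h + 1) with hI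
    set J : Finset (ℕ × ℕ) := Finset.range (q ^ (s - 1)) ×ˢ Finset.Icc (h + 2) (2 * h) with hJ
    have hIm : ∀ p ∈ I, p.1 < q ^ (s - 1) ∧ 2 ≤ p.2 ∧ p.2 ≤ h + 1 := by
      intro p hp
      rw [hI, Finset.mem_product, Finset.mem_range, Finset.mem_Icc] at hp
      exact ⟨hp.1, hp.2.1, hp.2.2⟩
    have hJm : ∀ p ∈ J, p.1 < q ^ (s - 1) ∧ h + 2 ≤ p.2 ∧ p.2 ≤ 2 * h := by
      intro p hp
      rw [hJ, Finset.mem_product, Finset.mem_range, Finset.mem_Icc] at hp
      exact ⟨hp.1, hp.2.1, hp.2.2⟩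
    have hcI : (I.image f).card = q ^ (s - 1) * h := by
      rw [Finset.card_image_of_injOn, hI, Finset.card_product, Finset.card_range, Nat.card_Icc]
      · congr 1
      · intro p hp p' hp' hpp
        have h1 := hIm p (Finset.mem_coe.1 hp)
        have h2 := hIm p' (Finset.mem_coe.1 hp')
        exact hinj p p' (by omega) (by omega) hpp
    have hcJ : (J.image f).card = q ^ (s - 1) * (h - 1) := by
      rw [Finset.card_image_of_injOn, hJ, Finset.card_product, Finset.card_range, Nat.card_Icc]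
      · congr 1
        omega
      · intro p hp p' hp' hpp
        have h1 := hJm p (Finset.mem_coe.1 hp)
        have h2 := hJm p' (Finset.mem_coe.1 hp')
        exact hinj p p' (by omega) (by omega) hpp
    have hd01 : Nat.gcd (Nat.dist 0 1) (q ^ s) = 1 :=
      gcd_cop hq (fun h => by
        rw [Nat.dist_eq_sub_of_le (Nat.zero_le 1)] at h
        have := Nat.le_of_dvd one_pos h
        omega)
    have hok : ∀ p : ℕ × ℕ, p.1 < q ^ (s - 1) → 2 ≤ p.2 → p.2 < q → f p < q ^ s ∧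
        Nat.gcd (Nat.dist 0 (f p)) (q ^ s) = 1 ∧ Nat.gcd (Nat.dist 1 (f p)) (q ^ s) = 1 := by
      intro p h1 h2 h3
      refine ⟨hrange p h1 h3, gcd_cop hq (not_dvd_dist ?_), gcd_cop hq (not_dvd_dist ?_)⟩
      · rw [hmod p h3, Nat.zero_mod]
        omega
      · rw [hmod p h3, Nat.mod_eq_of_lt (by omega)]
        omega
    have hmain := core (S := S) hev hB hk1 hpl hne hloc (a1 := 0) (a2 := 1) (by omega) hk1
      (by norm_num) (I.image f) (J.image f) ?_ ?_ ?_
    · rw [hcI, hcJ] at hmain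
      have h1 : q ^ (s - 1) * (h - 1) ≤ B := by
        rcases hmain with h2 | h2
        · exact (Nat.mul_le_mul_left _ (Nat.sub_le h 1)).trans h2
        · exact h2
      have h2 : q ≤ 5 * (h - 1) := by omega
      rw [hkq]
      calc q ^ (s - 1) * q ≤ q ^ (s - 1) * (5 * (h - 1)) := Nat.mul_le_mul_left _ h2
        _ = 5 * (q ^ (s - 1) * (h - 1)) := by ring
        _ ≤ 5 * B := Nat.mul_le_mul_left _ h1
        _ ≤ 9 * B + 5 := by omega
    · intro b hb
      obtain ⟨p, hp, rfl⟩ := Finset.mem_image.1 hb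
      obtain ⟨h1, h2, h3⟩ := hIm p hp
      exact hok p h1 h2 (by omega)
    · intro b hb
      obtain ⟨p, hp, rfl⟩ := Finset.mem_image.1 hb
      obtain ⟨h1, h2, h3⟩ := hJm p hp
      exact hok p h1 (by omega) (by omega)
    · intro b hb b' hb'
      obtain ⟨p, hp, rfl⟩ := Finset.mem_image.1 hb
      obtain ⟨p', hp', rfl⟩ := Finset.mem_image.1 hb'
      obtain ⟨h1, h2, h3⟩ := hIm p hp
      obtain ⟨h1', h2', h3'⟩ := hJm p' hp'
      have hm := hmod p (by omega)
      have hm' := hmod p' (by omega)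
      have hmm : f p % q ≠ f p' % q := by rw [hm, hm']; omega
      refine ⟨fun h => hmm (by rw [h]), ?_⟩
      rw [hd01, gcd_cop hq (not_dvd_dist hmm)]

end UBR
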