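import Pool.Agent.UBR.CrAbs
import Pool.Agent.UBC.GapTwoFour

/-!
# Cycles on the projective line: the abstract argument with cross-ratios, odd primes, `n ≥ 4`
-/

set_option autoImplicit false

universe u

namespace UBR

open UBC UBV2 Height NumberField IsDedekindDomain WithZero CrAbsAux

/-- the set with the gap property -/
def TO {K : Type*} [Field K] [NumberField K] (n : ℕ) (S : Set (HeightOneSpectrum (𝓞 K))) : Set K :=
  {t : K | Sel n S t ∧ Sel n S (t - 1)}

/-- two index sets -/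
theorem core_two {K : Type u} [Field K] [NumberField K] {n : ℕ}
    {S : Set (HeightOneSpectrum (𝓞 K))} {B : ℕ}
    (hB : ∀ X Y : Finset K, (∀ x ∈ X, x ≠ 0) → (∀ y ∈ Y, y ≠ 0) →
      (∀ x ∈ X, ∀ y ∈ Y, x / y ∈ TO n S) → X.card ≤ B ∨ Y.card ≤ B)
    {k : ℕ} {D : ℕ → ℕ → K}
    (hpl : ∀ a b c d : ℕ, D a b * D c d - D c b * D a d = D a c * D b d)
    (hne : ∀ i j : ℕ, i < k → j < k → i ≠ j → D i j ≠ 0)
    (hloc : ∀ v : HeightOneSpectrum (𝓞 K), v ∉ S → LocD (v.valuation K) n k D)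
    {a1 a2 : ℕ} (ha1 : a1 < k) (ha2 : a2 < k) (ha : a1 ≠ a2) (I J : Finset ℕ) (g : ℕ)
    (hI : ∀ b ∈ I, b < k ∧ a1 ≠ b ∧ a2 ≠ b ∧
      Nat.gcd (Nat.dist a1 b) k = Nat.gcd (Nat.dist a1 a2) k ∧
      Nat.gcd (Nat.dist a2 b) k = Nat.gcd (Nat.dist a1 a2) k)
    (hJ : ∀ b ∈ J, b < k ∧ a1 ≠ b ∧ a2 ≠ b ∧ Nat.gcd (Nat.dist a1 b) k = g ∧
      Nat.gcd (Nat.dist a2 b) k = g)
    (hIJ : ∀ b ∈ I, ∀ b' ∈ J, b ≠ b' ∧ Nat.gcd (Nat.dist b b') k = g) :
    I.card ≤ B ∨ J.card ≤ B := by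
  classical
  set μ : ℕ → K := fun b => D a1 b / D a2 b with hμ
  have hN : ∀ b, (b < k ∧ a1 ≠ b ∧ a2 ≠ b) → D a1 b ≠ 0 ∧ D a2 b ≠ 0 := fun b hb =>
    ⟨hne _ _ ha1 hb.1 hb.2.1, hne _ _ ha2 hb.1 hb.2.2⟩
  have hinj : ∀ b b', (b < k ∧ a1 ≠ b ∧ a2 ≠ b) → (b' < k ∧ a1 ≠ b' ∧ a2 ≠ b') →
      μ b = μ b' → b = b' := by
    intro b b' hb hb' h
    by_contra hcon
    obtain ⟨h1, h2⟩ := hN b hb
    obtain ⟨h3, h4⟩ := hN b' hb'
    simp only [hμ] at h
    rw [div_eq_div_iff h2 h4] at h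
    have h5 := hpl a1 b a2 b'
    have h6 : D a1 b * D a2 b' - D a2 b * D a1 b' = 0 := by rw [h]; ring
    rw [h6] at h5
    exact mul_ne_zero (hne _ _ ha1 ha2 ha) (hne _ _ hb.1 hb'.1 hcon) h5.symm
  have hI' : ∀ b ∈ I, b < k ∧ a1 ≠ b ∧ a2 ≠ b := fun b hb => ⟨(hI b hb).1, (hI b hb).2.1, (hI b hb).2.2.1⟩
  have hJ' : ∀ b ∈ J, b < k ∧ a1 ≠ b ∧ a2 ≠ b := fun b hb => ⟨(hJ b hb).1, (hJ b hb).2.1, (hJ b hb).2.2.1⟩
  have hcardI : (I.image μ).card = I.card := Finset.card_image_of_injOn fun b hb b' hb' h =>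
    hinj b b' (hI' b hb) (hI' b' hb') h
  have hcardJ : (J.image μ).card = J.card := Finset.card_image_of_injOn fun b hb b' hb' h =>
    hinj b b' (hJ' b hb) (hJ' b' hb') h
  rw [← hcardI, ← hcardJ]
  refine hB _ _ ?_ ?_ ?_
  · intro z hz
    obtain ⟨b, hb, rfl⟩ := Finset.mem_image.1 hz
    obtain ⟨h1, h2⟩ := hN b (hI' b hb)
    exact div_ne_zero h1 h2
  · intro z hz
    obtain ⟨b, hb, rfl⟩ := Finset.mem_image.1 hz
    obtain ⟨h1, h2⟩ := hN b (hJ' b hb)
    exact div_ne_zero h1 h2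
  · intro z hz z' hz'
    obtain ⟨b, hb, rfl⟩ := Finset.mem_image.1 hz
    obtain ⟨b', hb', rfl⟩ := Finset.mem_image.1 hz'
    obtain ⟨h1, h2⟩ := hN b (hI' b hb)
    obtain ⟨h3, h4⟩ := hN b' (hJ' b' hb')
    obtain ⟨hbb, hgg⟩ := hIJ b hb b' hb'
    obtain ⟨hbk, hb1, hb2, hb3, hb4⟩ := hI b hb
    obtain ⟨hbk', hb1', hb2', hb3', hb4'⟩ := hJ b' hb'
    have h12 := hne _ _ ha1 ha2 ha
    have hb0 := hne _ _ hbk hbk' hbb
    have e1 : μ b / μ b' = D a1 b * D a2 b' / (D a2 b * D a1 b') := by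
      simp only [hμ]
      field_simp
    have e2 : μ b / μ b' - 1 = D a1 a2 * D b b' / (D a2 b * D a1 b') := by
      rw [e1, ← hpl a1 b a2 b']
      field_simp
    have hne1 : μ b / μ b' - 1 ≠ 0 := by
      rw [e2]
      exact div_ne_zero (mul_ne_zero h12 hb0) (mul_ne_zero h2 h3)
    -- valuations
    have hval : ∀ v : HeightOneSpectrum (𝓞 K), v ∉ S →
        (∃ γ : ℤᵐ⁰, v.valuation K (μ b / μ b') = γ ^ n) ∧
        (∃ γ : ℤᵐ⁰, v.valuation K (μ b / μ b' - 1) = γ ^ n) := by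
      intro v hv
      obtain ⟨κ, u, w, huw, hcase⟩ := hloc v hv
      have k1 := huw a1 b ha1 hbk hb1
      have k2 := huw a2 b ha2 hbk hb2
      have k3 := huw a1 b' ha1 hbk' hb1'
      have k4 := huw a2 b' ha2 hbk' hb2'
      have k5 := huw a1 a2 ha1 ha2 ha
      have k6 := huw b b' hbk hbk' hbb
      have q1 : v.valuation K (μ b / μ b') = w a1 b * w a2 b' / (w a2 b * w a1 b') := by
        rw [e1]
        exact quot (v.valuation K) k1 k4 k2 k3 h2 h3
      have q2 : v.valuation K (μ b / μ b' - 1) = w a1 a2 * w b b' / (w a2 b * w a1 b') := by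
        rw [e2]
        refine quot (v.valuation K) (u1 := u a1) (u2 := u a2) (u3 := u b) (u4 := u b') k5 k6 ?_ k3
          h2 h3
        rw [k2]
        ac_rfl
      have n2 : w a2 b ≠ 0 := by
        intro h0
        rw [h0, mul_zero] at k2
        exact (Valuation.ne_zero_iff _).2 h2 k2
      have n3 : w a1 b' ≠ 0 := by
        intro h0
        rw [h0, mul_zero] at k3
        exact (Valuation.ne_zero_iff _).2 h3 k3
      rcases hcase with hc | hc
      · have g1 : w a1 b = w a1 a2 := hc _ _ _ _ ha1 hbk ha1 ha2 hb1 ha hb3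
        have g2 : w a2 b = w a1 a2 := hc _ _ _ _ ha2 hbk ha1 ha2 hb2 ha hb4
        have g3 : w a2 b' = w a1 b' := hc _ _ _ _ ha2 hbk' ha1 hbk' hb2' hb1' (by rw [hb4', hb3'])
        have g4 : w b b' = w a1 b' := hc _ _ _ _ hbk hbk' ha1 hbk' hbb hb1' (by rw [hgg, hb3'])
        constructor
        · refine ⟨1, ?_⟩
          rw [q1, g1, ← g2, g3, div_self (mul_ne_zero n2 n3), one_pow]
        · refine ⟨1, ?_⟩
          rw [q2, g4, ← g2, div_self (mul_ne_zero n2 n3), one_pow]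
      · obtain ⟨γ1, c1⟩ := hc a1 b ha1 hbk hb1
        obtain ⟨γ2, c2⟩ := hc a2 b ha2 hbk hb2
        obtain ⟨γ3, c3⟩ := hc a1 b' ha1 hbk' hb1'
        obtain ⟨γ4, c4⟩ := hc a2 b' ha2 hbk' hb2'
        obtain ⟨γ5, c5⟩ := hc a1 a2 ha1 ha2 ha
        obtain ⟨γ6, c6⟩ := hc b b' hbk hbk' hbb
        constructor
        · refine ⟨γ1 * γ4 / (γ2 * γ3), ?_⟩
          rw [q1, c1, c2, c3, c4, div_pow, mul_pow, mul_pow]
        · refine ⟨γ5 * γ6 / (γ2 * γ3), ?_⟩
          rw [q2, c2, c3, c5, c6, div_pow, mul_pow, mul_pow]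
    refine ⟨⟨?_, fun v hv => (hval v hv).1⟩, ⟨hne1, fun v hv => (hval v hv).2⟩⟩
    exact div_ne_zero (div_ne_zero h1 h2) (div_ne_zero h3 h4)

/-- The length of a cycle of odd prime power length is bounded, `n ≥ 4`. -/
theorem cr_abs_odd (K : Type u) [Field K] [NumberField K] {n : ℕ} (hn : 4 ≤ n)
    (S : Set (HeightOneSpectrum (𝓞 K))) (hS : S.Finite) :
    ∃ B : ℕ, ∀ (q s : ℕ), q.Prime → q ≠ 2 → ∀ D : ℕ → ℕ → K,
      (∀ a b c d : ℕ, D a b * D c d - D c b * D a d = D a c * D b d) →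
      (∀ i j : ℕ, i < q ^ s → j < q ^ s → i ≠ j → D i j ≠ 0) →
      (∀ v : HeightOneSpectrum (𝓞 K), v ∉ S → LocD (v.valuation K) n (q ^ s) D) →
      q ^ s ≤ B := by
  classical
  obtain ⟨L, _, _, _, hgap⟩ := exists_gap_two' K hn S hS
  obtain ⟨B, hB⟩ := bip_bound K L _ hgap
  refine ⟨9 * B + 5, fun q s hq hq2' D hpl hne hloc => ?_⟩
  have hq2 := hq.two_le
  have hq3' : 3 ≤ q := by omega
  rcases Nat.eq_zero_or_pos s with rfl | hs
  · rw [pow_zero]
    omega
  have hk1 : 1 < q ^ s := Nat.one_lt_pow hs.ne' hq.one_lt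
  rcases Nat.lt_or_ge q 5 with hq5 | hq5
  · -- the prime three
    have hq3 : q = 3 := by
      rcases Nat.lt_or_ge q 4 with h | h
      · omega
      · have h4 : q = 4 := by omega
        rw [h4] at hq
        exact absurd hq (by norm_num)
    subst hq3
    rcases Nat.lt_or_ge s 2 with hs2 | hs2
    · have : s = 1 := by omega
      rw [this, pow_one]
      omega
    obtain ⟨s', rfl⟩ : ∃ s', s = s' + 2 := ⟨s - 2, by omega⟩
    have hk : 3 ^ (s' + 2) = 9 * 3 ^ s' := by rw [pow_add]; ring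
    set f : ℕ → ℕ := fun t => 9 * t + 6 with hf
    set g : ℕ → ℕ := fun t => 9 * t + 1 with hg
    have hcf : ((Finset.range (3 ^ s')).image f).card = 3 ^ s' := by
      rw [Finset.card_image_of_injective _ (fun t t' h => by
        simp only [hf] at h
        omega), Finset.card_range]
    have hcg : ((Finset.range (3 ^ s')).image g).card = 3 ^ s' := by
      rw [Finset.card_image_of_injective _ (fun t t' h => by
        simp only [hg] at h
        omega), Finset.card_range]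
    have hgcd3 : ∀ m : ℕ, ¬ 3 ∣ m → Nat.gcd (3 * m) (3 ^ (s' + 2)) = 3 := fun m hm =>
      gcd_one_level hq hm (by omega)
    have h03 : Nat.gcd (Nat.dist 0 3) (3 ^ (s' + 2)) = 3 := hgcd3 1 (by omega)
    have hmain := core_two (S := S) hB hpl hne hloc (a1 := 0) (a2 := 3) (by omega)
      (by have : 0 < 3 ^ s' := pow_pos (by norm_num) _
          omega) (by omega)
      ((Finset.range (3 ^ s')).image f) ((Finset.range (3 ^ s')).image g) 1 ?_ ?_ ?_
    · rw [hcf, hcg, or_self] at hmain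
      omega
    · intro b hb
      obtain ⟨t, ht, rfl⟩ := Finset.mem_image.1 hb
      rw [Finset.mem_range] at ht
      simp only [hf]
      refine ⟨by omega, by omega, by omega, ?_, ?_⟩
      · rw [h03, Nat.dist_eq_sub_of_le (Nat.zero_le _)]
        have e : 9 * t + 6 - 0 = 3 * (3 * t + 2) := by omega
        rw [e]
        exact hgcd3 _ (by omega)
      · rw [h03, Nat.dist_eq_sub_of_le (by omega)]
        have e : 9 * t + 6 - 3 = 3 * (3 * t + 1) := by omega
        rw [e]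
        exact hgcd3 _ (by omega)
    · intro b hb
      obtain ⟨t, ht, rfl⟩ := Finset.mem_image.1 hb
      rw [Finset.mem_range] at ht
      simp only [hg]
      refine ⟨by omega, by omega, by omega, ?_, ?_⟩
      · exact gcd_cop hq (not_dvd_dist (by omega))
      · exact gcd_cop hq (not_dvd_dist (by omega))
    · intro b hb b' hb'
      obtain ⟨t, ht, rfl⟩ := Finset.mem_image.1 hb
      obtain ⟨t', ht', rfl⟩ := Finset.mem_image.1 hb'
      simp only [hf, hg]
      exact ⟨by omega, gcd_cop hq (not_dvd_dist (by omega))⟩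
  · -- large primes
    obtain ⟨h, hqh⟩ : ∃ h, q = 2 * h + 1 := hq.odd_of_ne_two (by omega)
    have hkq : q ^ s = q ^ (s - 1) * q := by
      rw [← pow_succ]
      congr 1
      omega
    set f : ℕ × ℕ → ℕ := fun p => p.1 * q + p.2 with hf
    have hrange : ∀ p : ℕ × ℕ, p.1 < q ^ (s - 1) → p.2 < q → f p < q ^ s := by
      intro p h1 h2
      have h3 : (p.1 + 1) * q ≤ q ^ (s - 1) * q := Nat.mul_le_mul_right q h1
      have h4 : (p.1 + 1) * q = p.1 * q + q := by ring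
      rw [hkq]
      change p.1 * q + p.2 < _
      omega
    have hmod : ∀ p : ℕ × ℕ, p.2 < q → f p % q = p.2 := by
      intro p h2
      change (p.1 * q + p.2) % q = p.2
      rw [Nat.add_comm, Nat.add_mul_mod_self_right, Nat.mod_eq_of_lt h2]
    have hinj : ∀ p p' : ℕ × ℕ, p.2 < q → p'.2 < q → f p = f p' → p = p' := by
      intro p p' h2 h2' h5
      have h6 : p.2 = p'.2 := by rw [← hmod p h2, ← hmod p' h2', h5]
      have h7 : p.1 * q + p.2 = p'.1 * q + p'.2 := h5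
      rw [h6] at h7
      have h8 : p.1 = p'.1 := Nat.eq_of_mul_eq_mul_right hq.pos (by omega)
      exact Prod.ext h8 h6
    set I : Finset (ℕ × ℕ) := Finset.range (q ^ (s - 1)) ×ˢ Finset.Icc 2 (h + 1) with hI
    set J : Finset (ℕ × ℕ) := Finset.range (q ^ (s - 1)) ×ˢ Finset.Icc (h + 2) (2 * h) with hJ
    have hIm : ∀ p ∈ I, p.1 < q ^ (s - 1) ∧ 2 ≤ p.2 ∧ p.2 ≤ h + 1 := by
      intro p hp
      rw [hI, Finset.mem_product, Finset.mem_range, Finset.mem_Icc] at hp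
      exact ⟨hp.1, hp.2.1, hp.2.2⟩
    have hJm : ∀ p ∈ J, p.1 < q ^ (s - 1) ∧ h + 2 ≤ p.2 ∧ p.2 ≤ 2 * h := by
      intro p hp
      rw [hJ, Finset.mem_product, Finset.mem_range, Finset.mem_Icc] at hp
      exact ⟨hp.1, hp.2.1, hp.2.2⟩
    have hcI : (I.image f).card = q ^ (s - 1) * h := by
      rw [Finset.card_image_of_injOn, hI, Finset.card_product, Finset.card_range, Nat.card_Icc]
      · congr 1
      · intro p hp p' hp' hpp
        have h1 := hIm p (Finset.mem_coe.1 hp)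
        have h2 := hIm p' (Finset.mem_coe.1 hp')
        exact hinj p p' (by omega) (by omega) hpp
    have hcJ : (J.image f).card = q ^ (s - 1) * (h - 1) := by
      rw [Finset.card_image_of_injOn, hJ, Finset.card_product, Finset.card_range, Nat.card_Icc]
      · congr 1
        omega
      · intro p hp p' hp' hpp
        have h1 := hJm p (Finset.mem_coe.1 hp)
        have h2 := hJm p' (Finset.mem_coe.1 hp')
        exact hinj p p' (by omega) (by omega) hpp
    have hd01 : Nat.gcd (Nat.dist 0 1) (q ^ s) = 1 :=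
      gcd_cop hq (fun h => by
        rw [Nat.dist_eq_sub_of_le (Nat.zero_le 1)] at h
        have := Nat.le_of_dvd one_pos h
        omega)
    have hok : ∀ p : ℕ × ℕ, p.1 < q ^ (s - 1) → 2 ≤ p.2 → p.2 < q → f p < q ^ s ∧ 0 ≠ f p ∧
        1 ≠ f p ∧
        Nat.gcd (Nat.dist 0 (f p)) (q ^ s) = 1 ∧ Nat.gcd (Nat.dist 1 (f p)) (q ^ s) = 1 := by
      intro p h1 h2 h3
      have h4 : p.2 ≤ f p := Nat.le_add_left _ _
      refine ⟨hrange p h1 h3, by omega, by omega, gcd_cop hq (not_dvd_dist ?_),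
        gcd_cop hq (not_dvd_dist ?_)⟩
      · rw [hmod p h3, Nat.zero_mod]
        omega
      · rw [hmod p h3, Nat.mod_eq_of_lt (by omega)]
        omega
    have hmain := core_two (S := S) hB hpl hne hloc (a1 := 0) (a2 := 1) (by omega) hk1
      (by norm_num) (I.image f) (J.image f) 1 ?_ ?_ ?_
    · rw [hcI, hcJ] at hmain
      have h1 : q ^ (s - 1) * (h - 1) ≤ B := by
        rcases hmain with h2 | h2
        · exact (Nat.mul_le_mul_left _ (Nat.sub_le h 1)).trans h2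
        · exact h2
      have h2 : q ≤ 5 * (h - 1) := by omega
      rw [hkq]
      calc q ^ (s - 1) * q ≤ q ^ (s - 1) * (5 * (h - 1)) := Nat.mul_le_mul_left _ h2
        _ = 5 * (q ^ (s - 1) * (h - 1)) := by ring
        _ ≤ 5 * B := Nat.mul_le_mul_left _ h1
        _ ≤ 9 * B + 5 := by omega
    · intro b hb
      obtain ⟨p, hp, rfl⟩ := Finset.mem_image.1 hb
      obtain ⟨h1, h2, h3⟩ := hIm p hp
      rw [hd01]
      exact hok p h1 h2 (by omega)
    · intro b hb
      obtain ⟨p, hp, rfl⟩ := Finset.mem_image.1 hb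
      obtain ⟨h1, h2, h3⟩ := hJm p hp
      exact hok p h1 (by omega) (by omega)
    · intro b hb b' hb'
      obtain ⟨p, hp, rfl⟩ := Finset.mem_image.1 hb
      obtain ⟨p', hp', rfl⟩ := Finset.mem_image.1 hb'
      obtain ⟨h1, h2, h3⟩ := hIm p hp
      obtain ⟨h4, h5, h6⟩ := hJm p' hp'
      have h7 : f p % q ≠ f p' % q := by
        rw [hmod p (by omega), hmod p' (by omega)]
        omega
      refine ⟨fun h => h7 (by rw [h]), gcd_cop hq (not_dvd_dist h7)⟩

end UBR
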