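import Pool.Agent.UBR.Level

/-!
# Chordal distances at places of good reduction
-/

set_option autoImplicit false

namespace UBR

open Polynomial WithZero

variable {K : Type*} [Field K]

/-- value at `(x, y)` of the form of degree `d` given by the polynomial `F` -/
noncomputable def hom (d : ℕ) (F : K[X]) (x y : K) : K :=
  ∑ i ∈ Finset.range (d + 1), F.coeff i * (x ^ i * y ^ (d - i))

/-- the map given by two forms of degree `d` -/
noncomputable def mapR (d : ℕ) (F G : K[X]) (P : K × K) : K × K :=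
  (hom d F P.1 P.2, hom d G P.1 P.2)

/-- the determinant -/
def wedge (P Q : K × K) : K := P.1 * Q.2 - P.2 * Q.1

/-- the norm -/
def nrm (v : Valuation K ℤᵐ⁰) (P : K × K) : ℤᵐ⁰ := max (v P.1) (v P.2)

/-- the chordal distance -/
def chord (v : Valuation K ℤᵐ⁰) (P Q : K × K) : ℤᵐ⁰ := v (wedge P Q) / (nrm v P * nrm v Q)

lemma wedge_self (P : K × K) : wedge P P = 0 := by
  unfold wedge
  ring

lemma wedge_swap (P Q : K × K) : wedge P Q = -wedge Q P := by
  unfold wedge
  ring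

lemma wedge_smul (a b : K) (P Q : K × K) : wedge (a • P) (b • Q) = a * b * wedge P Q := by
  unfold wedge
  simp only [Prod.smul_fst, Prod.smul_snd, smul_eq_mul]
  ring

lemma nrm_smul (v : Valuation K ℤᵐ⁰) (a : K) (P : K × K) : nrm v (a • P) = v a * nrm v P := by
  unfold nrm
  simp only [Prod.smul_fst, Prod.smul_snd, smul_eq_mul, map_mul]
  rcases le_total (v P.1) (v P.2) with h | h
  · rw [max_eq_right h, max_eq_right (mul_le_mul_right h _)]
  · rw [max_eq_left h, max_eq_left (mul_le_mul_right h _)]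

lemma nrm_ne (v : Valuation K ℤᵐ⁰) {P : K × K} (hP : P ≠ 0) : nrm v P ≠ 0 := by
  intro h
  apply hP
  unfold nrm at h
  have h1 : v P.1 ≤ 0 := h ▸ le_max_left _ _
  have h2 : v P.2 ≤ 0 := h ▸ le_max_right _ _
  have h3 : P.1 = 0 := by
    by_contra hne
    exact absurd (le_antisymm h1 zero_le) ((Valuation.ne_zero_iff v).2 hne)
  have h4 : P.2 = 0 := by
    by_contra hne
    exact absurd (le_antisymm h2 zero_le) ((Valuation.ne_zero_iff v).2 hne)
  exact Prod.ext h3 h4

lemma fst_le (v : Valuation K ℤᵐ⁰) (P : K × K) : v P.1 ≤ nrm v P := le_max_left _ _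

lemma snd_le (v : Valuation K ℤᵐ⁰) (P : K × K) : v P.2 ≤ nrm v P := le_max_right _ _

/-- the norm of a vector is the value of a coordinate -/
lemma exists_nrm (v : Valuation K ℤᵐ⁰) (P : K × K) : ∃ a : K, nrm v P = v a := by
  unfold nrm
  rcases le_total (v P.1) (v P.2) with h | h
  · exact ⟨P.2, max_eq_right h⟩
  · exact ⟨P.1, max_eq_left h⟩

lemma chord_smul (v : Valuation K ℤᵐ⁰) {a b : K} (ha : a ≠ 0) (hb : b ≠ 0) (P Q : K × K) :
    chord v (a • P) (b • Q) = chord v P Q := by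
  unfold chord
  rw [wedge_smul, nrm_smul, nrm_smul, map_mul, map_mul]
  have h1 : v a * v b ≠ 0 := mul_ne_zero ((Valuation.ne_zero_iff v).2 ha)
    ((Valuation.ne_zero_iff v).2 hb)
  rw [show v a * nrm v P * (v b * nrm v Q) = (v a * v b) * (nrm v P * nrm v Q) by
    ac_rfl, mul_div_mul_left _ _ h1]

lemma chord_symm (v : Valuation K ℤᵐ⁰) (P Q : K × K) : chord v P Q = chord v Q P := by
  unfold chord
  rw [wedge_swap, Valuation.map_neg, mul_comm]

lemma chord_self (v : Valuation K ℤᵐ⁰) (P : K × K) : chord v P P = 0 := by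
  unfold chord
  rw [wedge_self, map_zero, zero_div]

lemma wedge_le (v : Valuation K ℤᵐ⁰) (P Q : K × K) : v (wedge P Q) ≤ nrm v P * nrm v Q := by
  unfold wedge
  refine (Valuation.map_sub v _ _).trans (max_le ?_ ?_)
  · rw [map_mul]
    exact mul_le_mul' (fst_le v P) (snd_le v Q)
  · rw [map_mul]
    exact mul_le_mul' (snd_le v P) (fst_le v Q)

lemma chord_le_one (v : Valuation K ℤᵐ⁰) {P Q : K × K} (hP : P ≠ 0) (hQ : Q ≠ 0) :
    chord v P Q ≤ 1 := by
  unfold chord
  rw [div_le_one₀ (zero_lt_iff.2 (mul_ne_zero (nrm_ne v hP) (nrm_ne v hQ)))]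
  exact wedge_le v P Q

lemma chord_ultra (v : Valuation K ℤᵐ⁰) {P Q R : K × K} (hP : P ≠ 0) (hQ : Q ≠ 0) (hR : R ≠ 0) :
    chord v P R ≤ max (chord v P Q) (chord v Q R) := by
  have hp := zero_lt_iff.2 (nrm_ne v hP)
  have hq := zero_lt_iff.2 (nrm_ne v hQ)
  have hr := zero_lt_iff.2 (nrm_ne v hR)
  -- the identity
  have key : nrm v Q * v (wedge P R) ≤
      max (v (wedge Q R) * nrm v P) (v (wedge P Q) * nrm v R) := by
    have h1 : v Q.1 * v (wedge P R) ≤
        max (v (wedge Q R) * nrm v P) (v (wedge P Q) * nrm v R) := by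
      rw [← map_mul]
      have e : Q.1 * wedge P R = wedge Q R * P.1 + wedge P Q * R.1 := by
        unfold wedge
        ring
      rw [e]
      refine (Valuation.map_add v _ _).trans (max_le_max ?_ ?_)
      · rw [map_mul]
        exact mul_le_mul_right (fst_le v P) _
      · rw [map_mul]
        exact mul_le_mul_right (fst_le v R) _
    have h2 : v Q.2 * v (wedge P R) ≤
        max (v (wedge Q R) * nrm v P) (v (wedge P Q) * nrm v R) := by
      rw [← map_mul]
      have e : Q.2 * wedge P R = wedge Q R * P.2 + wedge P Q * R.2 := by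
        unfold wedge
        ring
      rw [e]
      refine (Valuation.map_add v _ _).trans (max_le_max ?_ ?_)
      · rw [map_mul]
        exact mul_le_mul_right (snd_le v P) _
      · rw [map_mul]
        exact mul_le_mul_right (snd_le v R) _
    rcases le_total (v Q.1) (v Q.2) with h | h
    · have : nrm v Q = v Q.2 := max_eq_right h
      rw [this]
      exact h2
    · have : nrm v Q = v Q.1 := max_eq_left h
      rw [this]
      exact h1
  unfold chord
  rcases le_max_iff.1 key with h | h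
  · refine le_max_of_le_right ?_
    rw [div_le_div_iff₀ (mul_pos hp hr) (mul_pos hq hr)]
    calc v (wedge P R) * (nrm v Q * nrm v R) = (nrm v Q * v (wedge P R)) * nrm v R := by
          ac_rfl
      _ ≤ (v (wedge Q R) * nrm v P) * nrm v R := mul_le_mul_left h _
      _ = v (wedge Q R) * (nrm v P * nrm v R) := mul_assoc _ _ _
  · refine le_max_of_le_left ?_
    rw [div_le_div_iff₀ (mul_pos hp hr) (mul_pos hp hq)]
    calc v (wedge P R) * (nrm v P * nrm v Q) = (nrm v Q * v (wedge P R)) * nrm v P := by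
          ac_rfl
      _ ≤ (v (wedge P Q) * nrm v R) * nrm v P := mul_le_mul_left h _
      _ = v (wedge P Q) * (nrm v P * nrm v R) := by
          ac_rfl

/-- homogeneity -/
lemma hom_smul (d : ℕ) (F : K[X]) (a x y : K) : hom d F (a * x) (a * y) = a ^ d * hom d F x y := by
  unfold hom
  rw [Finset.mul_sum]
  refine Finset.sum_congr rfl fun i hi => ?_
  rw [Finset.mem_range] at hi
  have e : a ^ d = a ^ i * a ^ (d - i) := by rw [← pow_add]; congr 1; omega
  rw [e, mul_pow, mul_pow]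
  ring

lemma mapR_smul (d : ℕ) (F G : K[X]) (a : K) (P : K × K) :
    mapR d F G (a • P) = a ^ d • mapR d F G P := by
  unfold mapR
  simp only [Prod.smul_fst, Prod.smul_snd, smul_eq_mul, hom_smul, Prod.smul_mk]

/-- the two forms have no common zero modulo `v`, and their coefficients are integral -/
structure GoodAt (v : Valuation K ℤᵐ⁰) (d : ℕ) (F G : K[X]) : Prop where
  hF : ∀ i, v (F.coeff i) ≤ 1
  hG : ∀ i, v (G.coeff i) ≤ 1
  hne : ∀ P : K × K, nrm v P = 1 → nrm v (mapR d F G P) = 1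

lemma GoodAt.nrm_map {v : Valuation K ℤᵐ⁰} {d : ℕ} {F G : K[X]} (h : GoodAt v d F G)
    {P : K × K} (hP : P ≠ 0) : nrm v (mapR d F G P) = nrm v P ^ d := by
  obtain ⟨a, ha⟩ := exists_nrm v P
  have hn := nrm_ne v hP
  have ha0 : a ≠ 0 := by
    rintro rfl
    rw [ha, map_zero] at hn
    exact hn rfl
  have h1 : nrm v (a⁻¹ • P) = 1 := by
    rw [nrm_smul, ha, map_inv₀, inv_mul_cancel₀ ((Valuation.ne_zero_iff v).2 ha0)]
  have h2 := h.hne _ h1
  rw [mapR_smul, nrm_smul] at h2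
  rw [ha]
  have h3 : v (a⁻¹ ^ d) * v a ^ d = 1 := by
    rw [map_pow, map_inv₀, ← mul_pow, inv_mul_cancel₀ ((Valuation.ne_zero_iff v).2 ha0), one_pow]
  have h4 : v (a⁻¹ ^ d) ≠ 0 := by
    intro h0
    rw [h0, zero_mul] at h3
    exact zero_ne_one h3
  exact mul_left_cancel₀ h4 (h2.trans h3.symm)

lemma GoodAt.map_ne {v : Valuation K ℤᵐ⁰} {d : ℕ} {F G : K[X]} (h : GoodAt v d F G)
    {P : K × K} (hP : P ≠ 0) : mapR d F G P ≠ 0 := by
  intro h0
  have h1 := h.nrm_map hP
  rw [h0] at h1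
  have h2 : nrm v (0 : K × K) = 0 := by
    unfold nrm
    simp
  rw [h2] at h1
  exact pow_ne_zero d (nrm_ne v hP) h1.symm

/-- difference of mixed monomials -/
lemma mixed_le (v : Valuation K ℤᵐ⁰) (P Q : K × K) {d i j : ℕ} (hi : i ≤ d) (hj : j ≤ d) :
    v ((P.1 ^ i * P.2 ^ (d - i)) * (Q.1 ^ j * Q.2 ^ (d - j)) -
      (Q.1 ^ i * Q.2 ^ (d - i)) * (P.1 ^ j * P.2 ^ (d - j))) ≤
      v (wedge P Q) * (nrm v P * nrm v Q) ^ (d - 1) := by
  -- the case `j ≤ i`
  have main : ∀ i j : ℕ, i ≤ d → j ≤ i → ∀ P Q : K × K,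
      v ((P.1 ^ i * P.2 ^ (d - i)) * (Q.1 ^ j * Q.2 ^ (d - j)) -
      (Q.1 ^ i * Q.2 ^ (d - i)) * (P.1 ^ j * P.2 ^ (d - j))) ≤
      v (wedge P Q) * (nrm v P * nrm v Q) ^ (d - 1) := by
    intro i j hi hj P Q
    obtain ⟨e, rfl⟩ : ∃ e, i = j + e := ⟨i - j, by omega⟩
    obtain ⟨f, rfl⟩ : ∃ f, d = j + e + f := ⟨d - (j + e), by omega⟩
    have e1 : j + e + f - (j + e) = f := by omega
    have e2 : j + e + f - j = e + f := by omega
    rw [e1, e2]
    have hid : (P.1 ^ (j + e) * P.2 ^ f) * (Q.1 ^ j * Q.2 ^ (e + f)) -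
        (Q.1 ^ (j + e) * Q.2 ^ f) * (P.1 ^ j * P.2 ^ (e + f)) =
        (P.1 * Q.1) ^ j * (P.2 * Q.2) ^ f * ((P.1 * Q.2) ^ e - (P.2 * Q.1) ^ e) := by
      rw [pow_add, pow_add, pow_add, pow_add, mul_pow, mul_pow, mul_pow, mul_pow]
      ring
    rcases Nat.eq_zero_or_pos e with rfl | he
    · rw [hid, pow_zero, pow_zero, sub_self, mul_zero, map_zero]
      exact zero_le
    have hgeo : (P.1 * Q.2) ^ e - (P.2 * Q.1) ^ e =
        (∑ l ∈ Finset.range e, (P.1 * Q.2) ^ l * (P.2 * Q.1) ^ (e - 1 - l)) * wedge P Q := by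
      unfold wedge
      exact (Commute.all _ _).geom_sum₂_mul e |>.symm
    have hN : ∀ {a b : K}, v a ≤ nrm v P → v b ≤ nrm v Q → v (a * b) ≤ nrm v P * nrm v Q := by
      intro a b ha hb
      rw [map_mul]
      exact mul_le_mul' ha hb
    have hsum : v (∑ l ∈ Finset.range e, (P.1 * Q.2) ^ l * (P.2 * Q.1) ^ (e - 1 - l)) ≤
        (nrm v P * nrm v Q) ^ (e - 1) := by
      refine Valuation.map_sum_le v fun l hl => ?_
      rw [Finset.mem_range] at hl
      rw [map_mul, map_pow, map_pow]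
      calc v (P.1 * Q.2) ^ l * v (P.2 * Q.1) ^ (e - 1 - l)
          ≤ (nrm v P * nrm v Q) ^ l * (nrm v P * nrm v Q) ^ (e - 1 - l) :=
            mul_le_mul' (pow_le_pow_left' (hN (fst_le v P) (snd_le v Q)) _)
              (pow_le_pow_left' (hN (snd_le v P) (fst_le v Q)) _)
        _ = (nrm v P * nrm v Q) ^ (e - 1) := by rw [← pow_add]; congr 1; omega
    rw [hid, hgeo, map_mul, map_mul, map_mul, map_pow, map_pow]
    calc v (P.1 * Q.1) ^ j * v (P.2 * Q.2) ^ f *
          (v (∑ l ∈ Finset.range e, (P.1 * Q.2) ^ l * (P.2 * Q.1) ^ (e - 1 - l)) *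
            v (wedge P Q))
        ≤ (nrm v P * nrm v Q) ^ j * (nrm v P * nrm v Q) ^ f *
          ((nrm v P * nrm v Q) ^ (e - 1) * v (wedge P Q)) :=
          mul_le_mul' (mul_le_mul' (pow_le_pow_left' (hN (fst_le v P) (fst_le v Q)) _)
            (pow_le_pow_left' (hN (snd_le v P) (snd_le v Q)) _)) (mul_le_mul' hsum le_rfl)
      _ = v (wedge P Q) * (nrm v P * nrm v Q) ^ (j + e + f - 1) := by
          have e3 : j + e + f - 1 = j + f + (e - 1) := by omega
          rw [e3, pow_add, pow_add]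
          ac_rfl
  rcases le_total j i with h | h
  · exact main i j hi h P Q
  · have h1 := main j i hj h P Q
    rw [Valuation.map_sub_swap] at h1
    refine le_trans (le_of_eq ?_) h1
    congr 1
    ring

/-- the map does not increase determinants -/
lemma wedge_map_le {v : Valuation K ℤᵐ⁰} {d : ℕ} {F G : K[X]} (hF : ∀ i, v (F.coeff i) ≤ 1)
    (hG : ∀ i, v (G.coeff i) ≤ 1) (P Q : K × K) :
    v (wedge (mapR d F G P) (mapR d F G Q)) ≤
      v (wedge P Q) * (nrm v P * nrm v Q) ^ (d - 1) := by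
  have e : wedge (mapR d F G P) (mapR d F G Q) =
      ∑ i ∈ Finset.range (d + 1), ∑ j ∈ Finset.range (d + 1), F.coeff i * G.coeff j *
        ((P.1 ^ i * P.2 ^ (d - i)) * (Q.1 ^ j * Q.2 ^ (d - j)) -
          (Q.1 ^ i * Q.2 ^ (d - i)) * (P.1 ^ j * P.2 ^ (d - j))) := by
    unfold wedge mapR hom
    simp only
    rw [Finset.sum_mul_sum, mul_comm (∑ i ∈ Finset.range (d + 1), G.coeff i *
      (P.1 ^ i * P.2 ^ (d - i))), Finset.sum_mul_sum, ← Finset.sum_sub_distrib]
    refine Finset.sum_congr rfl fun i _ => ?_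
    rw [← Finset.sum_sub_distrib]
    refine Finset.sum_congr rfl fun j _ => ?_
    ring
  rw [e]
  refine Valuation.map_sum_le v fun i hi => ?_
  refine Valuation.map_sum_le v fun j hj => ?_
  rw [Finset.mem_range] at hi hj
  rw [map_mul, map_mul]
  calc v (F.coeff i) * v (G.coeff j) * _ ≤ 1 * 1 * (v (wedge P Q) *
        (nrm v P * nrm v Q) ^ (d - 1)) :=
        mul_le_mul' (mul_le_mul' (hF i) (hG j)) (mixed_le v P Q (by omega) (by omega))
    _ = _ := by rw [one_mul, one_mul]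

/-- the map does not increase chordal distances -/
lemma GoodAt.chord_map_le {v : Valuation K ℤᵐ⁰} {d : ℕ} (hd : 1 ≤ d) {F G : K[X]}
    (h : GoodAt v d F G) {P Q : K × K} (hP : P ≠ 0) (hQ : Q ≠ 0) :
    chord v (mapR d F G P) (mapR d F G Q) ≤ chord v P Q := by
  have hp := zero_lt_iff.2 (nrm_ne v hP)
  have hq := zero_lt_iff.2 (nrm_ne v hQ)
  unfold chord
  rw [h.nrm_map hP, h.nrm_map hQ, ← mul_pow,
    div_le_div_iff₀ (pow_pos (mul_pos hp hq) _) (mul_pos hp hq)]
  calc v (wedge (mapR d F G P) (mapR d F G Q)) * (nrm v P * nrm v Q)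
      ≤ v (wedge P Q) * (nrm v P * nrm v Q) ^ (d - 1) * (nrm v P * nrm v Q) :=
        mul_le_mul_left (wedge_map_le h.hF h.hG P Q) _
    _ = v (wedge P Q) * (nrm v P * nrm v Q) ^ d := by
        rw [mul_assoc, ← pow_succ, Nat.sub_add_cancel hd]

/-- the chordal distance of two periodic orbits is constant -/
theorem chord_const {v : Valuation K ℤᵐ⁰} {d : ℕ → ℕ} (hd : ∀ i, 1 ≤ d i) {F G : ℕ → K[X]}
    (hgood : ∀ i, GoodAt v (d i) (F i) (G i)) {X Y : ℕ → K × K} (hX0 : ∀ i, X i ≠ 0)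
    (hY0 : ∀ i, Y i ≠ 0)
    (hX : ∀ i, ∃ a : K, a ≠ 0 ∧ X (i + 1) = a • mapR (d i) (F i) (G i) (X i))
    (hY : ∀ i, ∃ a : K, a ≠ 0 ∧ Y (i + 1) = a • mapR (d i) (F i) (G i) (Y i)) {L : ℕ}
    (hL : 0 < L) (hXL : ∀ i, ∃ a : K, a ≠ 0 ∧ X (i + L) = a • X i)
    (hYL : ∀ i, ∃ a : K, a ≠ 0 ∧ Y (i + L) = a • Y i) (i : ℕ) :
    chord v (X i) (Y i) = chord v (X 0) (Y 0) := by
  have hD : ∀ i, chord v (X (i + 1)) (Y (i + 1)) ≤ chord v (X i) (Y i) := by
    intro i
    obtain ⟨a, ha, hXa⟩ := hX i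
    obtain ⟨b, hb, hYb⟩ := hY i
    rw [hXa, hYb, chord_smul v ha hb]
    exact (hgood i).chord_map_le (hd i) (hX0 i) (hY0 i)
  have hanti : Antitone fun i => chord v (X i) (Y i) := antitone_nat_of_succ_le hD
  have h1 : ∀ k i, chord v (X (i + L * k)) (Y (i + L * k)) = chord v (X i) (Y i) := by
    intro k
    induction k with
    | zero => intro i; simp
    | succ k ih =>
      intro i
      have e : i + L * (k + 1) = (i + L * k) + L := by ring
      obtain ⟨a, ha, hXa⟩ := hXL (i + L * k)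
      obtain ⟨b, hb, hYb⟩ := hYL (i + L * k)
      rw [e, hXa, hYb, chord_smul v ha hb, ih]
  refine le_antisymm (hanti (Nat.zero_le i)) ?_
  have h2 : chord v (X (0 + L * i)) (Y (0 + L * i)) ≤ chord v (X i) (Y i) :=
    hanti (by nlinarith)
  rwa [h1] at h2

end UBR
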