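import Pool.Agent.UBR.Metric
import Pool.Agent.UBR.CrAbs
import Pool.Agent.UBR.Good
import Pool.Agent.UBC.PLine.Steps

/-!
# Cycles on the projective line: the local condition on the determinants
-/

set_option autoImplicit false

universe u

namespace UBR

open UBC Pool.Agent.UBC OnePoint WithZero

section

variable {K : Type*} [Field K]

/-- coordinates -/
def co (z : OnePoint K) : K × K := (c1 z, c2 z)

lemma co_ne (z : OnePoint K) : co z ≠ 0 := by
  intro h
  have h1 : c1 z = 0 := congrArg Prod.fst h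
  have h2 : c2 z = 0 := congrArg Prod.snd h
  rcases coords_ne z with h3 | h3
  · exact h3 h1
  · exact h3 h2

lemma wedge_co (x y : OnePoint K) : wedge (co x) (co y) = wd x y := rfl

/-- the chordal distance -/
noncomputable def chordal (v : Valuation K ℤᵐ⁰) (x y : OnePoint K) : ℤᵐ⁰ := chord v (co x) (co y)

lemma um_chordal (v : Valuation K ℤᵐ⁰) : UM (chordal v) where
  symm x y := chord_symm v _ _
  self x := chord_self v _
  le_one x y := chord_le_one v (co_ne x) (co_ne y)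
  ne x y h := by
    unfold chordal chord
    rw [wedge_co]
    exact div_ne_zero ((Valuation.ne_zero_iff v).2 fun h0 => h (wd_eq_zero.1 h0))
      (mul_ne_zero (nrm_ne v (co_ne x)) (nrm_ne v (co_ne y)))
  ultra x y z := chord_ultra v (co_ne x) (co_ne y) (co_ne z)

lemma val_wd (v : Valuation K ℤᵐ⁰) (x y : OnePoint K) :
    v (wd x y) = nrm v (co x) * nrm v (co y) * chordal v x y := by
  unfold chordal chord
  rw [wedge_co, mul_div_cancel₀]
  exact mul_ne_zero (nrm_ne v (co_ne x)) (nrm_ne v (co_ne y))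

variable [DecidableEq K]

/-- the distance transported by a Möbius transformation -/
noncomputable def delta (v : Valuation K ℤᵐ⁰) (σ : GL (Fin 2) K) (x y : OnePoint K) : ℤᵐ⁰ :=
  chordal v (σ • x) (σ • y)

lemma um_delta (v : Valuation K ℤᵐ⁰) (σ : GL (Fin 2) K) : UM (delta v σ) where
  symm x y := (um_chordal v).symm _ _
  self x := (um_chordal v).self _
  le_one x y := (um_chordal v).le_one _ _
  ne x y h := (um_chordal v).ne _ _ fun h0 => h (MulAction.injective σ h0)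
  ultra x y z := (um_chordal v).ultra _ _ _

/-- the residue class -/
def cls (v : Valuation K ℤᵐ⁰) (σ : GL (Fin 2) K) : Set (OnePoint K) :=
  {x | chordal v (σ • x) ∞ < 1}

/-- the local condition on a set of maps -/
def Adm (n : ℕ) (v : Valuation K ℤᵐ⁰) (A : Set (OnePoint K → OnePoint K)) : Prop :=
  ∃ (σ : GL (Fin 2) K) (U : Set (OnePoint K)), ∀ f ∈ A, PowExp n (delta v σ) U f

/-- the two special cases -/
theorem adm_cases {n : ℕ} {v : Valuation K ℤᵐ⁰} {A : Set (OnePoint K → OnePoint K)}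
    (h : ∃ σ : GL (Fin 2) K, (∀ f ∈ A, ∀ x y, delta v σ (f x) (f y) ≤ delta v σ x y) ∨
      (∀ f ∈ A, PowExpC n (delta v σ) (cls v σ) f)) : Adm n v A := by
  obtain ⟨σ, h1 | h1⟩ := h
  · exact ⟨σ, Set.univ, fun f hf => ⟨fun x _ => Set.mem_univ _, fun x _ y _ => h1 f hf x y,
      fun x y hx => absurd (Set.mem_univ x) hx⟩⟩
  · exact ⟨σ, cls v σ, fun f hf => (h1 f hf).toPowExp (um_delta v σ)⟩

lemma wd_smul (v : Valuation K ℤᵐ⁰) (σ : GL (Fin 2) K) : ∃ (κ : ℤᵐ⁰) (u : OnePoint K → ℤᵐ⁰),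
    ∀ x y, v (wd x y) = κ * u x * u y * delta v σ x y := by
  have hdet : σ 0 0 * σ 1 1 - σ 0 1 * σ 1 0 ≠ 0 := by
    have := σ.det_ne_zero
    rwa [Matrix.det_fin_two] at this
  choose c hc0 h1 h2 using mobius_coords σ
  have hcv : ∀ x, v (c x) ≠ 0 := fun x => (Valuation.ne_zero_iff v).2 (hc0 x)
  have hdv := (Valuation.ne_zero_iff v).2 hdet
  refine ⟨(v (σ 0 0 * σ 1 1 - σ 0 1 * σ 1 0))⁻¹, fun x => (v (c x))⁻¹ * nrm v (co (σ • x)),
    fun x y => ?_⟩
  have h3 : wd (σ • x) (σ • y) = (c x * c y) * ((σ 0 0 * σ 1 1 - σ 0 1 * σ 1 0) * wd x y) := by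
    unfold wd
    rw [h1, h2, h1, h2]
    ring
  have h4 := val_wd v (σ • x) (σ • y)
  rw [h3, map_mul, map_mul, map_mul] at h4
  have h5 : v (wd x y) = ((v (c x) * v (c y)) * v (σ 0 0 * σ 1 1 - σ 0 1 * σ 1 0))⁻¹ *
      (nrm v (co (σ • x)) * nrm v (co (σ • y)) * chordal v (σ • x) (σ • y)) := by
    rw [← h4, ← mul_assoc, mul_assoc (_)⁻¹, ← mul_assoc (v (c x) * v (c y)), ← mul_assoc (_)⁻¹,
      inv_mul_cancel₀, one_mul]
    exact mul_ne_zero (mul_ne_zero (hcv x) (hcv y)) hdv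
  rw [h5]
  unfold delta
  beta_reduce
  rw [mul_inv, mul_inv]
  ac_rfl

/-- the local condition for a cycle -/
theorem locD_of_adm {n : ℕ} (hn : 0 < n) {v : Valuation K ℤᵐ⁰} {f : ℕ → OnePoint K → OnePoint K}
    (hA : Adm n v (Set.range f)) {ℓ : ℕ} {a : ℕ → OnePoint K} {k : ℕ} (h : IsOrb f ℓ a k) :
    LocD v n k (fun i j => wd (a (ℓ * i)) (a (ℓ * j))) := by
  obtain ⟨σ, U, hσ⟩ := hA
  have hf : ∀ i, PowExp n (delta v σ) U (f i) := fun i => hσ _ ⟨i, rfl⟩
  obtain ⟨κ, u, hu⟩ := wd_smul v σ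
  refine ⟨κ, fun i => u (a (ℓ * i)), fun i j => delta v σ (a (ℓ * i)) (a (ℓ * j)),
    fun i j _ _ _ => hu _ _, ?_⟩
  rcases h.mem hf with hU | hU
  · left
    intro i j i' j' _ _ _ _ _ _ hg
    exact h.level (um_delta v σ) hf hU hg
  · right
    intro i j hi hj hij
    exact h.pow (um_delta v σ) hn hf hU hi hj hij

end

end UBR
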