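import Pool.Agent.UBR.CycLoc
import Pool.Agent.UBC.LocDom

/-!
# The maps `P(z) + c` and `P(1/z) + c` satisfy the local condition
-/

set_option autoImplicit false
set_option linter.unusedSectionVars false

namespace UBR

open UBC Pool.Agent.UBC OnePoint Polynomial WithZero UBC.LocPerAux UBC.LocDomAux

variable {K : Type*} [Field K]

section dist

variable [DecidableEq K]

/-- the transformation `z ↦ z / g` -/
noncomputable def dia (g : K) (hg : g ≠ 0) : GL (Fin 2) K :=
  Matrix.GeneralLinearGroup.mkOfDetNeZero !![g⁻¹, 0; 0, 1] (by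
    rw [Matrix.det_fin_two]
    simpa using hg)

lemma dia_coords {g : K} (hg : g ≠ 0) (x : OnePoint K) :
    ∃ c : K, c ≠ 0 ∧ co (dia g hg • x) = c • (g⁻¹ * c1 x, c2 x) := by
  obtain ⟨c, hc, h1, h2⟩ := mobius_coords (dia g hg) x
  refine ⟨c, hc, Prod.ext ?_ ?_⟩
  · change c1 (dia g hg • x) = c * (g⁻¹ * c1 x)
    rw [h1]
    simp [dia, Matrix.GeneralLinearGroup.mkOfDetNeZero]
  · change c2 (dia g hg • x) = c * c2 x
    rw [h2]
    simp [dia, Matrix.GeneralLinearGroup.mkOfDetNeZero]

variable (v : Valuation K ℤᵐ⁰) {g : K} (hg : g ≠ 0)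

lemma delta_dia (x y : OnePoint K) :
    delta v (dia g hg) x y = chord v (g⁻¹ * c1 x, c2 x) (g⁻¹ * c1 y, c2 y) := by
  obtain ⟨a, ha, h1⟩ := dia_coords hg x
  obtain ⟨b, hb, h2⟩ := dia_coords hg y
  unfold delta chordal
  rw [h1, h2, chord_smul v ha hb]

include hg in
lemma vg : v g ≠ 0 := (Valuation.ne_zero_iff v).2 hg

lemma delta_symm (x y : OnePoint K) : delta v (dia g hg) x y = delta v (dia g hg) y x :=
  (um_delta v _).symm x y

lemma chordal_infty (x : OnePoint K) :
    chordal v (dia g hg • x) ∞ = chord v (g⁻¹ * c1 x, c2 x) (1, 0) := by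
  obtain ⟨a, ha, h1⟩ := dia_coords hg x
  have h2 : co (∞ : OnePoint K) = (1 : K) • ((1, 0) : K × K) := by
    rw [one_smul]
    rfl
  unfold chordal
  rw [h1, h2, chord_smul v ha one_ne_zero]

lemma mem_cls_infty : (∞ : OnePoint K) ∈ cls v (dia g hg) := by
  change chordal v (dia g hg • (∞ : OnePoint K)) ∞ < 1
  rw [chordal_infty]
  unfold chord wedge
  simp

lemma div_lt_one_iff' {a b : ℤᵐ⁰} (hb : b ≠ 0) : b⁻¹ * a ≤ 1 ↔ a ≤ b := by
  rw [inv_mul_le_iff₀ (zero_lt_iff.2 hb), mul_one]

lemma mem_cls_coe (x : K) : (x : OnePoint K) ∈ cls v (dia g hg) ↔ v g < v x := by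
  change chordal v (dia g hg • (x : OnePoint K)) ∞ < 1 ↔ _
  rw [chordal_infty]
  unfold chord wedge nrm
  simp only [c1_coe, c2_coe, mul_zero, zero_sub, Valuation.map_neg, map_one, map_zero, mul_one]
  rw [max_eq_left zero_le, mul_one, map_mul, map_inv₀, one_div]
  rw [inv_lt_one₀ (zero_lt_one.trans_le (le_max_right _ _)), lt_max_iff]
  constructor
  · rintro (h | h)
    · rw [← not_le, div_lt_one_iff' (vg v hg), not_le] at h
      exact h
    · exact absurd h (lt_irrefl _)
  · intro h
    left
    rw [← not_le, div_lt_one_iff' (vg v hg), not_le]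
    exact h

/-- the distance of two finite points of the class of infinity -/
lemma delta_big {x y : K} (hx : v g < v x) (hy : v g < v y) :
    delta v (dia g hg) (x : OnePoint K) (y : OnePoint K) = v g * v (x - y) / (v x * v y) := by
  rw [delta_dia]
  have hg0 := vg v hg
  have hx0 : v x ≠ 0 := (zero_le.trans_lt hx).ne'
  have hy0 : v y ≠ 0 := (zero_le.trans_lt hy).ne'
  have h1 : ∀ {z : K}, v g < v z → 1 ≤ (v g)⁻¹ * v z := by
    intro z hz
    rw [← not_lt]
    intro h
    exact absurd ((div_lt_one_iff' hg0).1 h.le) (not_le.2 hz)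
  unfold chord wedge nrm
  simp only [c1_coe, c2_coe, mul_one, one_mul, map_one, map_mul, map_inv₀]
  rw [max_eq_left (h1 hx), max_eq_left (h1 hy), ← mul_sub, map_mul, map_inv₀]
  field_simp

/-- the distance of a finite point of the class of infinity to infinity -/
lemma delta_infty {x : K} (hx : v g < v x) :
    delta v (dia g hg) (x : OnePoint K) ∞ = v g / v x := by
  rw [delta_dia]
  have hg0 := vg v hg
  have hx0 : v x ≠ 0 := (zero_le.trans_lt hx).ne'
  have h1 : 1 ≤ (v g)⁻¹ * v x := by
    rw [← not_lt]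
    intro h
    exact absurd ((div_lt_one_iff' hg0).1 h.le) (not_le.2 hx)
  unfold chord wedge nrm
  simp only [c1_coe, c2_coe, c1_infty, c2_infty, mul_one, one_mul, mul_zero, zero_sub, map_one,
    map_mul, map_inv₀, Valuation.map_neg, map_zero]
  rw [max_eq_left h1, max_eq_left zero_le]
  field_simp

/-- the distance of two points outside of the class of infinity -/
lemma delta_small {x y : K} (hx : v x ≤ v g) (hy : v y ≤ v g) :
    delta v (dia g hg) (x : OnePoint K) (y : OnePoint K) = v (x - y) / v g := by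
  rw [delta_dia]
  have hg0 := vg v hg
  unfold chord wedge nrm
  simp only [c1_coe, c2_coe, mul_one, one_mul, map_one, map_mul, map_inv₀]
  rw [max_eq_right ((div_lt_one_iff' hg0).2 hx), max_eq_right ((div_lt_one_iff' hg0).2 hy),
    ← mul_sub, map_mul, map_inv₀, mul_one, div_one, mul_comm, div_eq_mul_inv]

end dist

/-! ### The maps -/

/-- `g` has the largest value with `v g ^ d ≤ v c` -/
structure Lev (v : Valuation K ℤᵐ⁰) (d : ℕ) (c g : K) : Prop where
  one_le : 1 ≤ v g
  le : v g ^ d ≤ v c
  max : ∀ x : K, v g < v x → v c < v x ^ d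

lemma exists_lev {v : Valuation K ℤᵐ⁰} (hsurj : Function.Surjective v) {d : ℕ} (hd : 1 ≤ d)
    {c : K} (hc : 1 < v c) : ∃ g : K, Lev v d c g := by
  have hc0 : v c ≠ 0 := (zero_lt_one.trans hc).ne'
  obtain ⟨m, hm⟩ : ∃ m : ℤ, v c = WithZero.exp m := ⟨WithZero.log (v c), (exp_log hc0).symm⟩
  have hm0 : 0 < m := by
    rw [hm, ← exp_zero, exp_lt_exp] at hc
    exact hc
  obtain ⟨g, hg⟩ := hsurj (WithZero.exp (m / d))
  have hd' : (0 : ℤ) < d := by exact_mod_cast hd
  refine ⟨g, ?_, ?_, ?_⟩
  · rw [hg, ← exp_zero, exp_le_exp]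
    exact Int.ediv_nonneg hm0.le hd'.le
  · rw [hg, hm, ← exp_nsmul, exp_le_exp, nsmul_eq_mul]
    exact Int.mul_ediv_self_le hd'.ne'
  · intro x hx
    have hx0 : v x ≠ 0 := (zero_le.trans_lt hx).ne'
    obtain ⟨k, hk⟩ : ∃ k : ℤ, v x = WithZero.exp k := ⟨WithZero.log (v x), (exp_log hx0).symm⟩
    rw [hg, hk, exp_lt_exp] at hx
    rw [hk, hm, ← exp_nsmul, exp_lt_exp, nsmul_eq_mul]
    have h1 := Int.lt_ediv_add_one_mul_self m hd'
    calc m < (m / d + 1) * d := h1
      _ ≤ k * d := by
          refine mul_le_mul_of_nonneg_right ?_ hd'.le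
          omega
      _ = d * k := mul_comm _ _

section maps

variable [DecidableEq K] {v : Valuation K ℤᵐ⁰} {d : ℕ} (hd : 2 ≤ d) (hvd : v (d : K) = 1)
  {P : K[X]} (hdeg : P.natDegree = d) (hint : ∀ i, v (P.coeff i) ≤ 1)
  (hlead : v P.leadingCoeff = 1) {c g : K} (hc : 1 < v c) (hg : Lev v d c g)

include hg in
lemma lev_ne : g ≠ 0 := by
  rintro rfl
  have := hg.one_le
  rw [map_zero] at this
  exact absurd this (not_le.2 zero_lt_one)

include hd hc hg in
lemma lev_lt : v g < v c := by
  rcases hg.one_le.eq_or_lt with h | h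
  · rw [← h]
    exact hc
  · exact (lt_self_pow₀ h (by omega)).trans_le hg.le

include hdeg hint in
/-- the values of `P` at small points -/
lemma eval_le {x : K} {ρ : ℤᵐ⁰} (hρ : 1 ≤ ρ) (hx : v x ≤ ρ) : v (P.eval x) ≤ ρ ^ d := by
  rw [eval_eq_sum_range, hdeg]
  refine Valuation.map_sum_le v fun i hi => ?_
  rw [Finset.mem_range] at hi
  rw [map_mul, map_pow]
  calc v (P.coeff i) * v x ^ i ≤ 1 * ρ ^ i := mul_le_mul' (hint i) (pow_le_pow_left' hx i)
    _ = ρ ^ i := one_mul _
    _ ≤ ρ ^ d := pow_le_pow_right' hρ (by omega)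

include hdeg hint in
/-- differences -/
lemma eval_sub_le {x y : K} {ρ : ℤᵐ⁰} (hρ : 1 ≤ ρ) (hx : v x ≤ ρ) (hy : v y ≤ ρ) :
    v (P.eval x - P.eval y) ≤ ρ ^ (d - 1) * v (x - y) := by
  rw [← Q_mul hdeg, map_mul]
  refine mul_le_mul_left ?_ _
  unfold Q
  refine Valuation.map_sum_le v fun j hj => ?_
  rw [Finset.mem_range] at hj
  rw [map_mul]
  calc v (P.coeff j) * v (PowCyc.G j x y) ≤ 1 * ρ ^ (j - 1) := mul_le_mul' (hint j) (G_le v hx hy)
    _ = ρ ^ (j - 1) := one_mul _
    _ ≤ ρ ^ (d - 1) := pow_le_pow_right' hρ (by omega)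

include hvd hd hdeg hint hlead in
/-- differences of close points -/
lemma eval_sub_eq {x y : K} {ρ : ℤᵐ⁰} (hρ : 1 < ρ) (hx : v x = ρ) (hy : v y = ρ)
    (h : v (x - y) < ρ) : v (P.eval x - P.eval y) = ρ ^ (d - 1) * v (x - y) := by
  rw [← Q_mul hdeg, map_mul, Q_close' v (by omega) hvd hlead hdeg hint hx hy hρ h]

include hd hdeg hint hlead hc hg

/-- a small point with small image has the critical value -/
lemma crit {x : K} (h1 : v (P.eval x + c) ≤ v g) (hx : v x ≤ v g) :
    1 < v g ∧ v x = v g := by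
  have h2 : v (P.eval x) = v c := by
    have h3 : v (P.eval x + c) < v c := h1.trans_lt (lev_lt hd hc hg)
    rcases lt_trichotomy (v (P.eval x)) (v c) with h | h | h
    · rw [Valuation.map_add_eq_of_lt_right v h] at h3
      exact absurd h3 (lt_irrefl _)
    · exact h
    · rw [Valuation.map_add_eq_of_lt_left v h] at h3
      exact absurd (h3.trans h) (lt_irrefl _)
  have h4 : 1 < v x := by
    by_contra hcon
    push Not at hcon
    have h5 := eval_le hdeg hint le_rfl hcon
    rw [h2, one_pow] at h5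
    exact absurd hc (not_lt.2 h5)
  have h5 : v (P.eval x) = v x ^ d := eval_big' v hlead hdeg hint h4
  refine ⟨h4.trans_le hx, hx.antisymm ?_⟩
  by_contra hcon
  push Not at hcon
  have h6 : v x ^ d < v g ^ d := pow_lt_pow_left₀ hcon zero_le (by omega)
  rw [← h5, h2] at h6
  exact absurd (h6.trans_le hg.le) (lt_irrefl _)

end maps

/-- the map `P(z) + c` of the projective line -/
def polyMap (P : K[X]) (c : K) (z : OnePoint K) : OnePoint K :=
  z.elim ∞ (fun x => ((P.eval x + c : K) : OnePoint K))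

/-- the map `P(1/z) + c` of the projective line -/
noncomputable def invMap [DecidableEq K] (P : K[X]) (c : K) (z : OnePoint K) : OnePoint K :=
  z.elim ((P.eval 0 + c : K) : OnePoint K)
    (fun x => if x = 0 then ∞ else ((P.eval x⁻¹ + c : K) : OnePoint K))

section powexp

variable [DecidableEq K] {v : Valuation K ℤᵐ⁰} {d : ℕ} (hd : 2 ≤ d) (hvd : v (d : K) = 1)
  {P : K[X]} (hdeg : P.natDegree = d) (hint : ∀ i, v (P.coeff i) ≤ 1)
  (hlead : v P.leadingCoeff = 1) {c g : K} (hc : 1 < v c) (hg : Lev v d c g) (hg0 : g ≠ 0)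

include hd hdeg hint hlead hg

/-- large points -/
lemma big {x : K} (hx : v g < v x) : v (P.eval x + c) = v x ^ d ∧ v g < v x ^ d := by
  have h1 : 1 < v x := hg.one_le.trans_lt hx
  have h2 : v (P.eval x) = v x ^ d := eval_big' v hlead hdeg hint h1
  have h3 := hg.max x hx
  rw [Valuation.map_add_eq_of_lt_left v (by rw [h2]; exact h3), h2]
  exact ⟨rfl, hx.trans_le (le_self_pow₀ h1.le (by omega))⟩

include hvd hc

theorem powExp_poly : PowExpC (d - 1) (delta v (dia g hg0)) (cls v (dia g hg0)) (polyMap P c) where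
  maps := by
    intro z hz
    induction z using OnePoint.rec with
    | infty => exact mem_cls_infty v hg0
    | coe x =>
      rw [mem_cls_coe] at hz
      obtain ⟨h1, h2⟩ := big hd hdeg hint hlead hg hz
      change ((P.eval x + c : K) : OnePoint K) ∈ _
      rw [mem_cls_coe, h1]
      exact h2
  contr := by
    have hvg : v g ≠ 0 := vg v hg0
    have key : ∀ {x : K}, v g < v x →
        delta v (dia g hg0) ((P.eval x + c : K) : OnePoint K) ∞ <
          delta v (dia g hg0) (x : OnePoint K) ∞ := by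
      intro x hx
      obtain ⟨h1, h2⟩ := big hd hdeg hint hlead hg hx
      have h3 : 1 < v x := hg.one_le.trans_lt hx
      rw [delta_infty v hg0 hx, delta_infty v hg0 (by rw [h1]; exact h2), h1]
      exact div_lt_div_of_pos_left (zero_lt_iff.2 hvg) (zero_lt_one.trans h3)
        (lt_self_pow₀ h3 (by omega))
    intro z hz w hw hzw
    induction z using OnePoint.rec with
    | infty =>
      induction w using OnePoint.rec with
      | infty => exact absurd rfl hzw
      | coe y =>
        rw [mem_cls_coe] at hw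
        rw [delta_symm v hg0, delta_symm v hg0 ∞]
        exact key hw
    | coe x =>
      rw [mem_cls_coe] at hz
      induction w using OnePoint.rec with
      | infty => exact key hz
      | coe y =>
        rw [mem_cls_coe] at hw
        have hxy : x ≠ y := fun h => hzw (by rw [h])
        obtain ⟨h1, h2⟩ := big hd hdeg hint hlead hg hz
        obtain ⟨h3, h4⟩ := big hd hdeg hint hlead hg hw
        have hx1 : 1 < v x := hg.one_le.trans_lt hz
        have hy1 : 1 < v y := hg.one_le.trans_lt hw
        have hx0 := zero_lt_one.trans hx1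
        have hy0 := zero_lt_one.trans hy1
        change delta v (dia g hg0) ((P.eval x + c : K) : OnePoint K)
          ((P.eval y + c : K) : OnePoint K) < _
        rw [delta_big v hg0 hz hw, delta_big v hg0 (by rw [h1]; exact h2) (by rw [h3]; exact h4),
          h1, h3, div_lt_div_iff₀ (mul_pos (pow_pos hx0 _) (pow_pos hy0 _)) (mul_pos hx0 hy0)]
        have h5 : v (P.eval x + c - (P.eval y + c)) ≤ (max (v x) (v y)) ^ (d - 1) * v (x - y) := by
          rw [add_sub_add_right_eq_sub]
          exact eval_sub_le hdeg hint (hx1.le.trans (le_max_left _ _)) (le_max_left _ _)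
            (le_max_right _ _)
        have h6 : max (v x) (v y) < v x * v y := by
          refine max_lt ?_ ?_
          · calc v x = v x * 1 := (mul_one _).symm
              _ < v x * v y := mul_lt_mul_of_pos_left hy1 hx0
          · calc v y = 1 * v y := (one_mul _).symm
              _ < v x * v y := mul_lt_mul_of_pos_right hx1 hy0
        have h7 : max (v x) (v y) ^ (d - 1) < (v x * v y) ^ (d - 1) :=
          pow_lt_pow_left₀ h6 zero_le (by omega)
        have h8 : 0 < v (x - y) := zero_lt_iff.2 ((Valuation.ne_zero_iff v).2 (sub_ne_zero.2 hxy))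
        calc v g * v (P.eval x + c - (P.eval y + c)) * (v x * v y)
            ≤ v g * (max (v x) (v y) ^ (d - 1) * v (x - y)) * (v x * v y) :=
              mul_le_mul_left (mul_le_mul_right h5 _) _
          _ < v g * ((v x * v y) ^ (d - 1) * v (x - y)) * (v x * v y) :=
              mul_lt_mul_of_pos_right (mul_lt_mul_of_pos_left
                (mul_lt_mul_of_pos_right h7 h8) (zero_lt_iff.2 hvg)) (mul_pos hx0 hy0)
          _ = v g * v (x - y) * (v x ^ d * v y ^ d) := by
              rw [← mul_pow]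
              obtain ⟨m, hm⟩ : ∃ m, d = m + 1 := ⟨d - 1, by omega⟩
              rw [hm, Nat.add_sub_cancel, pow_succ]
              ac_rfl
  exp := by
    have hvg : v g ≠ 0 := vg v hg0
    rcases hg.one_le.eq_or_lt with h1 | h1
    · refine ⟨v c, hc, fun z w hz hw hz' hw' _ => ?_⟩
      exfalso
      induction z using OnePoint.rec with
      | infty => exact hz (mem_cls_infty v hg0)
      | coe x =>
        change ((P.eval x + c : K) : OnePoint K) ∉ _ at hz'
        rw [mem_cls_coe, not_lt] at hz hz'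
        exact absurd h1.symm (crit hd hdeg hint hlead hc hg hz' hz).1.ne'
    · refine ⟨v g, h1, fun z w hz hw hz' hw' hzw => ?_⟩
      induction z using OnePoint.rec with
      | infty => exact absurd (mem_cls_infty v hg0) hz
      | coe x =>
        induction w using OnePoint.rec with
        | infty => exact absurd (mem_cls_infty v hg0) hw
        | coe y =>
          change ((P.eval x + c : K) : OnePoint K) ∉ _ at hz'
          change ((P.eval y + c : K) : OnePoint K) ∉ _ at hw'
          change delta v (dia g hg0) ((P.eval x + c : K) : OnePoint K)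
            ((P.eval y + c : K) : OnePoint K) = _
          rw [mem_cls_coe, not_lt] at hz hz' hw hw'
          have hx := (crit hd hdeg hint hlead hc hg hz' hz).2
          have hy := (crit hd hdeg hint hlead hc hg hw' hw).2
          rw [delta_small v hg0 hz hw] at hzw ⊢
          rw [delta_small v hg0 hz' hw', add_sub_add_right_eq_sub]
          rw [div_lt_one₀ (zero_lt_iff.2 hvg)] at hzw
          rw [eval_sub_eq hd hvd hdeg hint hlead h1 hx hy hzw, mul_div_assoc]

omit hvd in
lemma small_eval {w : K} (hw : v w < v g) : v (P.eval w + c) = v c := by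
  have h1 : v (P.eval w) < v c := by
    rcases le_or_gt (v w) 1 with h | h
    · have h2 := eval_le hdeg hint le_rfl h
      rw [one_pow] at h2
      exact h2.trans_lt hc
    · have h2 : v (P.eval w) = v w ^ d := eval_big' v hlead hdeg hint h
      rw [h2]
      exact (pow_lt_pow_left₀ hw zero_le (by omega)).trans_le hg.le
  exact Valuation.map_add_eq_of_lt_right v h1

omit hvd in
/-- a large point whose image is small has the critical value -/
lemma crit' {w : K} (h1 : v (P.eval w + c) ≤ 1) (hw : v g ≤ v w) : 1 < v g ∧ v w = v g := by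
  have h2 : v (P.eval w) = v c := by
    have h3 : v (P.eval w + c) < v c := h1.trans_lt hc
    rcases lt_trichotomy (v (P.eval w)) (v c) with h | h | h
    · rw [Valuation.map_add_eq_of_lt_right v h] at h3
      exact absurd h3 (lt_irrefl _)
    · exact h
    · rw [Valuation.map_add_eq_of_lt_left v h] at h3
      exact absurd (h3.trans h) (lt_irrefl _)
  have h4 : 1 < v w := by
    by_contra hcon
    push Not at hcon
    have h5 := eval_le hdeg hint le_rfl hcon
    rw [h2, one_pow] at h5
    exact absurd hc (not_lt.2 h5)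
  have h5 : v (P.eval w) = v w ^ d := eval_big' v hlead hdeg hint h4
  have h6 : v w = v g := by
    refine le_antisymm ?_ hw
    by_contra hcon
    push Not at hcon
    have h7 := hg.max w hcon
    rw [← h5, h2] at h7
    exact absurd h7 (lt_irrefl _)
  exact ⟨h6 ▸ h4, h6⟩

omit hvd in
lemma inv_le_one' : v g⁻¹ ≤ 1 := by
  rw [map_inv₀]
  exact inv_le_one_of_one_le₀ hg.one_le

omit hvd in
/-- the class of infinity in the coordinate `1 / z` -/
lemma inv_point {z : OnePoint K} (hz : z ∈ cls v (dia g⁻¹ (inv_ne_zero hg0))) :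
    ∃ w : K, v w < v g ∧ invMap P c z = ((P.eval w + c : K) : OnePoint K) ∧
      z = (if w = 0 then ∞ else ((w⁻¹ : K) : OnePoint K)) := by
  have hvg : v g ≠ 0 := vg v hg0
  induction z using OnePoint.rec with
  | infty =>
    refine ⟨0, ?_, rfl, ?_⟩
    · rw [map_zero]
      exact zero_lt_iff.2 hvg
    · rw [if_pos rfl]
  | coe x =>
    rw [mem_cls_coe, map_inv₀] at hz
    have hx0 : v x ≠ 0 := (zero_le.trans_lt hz).ne'
    have hx : x ≠ 0 := (Valuation.ne_zero_iff v).1 hx0
    refine ⟨x⁻¹, ?_, ?_, ?_⟩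
    · rw [map_inv₀]
      exact (inv_lt_comm₀ (zero_lt_iff.2 hx0) (zero_lt_iff.2 hvg)).2 hz
    · change (if x = 0 then ∞ else ((P.eval x⁻¹ + c : K) : OnePoint K)) = _
      rw [if_neg hx]
    · rw [if_neg (inv_ne_zero hx), inv_inv]

omit hd hdeg hint hlead hc hvd in
lemma inv_delta {a b : K} (ha : v a < v g) (hb : v b < v g) :
    delta v (dia g⁻¹ (inv_ne_zero hg0)) (if a = 0 then ∞ else ((a⁻¹ : K) : OnePoint K))
      (if b = 0 then ∞ else ((b⁻¹ : K) : OnePoint K)) = (v g)⁻¹ * v (a - b) := by
  have hvg : v g ≠ 0 := vg v hg0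
  have hlt : ∀ {a : K}, a ≠ 0 → v a < v g → v g⁻¹ < v a⁻¹ := by
    intro a ha0 ha
    rw [map_inv₀, map_inv₀]
    exact (inv_lt_inv₀ (zero_lt_iff.2 hvg) (zero_lt_iff.2 ((Valuation.ne_zero_iff v).2 ha0))).2 ha
  by_cases ha0 : a = 0
  · by_cases hb0 : b = 0
    · rw [if_pos ha0, if_pos hb0, (um_delta v _).self, ha0, hb0, sub_self, map_zero, mul_zero]
    · rw [if_pos ha0, if_neg hb0, delta_symm, delta_infty v _ (hlt hb0 hb), ha0, zero_sub,
        Valuation.map_neg, map_inv₀, map_inv₀, div_inv_eq_mul]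
  · by_cases hb0 : b = 0
    · rw [if_neg ha0, if_pos hb0, delta_infty v _ (hlt ha0 ha), hb0, sub_zero, map_inv₀, map_inv₀,
        div_inv_eq_mul]
    · rw [if_neg ha0, if_neg hb0, delta_big v _ (hlt ha0 ha) (hlt hb0 hb)]
      have e : a⁻¹ - b⁻¹ = (b - a) * (a⁻¹ * b⁻¹) := by field_simp
      have ha1 := (Valuation.ne_zero_iff v).2 ha0
      have hb1 := (Valuation.ne_zero_iff v).2 hb0
      rw [e, map_mul, map_mul, map_inv₀, map_inv₀, map_inv₀, Valuation.map_sub_swap v b a]
      field_simp

theorem powExp_inv : PowExpC (d + 1) (delta v (dia g⁻¹ (inv_ne_zero hg0)))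
    (cls v (dia g⁻¹ (inv_ne_zero hg0))) (invMap P c) where
  maps := by
    intro z hz
    obtain ⟨w, hw, h1, -⟩ := inv_point hd hdeg hint hlead hc hg hg0 hz
    rw [h1, mem_cls_coe, small_eval hd hdeg hint hlead hc hg hw]
    exact (inv_le_one' hd hdeg hint hlead hc hg).trans_lt hc
  contr := by
    have hvg : v g ≠ 0 := vg v hg0
    intro z hz w hw hzw
    obtain ⟨a, ha, h1, h2⟩ := inv_point hd hdeg hint hlead hc hg hg0 hz
    obtain ⟨b, hb, h3, h4⟩ := inv_point hd hdeg hint hlead hc hg hg0 hw
    have hab : a ≠ b := by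
      rintro rfl
      exact hzw (h2.trans h4.symm)
    have h5 := small_eval hd hdeg hint hlead hc hg ha
    have h6 := small_eval hd hdeg hint hlead hc hg hb
    have h7 : v g⁻¹ < v c := (inv_le_one' hd hdeg hint hlead hc hg).trans_lt hc
    rw [h1, h3, delta_big v _ (by rw [h5]; exact h7) (by rw [h6]; exact h7), h5, h6,
      add_sub_add_right_eq_sub, h2, h4, inv_delta hg hg0 ha hb, map_inv₀]
    have hc0 : 0 < v c := zero_lt_one.trans hc
    have hab0 : 0 < v (a - b) := zero_lt_iff.2 ((Valuation.ne_zero_iff v).2 (sub_ne_zero.2 hab))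
    have h8 := eval_sub_le hdeg hint hg.one_le ha.le hb.le
    rw [div_lt_iff₀ (mul_pos hc0 hc0), mul_assoc]
    refine mul_lt_mul_of_pos_left (h8.trans_lt ?_) (zero_lt_iff.2 (inv_ne_zero hvg))
    rw [mul_comm]
    refine mul_lt_mul_of_pos_left ?_ hab0
    calc v g ^ (d - 1) ≤ v g ^ d := pow_le_pow_right' hg.one_le (by omega)
      _ ≤ v c := hg.le
      _ = v c * 1 := (mul_one _).symm
      _ < v c * v c := mul_lt_mul_of_pos_left hc hc0
  exp := by
    have hvg : v g ≠ 0 := vg v hg0
    -- a point outside of the class of infinity whose image is outside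
    have key : ∀ {x : K}, (x : OnePoint K) ∉ cls v (dia g⁻¹ (inv_ne_zero hg0)) →
        invMap P c (x : OnePoint K) ∉ cls v (dia g⁻¹ (inv_ne_zero hg0)) →
        x ≠ 0 ∧ invMap P c (x : OnePoint K) = ((P.eval x⁻¹ + c : K) : OnePoint K) ∧
          v (P.eval x⁻¹ + c) ≤ v g⁻¹ ∧ 1 < v g ∧ v x⁻¹ = v g := by
      intro x hx hx'
      have hx0 : x ≠ 0 := by
        rintro rfl
        apply hx'
        change (if (0 : K) = 0 then ∞ else ((P.eval (0 : K)⁻¹ + c : K) : OnePoint K)) ∈ _
        rw [if_pos rfl]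
        exact mem_cls_infty v _
      have h1 : invMap P c (x : OnePoint K) = ((P.eval x⁻¹ + c : K) : OnePoint K) := by
        change (if x = 0 then ∞ else ((P.eval x⁻¹ + c : K) : OnePoint K)) = _
        rw [if_neg hx0]
      rw [h1, mem_cls_coe, not_lt] at hx'
      rw [mem_cls_coe, not_lt, map_inv₀] at hx
      have h2 : v g ≤ v x⁻¹ := by
        rw [map_inv₀]
        exact (le_inv_comm₀ (zero_lt_iff.2 hvg)
          (zero_lt_iff.2 ((Valuation.ne_zero_iff v).2 hx0))).2 hx
      obtain ⟨h3, h4⟩ := crit' hd hdeg hint hlead hc hg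
        (hx'.trans (inv_le_one' hd hdeg hint hlead hc hg)) h2
      exact ⟨hx0, h1, hx', h3, h4⟩
    rcases hg.one_le.eq_or_lt with h1 | h1
    · refine ⟨v c, hc, fun z w hz hw hz' hw' _ => ?_⟩
      exfalso
      induction z using OnePoint.rec with
      | infty => exact hz (mem_cls_infty v _)
      | coe x => exact absurd h1.symm (key hz hz').2.2.2.1.ne'
    · refine ⟨v g, h1, fun z w hz hw hz' hw' hzw => ?_⟩
      induction z using OnePoint.rec with
      | infty => exact absurd (mem_cls_infty v _) hz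
      | coe x =>
        induction w using OnePoint.rec with
        | infty => exact absurd (mem_cls_infty v _) hw
        | coe y =>
          obtain ⟨hx0, ex, hx1, -, hx2⟩ := key hz hz'
          obtain ⟨hy0, ey, hy1, -, hy2⟩ := key hw hw'
          rw [mem_cls_coe, not_lt] at hz hw
          have hg1 : v g⁻¹ ≠ 0 := (Valuation.ne_zero_iff v).2 (inv_ne_zero hg0)
          have e : x⁻¹ - y⁻¹ = (y - x) * (x⁻¹ * y⁻¹) := by field_simp
          have e2 : v (x⁻¹ - y⁻¹) = v (x - y) * (v g * v g) := by
            rw [e, map_mul, map_mul, hx2, hy2, Valuation.map_sub_swap v y x]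
          rw [delta_small v _ hz hw, div_lt_one₀ (zero_lt_iff.2 hg1)] at hzw
          have h3 : v (x⁻¹ - y⁻¹) < v g := by
            rw [e2]
            calc v (x - y) * (v g * v g) < v g⁻¹ * (v g * v g) :=
                  mul_lt_mul_of_pos_right hzw (mul_pos (zero_lt_iff.2 hvg) (zero_lt_iff.2 hvg))
              _ = v g := by rw [map_inv₀, ← mul_assoc, inv_mul_cancel₀ hvg, one_mul]
          rw [ex, ey, delta_small v _ hz hw, delta_small v _ hx1 hy1, add_sub_add_right_eq_sub,
            eval_sub_eq hd hvd hdeg hint hlead h1 hx2 hy2 h3, e2]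
          obtain ⟨m, hm⟩ : ∃ m, d = m + 1 := ⟨d - 1, by omega⟩
          rw [hm, Nat.add_sub_cancel, pow_succ, pow_succ, ← mul_div_assoc]
          congr 1
          ac_rfl

end powexp

end UBR
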