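import Pool.Agent.UBR.CycLoc
import Pool.Agent.UBR.CrOdd
import Pool.Agent.UBC.FinalTri
import Pool.Agent.UBC.PLine.Rat

/-!
# Periods of compositions of rational functions
-/

set_option autoImplicit false

universe u

namespace UBR

open UBC Pool.Agent.UBC OnePoint NumberField IsDedekindDomain Polynomial WithZero

/-- the prime powers dividing the length of a cycle -/
theorem cyc_bound (K : Type u) [Field K] [NumberField K] [DecidableEq K] {n : ℕ} (hn : 4 ≤ n)
    (S : Set (HeightOneSpectrum (𝓞 K))) (hS : S.Finite) :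
    ∃ B : ℕ, ∀ f : ℕ → OnePoint K → OnePoint K,
      (∀ v : HeightOneSpectrum (𝓞 K), v ∉ S → Adm n (v.valuation K) (Set.range f)) →
      ∀ (ℓ : ℕ) (a : ℕ → OnePoint K) (k : ℕ), IsOrb f ℓ a k →
        (∀ e m : ℕ, Odd m → k = 2 ^ e * m → m ≤ B) ∧ (6 ≤ n → Even n → k ≤ B) := by
  obtain ⟨B0, hB0⟩ := cr_abs_odd K hn S hS
  obtain ⟨B1, hB1⟩ : ∃ B : ℕ, 6 ≤ n → Even n → ∀ (q s : ℕ), q.Prime → ∀ D : ℕ → ℕ → K,
      (∀ a b c d : ℕ, D a b * D c d - D c b * D a d = D a c * D b d) →
      (∀ i j : ℕ, i < q ^ s → j < q ^ s → i ≠ j → D i j ≠ 0) →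
      (∀ v : HeightOneSpectrum (𝓞 K), v ∉ S → LocD (v.valuation K) n (q ^ s) D) →
      q ^ s ≤ B := by
    by_cases h : 6 ≤ n ∧ Even n
    · obtain ⟨B, hB⟩ := cr_abs K h.1 h.2 S hS
      exact ⟨B, fun _ _ => hB⟩
    · exact ⟨0, fun h1 h2 => absurd ⟨h1, h2⟩ h⟩
  have hpl : ∀ (b : ℕ → OnePoint K) (i j i' j' : ℕ), wd (b i) (b j) * wd (b i') (b j') -
      wd (b i') (b j) * wd (b i) (b j') = wd (b i) (b i') * wd (b j) (b j') := by
    intro b i j i' j'
    unfold wd
    ring
  refine ⟨B0.factorial + B1.factorial, fun f hf ℓ a k h => ⟨fun e m hm hk => ?_, fun h6 hev => ?_⟩⟩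
  · refine (Nat.le_of_dvd (Nat.factorial_pos B0) ?_).trans (Nat.le_add_right _ _)
    rw [Nat.dvd_iff_prime_pow_dvd_dvd]
    intro q s hq hqs
    rcases Nat.eq_zero_or_pos s with rfl | hs
    · rw [pow_zero]
      exact one_dvd _
    have hq2 : q ≠ 2 := by
      rintro rfl
      have h1 : 2 ∣ m := (dvd_pow_self 2 hs.ne').trans hqs
      exact (Nat.not_even_iff_odd.2 hm) (even_iff_two_dvd.2 h1)
    obtain ⟨w, hw⟩ := hqs
    have h1 : IsOrb f (ℓ * (2 ^ e * w)) a (q ^ s) := h.sub (by rw [hk, hw]; ring)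
    refine Nat.dvd_factorial (pow_pos hq.pos s) ?_
    refine hB0 q s hq hq2 (fun i j => wd (a (ℓ * (2 ^ e * w) * i)) (a (ℓ * (2 ^ e * w) * j)))
      (fun i j i' j' => hpl (fun t => a (ℓ * (2 ^ e * w) * t)) i j i' j') ?_ ?_
    · intro i j hi hj hij h0
      exact h1.ne' hi hj hij (wd_eq_zero.1 h0)
    · intro v hv
      exact locD_of_adm (by omega) (hf v hv) h1
  · refine (Nat.le_of_dvd (Nat.factorial_pos B1) ?_).trans (Nat.le_add_left _ _)
    rw [Nat.dvd_iff_prime_pow_dvd_dvd]
    intro q s hq hqs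
    obtain ⟨w, hw⟩ := hqs
    have h1 : IsOrb f (ℓ * w) a (q ^ s) := h.sub (by rw [hw]; ring)
    refine Nat.dvd_factorial (pow_pos hq.pos s) ?_
    refine hB1 h6 hev q s hq (fun i j => wd (a (ℓ * w * i)) (a (ℓ * w * j)))
      (fun i j i' j' => hpl (fun t => a (ℓ * w * t)) i j i' j') ?_ ?_
    · intro i j hi hj hij h0
      exact h1.ne' hi hj hij (wd_eq_zero.1 h0)
    · intro v hv
      exact locD_of_adm (by omega) (hf v hv) h1

/-! ### Rational functions -/

section

variable {K : Type*} [Field K] [DecidableEq K]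

/-- the degree of a rational function -/
noncomputable def deg (f : RatFunc K) : ℕ := max f.num.natDegree f.denom.natDegree

/-- the point with homogeneous coordinates `[a : b]` -/
noncomputable def pt (a b : K) : OnePoint K := if b = 0 then ∞ else ((a / b : K) : OnePoint K)

/-- the value of a rational function at a point of the projective line -/
noncomputable def value (f : RatFunc K) (z : OnePoint K) : OnePoint K :=
  z.elim (pt (f.num.coeff (deg f)) (f.denom.coeff (deg f)))
    (fun x => pt (f.num.eval x) (f.denom.eval x))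

/-- the composition of the rational functions in the list `l` (the first one is applied first) -/
noncomputable def comp (l : List (RatFunc K)) (z : OnePoint K) : OnePoint K :=
  l.foldl (fun w f => value f w) z

lemma pt_coords {a b : K} (h : a ≠ 0 ∨ b ≠ 0) :
    ∃ c : K, c ≠ 0 ∧ a = c * c1 (pt a b) ∧ b = c * c2 (pt a b) := by
  unfold pt
  by_cases hb : b = 0
  · rw [if_pos hb, c1_infty, c2_infty]
    exact ⟨a, h.resolve_right fun h0 => h0 hb, by ring, by rw [hb]; ring⟩
  · rw [if_neg hb, c1_coe, c2_coe]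
    exact ⟨b, hb, by field_simp, by ring⟩

lemma ratRep_value (f : RatFunc K) : RatRep (deg f) f.num f.denom (value f) := by
  have hcop := RatFunc.isCoprime_num_denom f
  refine ⟨le_max_left _ _, le_max_right _ _, hcop, fun z => ?_⟩
  induction z using OnePoint.rec with
  | infty =>
    rw [ev_infty, ev_infty]
    refine pt_coords ?_
    rcases le_total f.num.natDegree f.denom.natDegree with h | h
    · right
      unfold deg
      rw [max_eq_right h]
      exact leadingCoeff_ne_zero.2 (RatFunc.denom_ne_zero f)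
    · rcases eq_or_ne f.num 0 with h0 | h0
      · right
        unfold deg
        rw [h0, natDegree_zero, Nat.zero_max]
        exact leadingCoeff_ne_zero.2 (RatFunc.denom_ne_zero f)
      · left
        unfold deg
        rw [max_eq_left h]
        exact leadingCoeff_ne_zero.2 h0
  | coe x =>
    rw [ev_coe, ev_coe]
    refine pt_coords ?_
    by_contra hcon
    push Not at hcon
    obtain ⟨a, b, hab⟩ := hcop
    have h1 := congrArg (eval x) hab
    rw [eval_add, eval_mul, eval_mul, hcon.1, hcon.2, mul_zero, mul_zero, add_zero, eval_one] at h1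
    exact zero_ne_one h1

lemma isRat_comp (l : List (RatFunc K)) : IsRat ((l.map deg).prod) (comp l) := by
  have key : ∀ (l : List (RatFunc K)) (e : ℕ) (ψ : OnePoint K → OnePoint K), IsRat e ψ →
      IsRat ((l.map deg).prod * e) (fun z => l.foldl (fun w f => value f w) (ψ z)) := by
    intro l
    induction l with
    | nil =>
      intro e ψ h
      simpa using h
    | cons f l ih =>
      intro e ψ h
      have h1 : IsRat (deg f * e) (value f ∘ ψ) := IsRat.comp ⟨_, _, ratRep_value f⟩ h
      have h2 := ih _ _ h1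
      rw [List.map_cons, List.prod_cons]
      rw [show deg f * (l.map deg).prod * e = (l.map deg).prod * (deg f * e) by ring]
      exact h2
  have h := key l 1 id isRat_id
  rw [mul_one] at h
  exact h

lemma two_le_prod {l : List ℕ} (h : ∀ d ∈ l, 2 ≤ d) (hne : l ≠ []) : 2 ≤ l.prod := by
  induction l with
  | nil => exact absurd rfl hne
  | cons d l ih =>
    rw [List.prod_cons]
    have h1 := h d List.mem_cons_self
    rcases eq_or_ne l [] with h2 | h2
    · rw [h2]
      simpa using h1
    · have h3 := ih (fun e he => h e (List.mem_cons_of_mem _ he)) h2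
      calc 2 ≤ 2 * 2 := by norm_num
        _ ≤ d * l.prod := Nat.mul_le_mul h1 h3

/-- a bound for the periods gives a bound for the number of points -/
theorem card_of_period {l : List (RatFunc K)} (hl : ∀ f ∈ l, 2 ≤ deg f) (hne : l ≠ []) (B : ℕ)
    (T : Set (OnePoint K)) (hT : ∀ x ∈ T, 0 < Function.minimalPeriod (comp l) x ∧
      Function.minimalPeriod (comp l) x ≤ B) :
    T.encard ≤ ((((l.map deg).prod) ^ (3 * B) : ℕ) : ℕ∞) := by
  classical
  have h2 : 2 ≤ (l.map deg).prod := by
    refine two_le_prod ?_ (by simpa using hne)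
    intro d hd
    obtain ⟨f, hf, rfl⟩ := List.mem_map.1 hd
    exact hl f hf
  set D : ℕ := (l.map deg).prod with hD
  set F : OnePoint K → OnePoint K := comp l with hF
  have hsub : T ⊆ ⋃ k ∈ Finset.Icc 1 B, {x : OnePoint K | F^[k] x = x} := by
    intro x hx
    obtain ⟨h1, h2⟩ := hT x hx
    rw [Set.mem_iUnion₂]
    exact ⟨Function.minimalPeriod F x, Finset.mem_Icc.2 ⟨h1, h2⟩,
      Function.iterate_minimalPeriod⟩
  refine (Set.encard_le_encard hsub).trans ?_
  have h3 : (⋃ k ∈ Finset.Icc 1 B, {x : OnePoint K | F^[k] x = x}).encard ≤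
      ∑ k ∈ Finset.Icc 1 B, {x : OnePoint K | F^[k] x = x}.encard := by
    induction Finset.Icc 1 B using Finset.induction_on with
    | empty => simp
    | insert a s ha ih =>
      rw [Finset.set_biUnion_insert, Finset.sum_insert ha]
      exact (Set.encard_union_le _ _).trans (add_le_add le_rfl ih)
  refine h3.trans ?_
  have hfix : ∀ k, 1 ≤ k → {x : OnePoint K | F^[k] x = x}.encard ≤ ((D ^ k + 2 : ℕ) : ℕ∞) := by
    intro k hk
    have hr : IsRat (D ^ k) (F^[k]) := (isRat_comp l).iterate k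
    have hDk : 2 ≤ D ^ k := h2.trans (Nat.le_self_pow (by omega) D)
    have hfin : ∀ A : Finset (OnePoint K), (A : Set (OnePoint K)) ⊆ {x | F^[k] x = x} →
        A.card ≤ D ^ k + 2 := fun A hA => hr.fixed_card hDk A fun z hz => hA hz
    by_contra hcon
    rw [not_le] at hcon
    have h4 : ((D ^ k + 2 + 1 : ℕ) : ℕ∞) ≤ {x : OnePoint K | F^[k] x = x}.encard := by
      rw [Nat.cast_add, Nat.cast_one]
      exact Order.add_one_le_of_lt hcon
    obtain ⟨A, hA1, hA2⟩ := Set.exists_subset_encard_eq h4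
    have hAf : A.Finite := Set.finite_of_encard_eq_coe hA2
    have h5 := hfin hAf.toFinset (by rw [hAf.coe_toFinset]; exact hA1)
    rw [hAf.encard_eq_coe_toFinset_card] at hA2
    have h6 : hAf.toFinset.card = D ^ k + 2 + 1 := by exact_mod_cast hA2
    omega
  have h4 : ∑ k ∈ Finset.Icc 1 B, {x : OnePoint K | F^[k] x = x}.encard ≤
      ∑ k ∈ Finset.Icc 1 B, ((D ^ B * 2 : ℕ) : ℕ∞) := by
    refine Finset.sum_le_sum fun k hk => ?_
    rw [Finset.mem_Icc] at hk
    refine (hfix k hk.1).trans ?_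
    have h5 : D ^ k ≤ D ^ B := Nat.pow_le_pow_right (by omega) hk.2
    have h6 : 2 ≤ D ^ B := h2.trans (Nat.le_self_pow (by omega) D)
    have h7 : D ^ k + 2 ≤ D ^ B * 2 := by omega
    exact_mod_cast h7
  refine h4.trans ?_
  rw [Finset.sum_const, Nat.card_Icc, Nat.add_sub_cancel, nsmul_eq_mul]
  rcases Nat.eq_zero_or_pos B with rfl | hB
  · simp
  have h6 : B * (D ^ B * 2) ≤ D ^ (3 * B) := by
    have e : D ^ (3 * B) = D ^ B * (D ^ B * D ^ B) := by
      rw [← pow_add, ← pow_add]
      congr 1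
      omega
    rw [e]
    refine Nat.mul_le_mul ?_ (Nat.mul_le_mul_left _ (h2.trans (Nat.le_self_pow (by omega) D)))
    exact (Nat.lt_two_pow_self).le.trans (Nat.pow_le_pow_left h2 B)
  exact_mod_cast h6

/-- the cycle of a periodic point of a composition -/
theorem isOrb_comp {l : List (RatFunc K)} (hl : l ≠ []) (x : OnePoint K) {p : ℕ}
    (hp : 0 < p) (hx : Function.minimalPeriod (comp l) x = p) :
    IsOrb (fun i => value (ListSeq.letter 0 l i)) l.length
      (ListSeq.orb (fun w (f : RatFunc K) => value f w) 0 l x) p := by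
  have hpos : 0 < l.length := List.length_pos_iff.2 hl
  have hit : ∀ (k i : ℕ), ListSeq.orb (fun w (f : RatFunc K) => value f w) 0 l x
      (i + l.length * k) =
      ListSeq.orb (fun w (f : RatFunc K) => value f w) 0 l ((comp l)^[k] x) i := fun k i =>
    ListSeq.orb_add_mul (fun w (f : RatFunc K) => value f w) 0 l k x i
  refine ⟨hpos, hp, fun i => ?_, fun i => ?_, fun i => ?_, fun j hj hjp => ?_⟩
  · unfold ListSeq.letter
    rw [Nat.add_mod_right]
  · rw [ListSeq.orb_succ]
  · rw [hit, ← hx, Function.iterate_minimalPeriod]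
  · have h1 := hit j 0
    rw [Nat.zero_add] at h1
    rw [h1]
    change (comp l)^[j] x ≠ x
    intro h2
    exact Function.not_isPeriodicPt_of_pos_of_lt_minimalPeriod hj.ne' (by rw [hx]; exact hjp) h2

end

/-- the complete statement -/
theorem uniform_rat (K : Type u) [Field K] [NumberField K] [DecidableEq K] {n : ℕ} (hn : 4 ≤ n)
    (S : Set (HeightOneSpectrum (𝓞 K))) (hS : S.Finite) :
    ∃ B : ℕ, ∀ l : List (RatFunc K), l ≠ [] → (∀ f ∈ l, 2 ≤ deg f) →
      (∀ v : HeightOneSpectrum (𝓞 K), v ∉ S →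
        Adm n (v.valuation K) {g | ∃ f ∈ l, g = value f}) →
      (∀ (x : OnePoint K) (e m : ℕ), Odd m → Function.minimalPeriod (comp l) x = 2 ^ e * m →
        m ≤ B) ∧
      {x : OnePoint K | Odd (Function.minimalPeriod (comp l) x)}.encard ≤
        ((((l.map deg).prod) ^ B : ℕ) : ℕ∞) ∧
      (6 ≤ n → Even n → (∀ x : OnePoint K, Function.minimalPeriod (comp l) x ≤ B) ∧
        {x : OnePoint K | x ∈ Function.periodicPts (comp l)}.encard ≤
          ((((l.map deg).prod) ^ B : ℕ) : ℕ∞)) := by
  obtain ⟨B0, hB0⟩ := cyc_bound K hn S hS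
  refine ⟨3 * B0, fun l hl hdeg hp => ?_⟩
  have hp' : ∀ v : HeightOneSpectrum (𝓞 K), v ∉ S →
      Adm n (v.valuation K) (Set.range fun i => value (ListSeq.letter 0 l i)) := by
    intro v hv
    obtain ⟨σ, U, hσ⟩ := hp v hv
    refine ⟨σ, U, ?_⟩
    rintro f ⟨i, rfl⟩
    exact hσ _ ⟨_, ListSeq.letter_mem 0 hl i, rfl⟩
  have hodd : ∀ (x : OnePoint K) (e m : ℕ), Odd m →
      Function.minimalPeriod (comp l) x = 2 ^ e * m → m ≤ B0 := by
    intro x e m hm hx
    exact (hB0 _ hp' _ _ _ (isOrb_comp hl x (Nat.mul_pos (by positivity) hm.pos) hx)).1 e m hm rfl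
  have hall : 6 ≤ n → Even n → ∀ x : OnePoint K, Function.minimalPeriod (comp l) x ≤ B0 := by
    intro h6 hev x
    rcases Nat.eq_zero_or_pos (Function.minimalPeriod (comp l) x) with h | h
    · rw [h]
      exact Nat.zero_le _
    · exact (hB0 _ hp' _ _ _ (isOrb_comp hl x h rfl)).2 h6 hev
  refine ⟨fun x e m hm hx => ?_, ?_, fun h6 hev => ⟨fun x => ?_, ?_⟩⟩
  · have := hodd x e m hm hx
    omega
  · refine card_of_period hdeg hl B0 _ ?_
    intro x hx
    have hx' : Odd (Function.minimalPeriod (comp l) x) := hx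
    exact ⟨hx'.pos, hodd x 0 _ hx' (by rw [pow_zero, one_mul])⟩
  · have := hall h6 hev x
    omega
  · refine card_of_period hdeg hl B0 _ ?_
    intro x hx
    have hx' : x ∈ Function.periodicPts (comp l) := hx
    exact ⟨Function.minimalPeriod_pos_of_mem_periodicPts hx', hall h6 hev x⟩

end UBR
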