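import Pool.Agent.UBR.Bridge
import Pool.Agent.UBR.Final
import Pool.Agent.UBC.SelExt

/-!
# The maps `b ^ n ψ(z)`
-/

set_option autoImplicit false

universe u

namespace UBR.ExPow

open UBR UBC Pool.Agent.UBC OnePoint NumberField IsDedekindDomain Polynomial WithZero BadAux

section

variable {K : Type*} [Field K]

lemma hom_co (e : ℕ) {F : K[X]} (hF : F.natDegree ≤ e) (z : OnePoint K) :
    hom e F (co z).1 (co z).2 = ev e F z := by
  have h := sum_coords hF 1 z
  simp only [one_mul, one_pow] at h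
  exact h

lemma ev_mul {e e' : ℕ} {F G : K[X]} (hF : F.natDegree ≤ e) (hG : G.natDegree ≤ e')
    (z : OnePoint K) : ev (e + e') (F * G) z = ev e F z * ev e' G z := by
  induction z using OnePoint.rec with
  | infty => rw [ev_infty, ev_infty, ev_infty, coeff_mul_add_eq_of_natDegree_le hF hG]
  | coe x => rw [ev_coe, ev_coe, ev_coe, eval_mul]

lemma rep_of_eq [DecidableEq K] {f : RatFunc K} {e : ℕ} {F G : K[X]} (hF : F.natDegree ≤ e)
    (hG : G.natDegree ≤ e) (hfg : F * f.denom = G * f.num)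
    (hne : ∀ z, mapR e F G (co z) ≠ 0) : Rep e F G (value f) := by
  intro z
  have h1 : ev e F z * ev (deg f) f.denom z = ev e G z * ev (deg f) f.num z := by
    rw [← ev_mul hF (ratRep_value f).dG, ← ev_mul hG (ratRep_value f).dF, hfg]
  obtain ⟨c, hc, h2, h3⟩ := (ratRep_value f).rep z
  rw [h2, h3] at h1
  have h4 : ev e F z * c2 (value f z) = ev e G z * c1 (value f z) :=
    mul_left_cancel₀ hc (by linear_combination h1)
  have h5 : mapR e F G (co z) = (ev e F z, ev e G z) := by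
    unfold mapR
    rw [hom_co e hF, hom_co e hG]
  have h6 := hne z
  rw [h5] at h6 ⊢
  generalize value f z = w at h4 ⊢
  induction w using OnePoint.rec with
  | infty =>
    rw [c1_infty, c2_infty, mul_zero, mul_one] at h4
    refine ⟨ev e F z, ?_, ?_⟩
    · intro h0
      exact h6 (Prod.ext h0 h4.symm)
    · refine Prod.ext ?_ ?_
      · simp [co]
      · simp [co, ← h4]
  | coe x =>
    rw [c1_coe, c2_coe, mul_one] at h4
    refine ⟨ev e G z, ?_, ?_⟩
    · intro h0
      rw [h0, zero_mul] at h4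
      exact h6 (Prod.ext h4 h0)
    · refine Prod.ext ?_ ?_
      · simpa [co] using h4
      · simp [co]

lemma val_nat_le (v : Valuation K ℤᵐ⁰) (m : ℕ) : v (m : K) ≤ 1 := by
  induction m with
  | zero => simp
  | succ m ih =>
    rw [Nat.cast_add, Nat.cast_one]
    exact (Valuation.map_add v _ _).trans (max_le ih (by rw [map_one]))

lemma int_eval {v : Valuation K ℤᵐ⁰} {F : K[X]} (hF : ∀ i, v (F.coeff i) ≤ 1) {x : K}
    (hx : v x ≤ 1) : v (F.eval x) ≤ 1 := by
  rw [eval_eq_sum_range]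
  refine Valuation.map_sum_le v fun i _ => ?_
  rw [map_mul, map_pow]
  exact mul_le_one' (hF i) (pow_le_one₀ zero_le hx)

lemma bezout_lt {v : Valuation K ℤᵐ⁰} {A F B G : K[X]} (hA : ∀ i, v (A.coeff i) ≤ 1)
    (hB : ∀ i, v (B.coeff i) ≤ 1) (hG : ∀ i, v (G.coeff i) ≤ 1) (hab : A * F + B * G = 1) {x : K}
    (hx : v x ≤ 1) (hFx : v (F.eval x) < 1) : v (G.eval x) = 1 := by
  refine le_antisymm (int_eval hG hx) (not_lt.1 fun hlt => ?_)
  have h1 := congrArg (eval x) hab
  rw [eval_add, eval_mul, eval_mul, eval_one] at h1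
  have h2 : v (A.eval x * F.eval x + B.eval x * G.eval x) < 1 := by
    refine (Valuation.map_add v _ _).trans_lt (max_lt ?_ ?_)
    · rw [map_mul]
      exact mul_lt_one_of_nonneg_of_lt_one_right (int_eval hA hx) zero_le hFx
    · rw [map_mul]
      exact mul_lt_one_of_nonneg_of_lt_one_right (int_eval hB hx) zero_le hlt
  rw [h1, map_one] at h2
  exact lt_irrefl _ h2

lemma goodAt_of {v : Valuation K ℤᵐ⁰} {e : ℕ} {A F B G : K[X]} (dF : F.natDegree ≤ e)
    (dG : G.natDegree ≤ e) (hA : ∀ i, v (A.coeff i) ≤ 1) (hF : ∀ i, v (F.coeff i) ≤ 1)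
    (hB : ∀ i, v (B.coeff i) ≤ 1) (hG : ∀ i, v (G.coeff i) ≤ 1) (hab : A * F + B * G = 1)
    (lead : v (F.coeff e) = 1) : GoodAt v e F G := by
  refine ⟨hF, hG, fun P hP => ?_⟩
  have hle : ∀ {H : K[X]}, (∀ i, v (H.coeff i) ≤ 1) → v (hom e H P.1 P.2) ≤ 1 := by
    intro H hH
    have := hom_le (d := e) hH P
    rwa [hP, one_pow] at this
  by_cases hatt : Att v P
  · have h1 := hom_att hF lead hatt
    have h2 : v P.1 = 1 := by rw [← att_nrm hatt, hP]
    rw [h2, one_pow] at h1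
    unfold nrm mapR
    simp only
    rw [h1]
    exact max_eq_left (hle hG)
  · have hP0 : P ≠ 0 := by
      rintro rfl
      have : nrm v (0 : K × K) = 0 := by
        unfold nrm
        simp
      rw [this] at hP
      exact zero_ne_one hP
    obtain ⟨hy, hz⟩ := int_point hP0 hatt
    have h2 : v P.2 = 1 := by
      unfold Att at hatt
      rw [not_lt] at hatt
      have : nrm v P = v P.2 := max_eq_right hatt
      rw [← this, hP]
    unfold nrm mapR
    simp only
    rw [hom_eq dF hy, hom_eq dG hy, map_mul, map_mul, map_pow, h2, one_pow, one_mul, one_mul]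
    rcases (int_eval hF hz).eq_or_lt with h3 | h3
    · rw [h3]
      exact max_eq_left (int_eval hG hz)
    · rw [bezout_lt hA hB hG hab hz h3]
      exact max_eq_right h3.le

lemma hom_reflect (e : ℕ) (F : K[X]) (x y : K) : hom e (reflect e F) x y = hom e F y x := by
  unfold hom
  rw [← Finset.sum_range_reflect]
  refine Finset.sum_congr rfl fun i hi => ?_
  rw [Finset.mem_range] at hi
  have h1 : e + 1 - 1 - i = e - i := by omega
  rw [h1, coeff_reflect, revAt_le (Nat.sub_le e i), show e - (e - i) = i by omega]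
  ring

lemma goodAt_reflect {v : Valuation K ℤᵐ⁰} {e : ℕ} {F G : K[X]} (h : GoodAt v e F G) :
    GoodAt v e (reflect e G) (reflect e F) := by
  refine ⟨fun i => ?_, fun i => ?_, fun P hP => ?_⟩
  · rw [coeff_reflect]
    exact h.hG _
  · rw [coeff_reflect]
    exact h.hF _
  · have h1 : nrm v ((P.2, P.1) : K × K) = 1 := by
      rw [← hP]
      unfold nrm
      exact max_comm _ _
    have h2 := h.hne _ h1
    rw [← h2]
    unfold nrm mapR
    simp only [hom_reflect]
    exact max_comm _ _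

lemma goodAt_unit {v : Valuation K ℤᵐ⁰} {e : ℕ} {F G : K[X]} (h : GoodAt v e F G) {u : K}
    (hu : v u = 1) : GoodAt v e F (C u * G) := by
  refine ⟨h.hF, fun i => ?_, fun P hP => ?_⟩
  · rw [coeff_C_mul, map_mul, hu, one_mul]
    exact h.hG i
  · rw [← h.hne P hP]
    unfold nrm mapR
    simp only [hom_C_mul, map_mul, hu, one_mul]

/-- the exchange of zero and infinity -/
noncomputable def swapGL (K : Type*) [Field K] : GL (Fin 2) K :=
  Matrix.GeneralLinearGroup.mkOfDetNeZero !![0, 1; 1, 0] (by simp [Matrix.det_fin_two])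

lemma swap_coords [DecidableEq K] (z : OnePoint K) :
    ∃ c : K, c ≠ 0 ∧ co (swapGL K • z) = c • ((co z).2, (co z).1) := by
  obtain ⟨c, hc, h1, h2⟩ := mobius_coords (swapGL K) z
  refine ⟨c, hc, Prod.ext ?_ ?_⟩
  · change c1 (swapGL K • z) = c * c2 z
    rw [h1]
    simp [swapGL, Matrix.GeneralLinearGroup.mkOfDetNeZero]
  · change c2 (swapGL K • z) = c * c1 z
    rw [h2]
    simp [swapGL, Matrix.GeneralLinearGroup.mkOfDetNeZero]

/-- forms for the map in the coordinate at infinity -/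
lemma rep_swap [DecidableEq K] {e : ℕ} {F G : K[X]} {f : OnePoint K → OnePoint K}
    (hf : Rep e F G f) :
    Rep e (reflect e G) (reflect e F) (fun w => swapGL K • f ((swapGL K)⁻¹ • w)) := by
  intro w
  obtain ⟨c, hc, h1⟩ := swap_coords ((swapGL K)⁻¹ • w)
  rw [smul_inv_smul] at h1
  obtain ⟨c', hc', h2⟩ := hf ((swapGL K)⁻¹ • w)
  obtain ⟨c'', hc'', h3⟩ := swap_coords (f ((swapGL K)⁻¹ • w))
  set z := (swapGL K)⁻¹ • w with hz
  refine ⟨c ^ e * c' * c''⁻¹, mul_ne_zero (mul_ne_zero (pow_ne_zero _ hc) hc')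
    (inv_ne_zero hc''), ?_⟩
  rw [h3, h1, mapR_smul]
  have h4 : mapR e (reflect e G) (reflect e F) ((co z).2, (co z).1) =
      ((mapR e F G (co z)).2, (mapR e F G (co z)).1) := by
    unfold mapR
    simp only [hom_reflect]
  rw [h4, h2, smul_smul, mul_assoc _ _ c'', inv_mul_cancel₀ hc'', mul_one, mul_smul]
  rfl

end

section

variable {K : Type u} [Field K] [NumberField K]

lemma finite_nonint (F : K[X]) :
    {v : HeightOneSpectrum (𝓞 K) | ¬ ∀ i, v.valuation K (F.coeff i) ≤ 1}.Finite := by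
  have h1 : (⋃ i ∈ F.support, {v : HeightOneSpectrum (𝓞 K) | v.valuation K (F.coeff i) ≠ 1}).Finite :=
    Set.Finite.biUnion F.support.finite_toSet fun i hi =>
      finite_nonunit K _ (mem_support_iff.1 hi)
  refine h1.subset ?_
  intro v hv
  simp only [Set.mem_ofPred_eq, not_forall, not_le] at hv
  obtain ⟨i, hi⟩ := hv
  rw [Set.mem_iUnion₂]
  refine ⟨i, ?_, ?_⟩
  · rw [mem_support_iff]
    intro h0
    rw [h0, map_zero] at hi
    exact absurd hi (not_lt.2 zero_le)
  · exact hi.ne'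

variable [DecidableEq K]

/-- the local type of the maps `b ^ n ψ(z)` -/
theorem powExp_pow (ψ : RatFunc K) (hd : 1 ≤ deg ψ)
    (h1 : ψ.denom.natDegree ≤ ψ.num.natDegree) (h2 : ψ.num.Separable)
    (h3 : ψ.denom.coeff 0 ≠ 0) (h4 : (reflect (deg ψ) ψ.denom).Separable) :
    ∃ S : Set (HeightOneSpectrum (𝓞 K)), S.Finite ∧ ∀ n : ℕ, 0 < n → ∀ b : K, b ≠ 0 →
      ∀ v : HeightOneSpectrum (𝓞 K), v ∉ S →
      (v.valuation K b = 1 → PowExp n (delta (v.valuation K) 1) Set.univ
        (value (RatFunc.C (b ^ n) * ψ))) ∧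
      (1 < v.valuation K b → PowExp n (delta (v.valuation K) 1) (cls (v.valuation K) 1)
        (value (RatFunc.C (b ^ n) * ψ))) ∧
      (v.valuation K b < 1 → PowExp n (delta (v.valuation K) (swapGL K))
        (cls (v.valuation K) (swapGL K)) (value (RatFunc.C (b ^ n) * ψ))) := by
  set e := deg ψ with he
  set F := ψ.num with hF
  set G := ψ.denom with hG
  obtain ⟨A, B, hAB⟩ := RatFunc.isCoprime_num_denom ψ
  obtain ⟨A2, B2, hAB2⟩ := h2
  obtain ⟨A3, B3, hAB3⟩ := h4
  have heF : e = F.natDegree := max_eq_left h1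
  have hF0 : F ≠ 0 := by
    intro h0
    rw [h0] at heF
    simp at heF
    omega
  have hlead : F.coeff e ≠ 0 := by
    rw [heF]
    exact leadingCoeff_ne_zero.2 hF0
  refine ⟨({v | ¬ ∀ i, v.valuation K (F.coeff i) ≤ 1} ∪ {v | ¬ ∀ i, v.valuation K (G.coeff i) ≤ 1}) ∪
    ({v | ¬ ∀ i, v.valuation K (A.coeff i) ≤ 1} ∪ {v | ¬ ∀ i, v.valuation K (B.coeff i) ≤ 1}) ∪
    ({v | ¬ ∀ i, v.valuation K (A2.coeff i) ≤ 1} ∪ {v | ¬ ∀ i, v.valuation K (B2.coeff i) ≤ 1}) ∪
    ({v | ¬ ∀ i, v.valuation K (A3.coeff i) ≤ 1} ∪ {v | ¬ ∀ i, v.valuation K (B3.coeff i) ≤ 1}) ∪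
    ({v | v.valuation K (F.coeff e) ≠ 1} ∪ {v | v.valuation K (G.coeff 0) ≠ 1}), ?_, ?_⟩
  · exact (((((finite_nonint F).union (finite_nonint G)).union
      ((finite_nonint A).union (finite_nonint B))).union
      ((finite_nonint A2).union (finite_nonint B2))).union
      ((finite_nonint A3).union (finite_nonint B3))).union
      ((finite_nonunit K _ hlead).union (finite_nonunit K _ h3))
  intro n hn b hb v hv
  simp only [Set.mem_union, Set.mem_ofPred_eq, not_or, not_not] at hv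
  obtain ⟨⟨⟨⟨⟨iF, iG⟩, iA, iB⟩, iA2, iB2⟩, iA3, iB3⟩, uF, uG⟩ := hv
  have dF : F.natDegree ≤ e := heF.ge
  have dG : G.natDegree ≤ e := le_max_right _ _
  have hgood : GoodAt (v.valuation K) e F G := goodAt_of dF dG iA iF iB iG hAB uF
  have hder : ∀ {H : K[X]}, (∀ i, v.valuation K (H.coeff i) ≤ 1) →
      ∀ i, v.valuation K (H.derivative.coeff i) ≤ 1 := by
    intro H hH i
    rw [coeff_derivative, map_mul]
    refine mul_le_one' (hH _) ?_
    have : ((i : K) + 1) = ((i + 1 : ℕ) : K) := by push_cast; ring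
    rw [this]
    exact val_nat_le _ _
  have hbad : BadAt (v.valuation K) e F G :=
    ⟨hgood, dF, dG, uF, fun y hy hlt => bezout_lt iA2 iB2 (hder iF) hAB2 hy hlt⟩
  have iGr : ∀ i, v.valuation K ((reflect e G).coeff i) ≤ 1 := fun i => by
    rw [coeff_reflect]
    exact iG _
  have dr : ∀ {H : K[X]}, H.natDegree ≤ e → (reflect e H).natDegree ≤ e := fun h =>
    natDegree_reflect_le.trans (max_le le_rfl h)
  have hbadr : BadAt (v.valuation K) e (reflect e G) (reflect e F) :=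
    ⟨goodAt_reflect hgood, dr dG, dr dF, by rw [coeff_reflect, revAt_le le_rfl, Nat.sub_self, uG],
      fun y hy hlt => bezout_lt iA3 iB3 (hder iGr) hAB3 hy hlt⟩
  set f : RatFunc K := RatFunc.C (b ^ n) * ψ with hf
  have hbn : b ^ n ≠ 0 := pow_ne_zero _ hb
  -- the cross relation
  have hcross : f.num * G = C (b ^ n) * F * f.denom := by
    have k1 := RatFunc.num_div_denom f
    have k2 := RatFunc.num_div_denom ψ
    have g1 : algebraMap K[X] (RatFunc K) f.denom ≠ 0 :=
      RatFunc.algebraMap_ne_zero (RatFunc.denom_ne_zero f)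
    have g2 : algebraMap K[X] (RatFunc K) G ≠ 0 :=
      RatFunc.algebraMap_ne_zero (RatFunc.denom_ne_zero ψ)
    have k3 : algebraMap K[X] (RatFunc K) f.num / algebraMap K[X] (RatFunc K) f.denom =
        algebraMap K[X] (RatFunc K) (C (b ^ n)) *
          (algebraMap K[X] (RatFunc K) F / algebraMap K[X] (RatFunc K) G) := by
      rw [k1, k2, RatFunc.algebraMap_C]
    apply RatFunc.algebraMap_injective K
    rw [map_mul, map_mul, map_mul]
    field_simp at k3
    linear_combination k3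
  have hrep : Rep e F (C ((b⁻¹) ^ n) * G) (value f) := by
    refine rep_of_eq dF ((natDegree_C_mul_le _ _).trans dG) ?_ ?_
    · have k : C ((b⁻¹) ^ n) * C (b ^ n) = (1 : K[X]) := by
        rw [← C_mul, ← mul_pow, inv_mul_cancel₀ hb, one_pow, C_1]
      linear_combination (-(C ((b⁻¹) ^ n))) * hcross - F * f.denom * k
    · intro z h0
      have k := hgood.map_ne (co_ne z)
      apply k
      unfold mapR at h0 ⊢
      simp only [hom_C_mul] at h0
      have e1 := congrArg Prod.fst h0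
      have e2 := congrArg Prod.snd h0
      simp only [Prod.fst_zero, Prod.snd_zero, mul_eq_zero] at e1 e2
      exact Prod.ext e1 (e2.resolve_left (pow_ne_zero _ (inv_ne_zero hb)))
  have hrep' : Rep e (C (b ^ n) * F) G (value f) := by
    intro z
    obtain ⟨c, hc, hz⟩ := hrep z
    refine ⟨b ^ n * c, mul_ne_zero hbn hc, ?_⟩
    rw [mul_smul, ← hz]
    unfold mapR
    simp only [hom_C_mul, Prod.smul_mk, smul_eq_mul]
    refine Prod.ext rfl ?_
    simp only
    rw [← mul_assoc, ← mul_pow, mul_inv_cancel₀ hb, one_pow, one_mul]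
  have hrepr : Rep e (reflect e G) (C (b ^ n) * reflect e F)
      (fun w => swapGL K • value f ((swapGL K)⁻¹ • w)) := by
    have := rep_swap hrep'
    rwa [reflect_C_mul] at this
  have hvi : v.valuation K b⁻¹ = (v.valuation K b)⁻¹ := map_inv₀ _ _
  refine ⟨fun hb1 => ?_, fun hb1 => ?_, fun hb1 => ?_⟩
  · have hu : v.valuation K ((b⁻¹) ^ n) = 1 := by rw [map_pow, hvi, hb1, inv_one, one_pow]
    exact good_powExp hd (goodAt_unit hgood hu) hrep fun x => by rw [one_smul, one_smul]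
  · refine bad_powExp hn (inv_ne_zero hb) ?_ hd hbad hrep fun x => by rw [one_smul, one_smul]
    rw [hvi]
    exact inv_lt_one_of_one_lt₀ hb1
  · refine bad_powExp hn hb hb1 hd hbadr hrepr fun x => ?_
    rw [inv_smul_smul]

/-- the maps `b ^ n ψ(z)`, `ψ` in a finite set, satisfy the local condition outside of a finite set
of primes which does not depend on `b` -/
theorem adm_pow (T : Finset (RatFunc K)) (hT : ∀ ψ ∈ T, 1 ≤ deg ψ ∧
      ψ.denom.natDegree ≤ ψ.num.natDegree ∧ ψ.num.Separable ∧ ψ.denom.coeff 0 ≠ 0 ∧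
      (reflect (deg ψ) ψ.denom).Separable) :
    ∃ S : Set (HeightOneSpectrum (𝓞 K)), S.Finite ∧ ∀ n : ℕ, 0 < n → ∀ b : K, b ≠ 0 →
      ∀ v : HeightOneSpectrum (𝓞 K), v ∉ S →
      Adm n (v.valuation K) {g | ∃ ψ ∈ T, g = value (RatFunc.C (b ^ n) * ψ)} := by
  classical
  have hall : ∀ ψ : RatFunc K, ∃ S : Set (HeightOneSpectrum (𝓞 K)), S.Finite ∧ (ψ ∈ T →
      ∀ n : ℕ, 0 < n → ∀ b : K, b ≠ 0 → ∀ v : HeightOneSpectrum (𝓞 K), v ∉ S →
      (v.valuation K b = 1 → PowExp n (delta (v.valuation K) 1) Set.univ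
        (value (RatFunc.C (b ^ n) * ψ))) ∧
      (1 < v.valuation K b → PowExp n (delta (v.valuation K) 1) (cls (v.valuation K) 1)
        (value (RatFunc.C (b ^ n) * ψ))) ∧
      (v.valuation K b < 1 → PowExp n (delta (v.valuation K) (swapGL K))
        (cls (v.valuation K) (swapGL K)) (value (RatFunc.C (b ^ n) * ψ)))) := by
    intro ψ
    by_cases hψ : ψ ∈ T
    · obtain ⟨h0, h1, h2, h3, h4⟩ := hT ψ hψ
      obtain ⟨S, hS, h⟩ := powExp_pow ψ h0 h1 h2 h3 h4
      exact ⟨S, hS, fun _ => h⟩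
    · exact ⟨∅, Set.finite_empty, fun h => absurd h hψ⟩
  choose S hS hSψ using hall
  refine ⟨⋃ ψ ∈ T, S ψ, Set.Finite.biUnion T.finite_toSet fun ψ _ => hS ψ, ?_⟩
  intro n hn b hb v hv
  rw [Set.mem_iUnion₂, not_exists] at hv
  have hv' : ∀ ψ ∈ T, v ∉ S ψ := fun ψ hψ h => hv ψ ⟨hψ, h⟩
  rcases lt_trichotomy (v.valuation K b) 1 with h | h | h
  · refine ⟨swapGL K, cls (v.valuation K) (swapGL K), ?_⟩
    rintro g ⟨ψ, hψ, rfl⟩
    exact (hSψ ψ hψ n hn b hb v (hv' ψ hψ)).2.2 h
  · refine ⟨1, Set.univ, ?_⟩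
    rintro g ⟨ψ, hψ, rfl⟩
    exact (hSψ ψ hψ n hn b hb v (hv' ψ hψ)).1 h
  · refine ⟨1, cls (v.valuation K) 1, ?_⟩
    rintro g ⟨ψ, hψ, rfl⟩
    exact (hSψ ψ hψ n hn b hb v (hv' ψ hψ)).2.1 h

end

end UBR.ExPow
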