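import Pool.Agent.UBR.Bad
import Pool.Agent.UBC.LocDom

/-!
# Polynomials `P(z) + c` as an instance of the local conditions
-/

set_option autoImplicit false
set_option linter.unusedSectionVars false

namespace UBR

open Polynomial WithZero UBV2 BadAux

variable {K : Type*} [Field K]

lemma hom_one (d : ℕ) (x y : K) : hom d 1 x y = y ^ d := by
  unfold hom
  rw [Finset.sum_eq_single 0]
  · simp
  · intro i _ hi
    rw [coeff_one, if_neg hi, zero_mul]
  · intro h
    exact absurd (Finset.mem_range.2 (Nat.succ_pos d)) h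

/-- a polynomial of formal degree `d` with integral coefficients and unit leading coefficient has
good reduction -/
lemma good_poly {v : Valuation K ℤᵐ⁰} {d : ℕ} {F : K[X]} (hF : ∀ i, v (F.coeff i) ≤ 1)
    (hl : v (F.coeff d) = 1) : GoodAt v d F 1 := by
  refine ⟨hF, fun i => ?_, fun P hP => ?_⟩
  · rw [coeff_one]
    split_ifs
    · rw [map_one]
    · rw [map_zero]
      exact zero_le
  · have h1 : v (hom d F P.1 P.2) ≤ 1 := by
      have := hom_le (d := d) hF P
      rwa [hP, one_pow] at this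
    have hx : v P.1 ≤ 1 := hP ▸ fst_le v P
    have hy : v P.2 ≤ 1 := hP ▸ snd_le v P
    unfold nrm mapR
    simp only
    rw [hom_one]
    rcases hy.lt_or_eq with h | h
    · have h2 : v P.1 = 1 := by
        unfold nrm at hP
        rcases le_total (v P.1) (v P.2) with h3 | h3
        · rw [max_eq_right h3] at hP
          exact absurd hP h.ne
        · rwa [max_eq_left h3] at hP
      have h3 : v (hom d F P.1 P.2) = 1 := by
        rw [hom_att hF hl (show v P.2 < v P.1 by rw [h2]; exact h), h2, one_pow]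
      rw [h3, map_pow]
      exact max_eq_left (pow_le_one₀ zero_le hy)
    · rw [map_pow, h, one_pow]
      exact max_eq_right h1

/-- the polynomial `g ^ (-d) (P (g z) + c)` -/
noncomputable def scal (d : ℕ) (g c : K) (P : K[X]) : K[X] :=
  C (g⁻¹ ^ d) * ((P + C c).comp (C g * X))

lemma scal_coeff (d : ℕ) (g c : K) (P : K[X]) (j : ℕ) :
    (scal d g c P).coeff j = g⁻¹ ^ d * ((P + C c).coeff j * g ^ j) := by
  unfold scal
  rw [coeff_C_mul, comp_C_mul_X_coeff]

lemma hom_scal (d : ℕ) {g : K} (hg : g ≠ 0) (c : K) (P : K[X]) (x y : K) :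
    hom d (P + C c) (g * x) y = g ^ d * hom d (scal d g c P) x y := by
  unfold hom
  rw [Finset.mul_sum]
  refine Finset.sum_congr rfl fun i _ => ?_
  rw [scal_coeff, mul_pow]
  have h1 : g ^ d * g⁻¹ ^ d = 1 := by rw [← mul_pow, mul_inv_cancel₀ hg, one_pow]
  linear_combination (-(P + C c).coeff i * g ^ i * x ^ i * y ^ (d - i)) * h1

section

variable {v : Valuation K ℤᵐ⁰} {d : ℕ} (hd : 2 ≤ d) {P : K[X]} (hdeg : P.natDegree = d)
  (hint : ∀ i, v (P.coeff i) ≤ 1) (hlead : v P.leadingCoeff = 1) {c g : K}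

include hd hdeg in
lemma add_C_coeff (j : ℕ) (hj : 0 < j) : (P + C c).coeff j = P.coeff j := by
  rw [coeff_add, coeff_C, if_neg hj.ne', add_zero]

include hd hdeg hint hlead in
lemma good_const_poly (hc : v c ≤ 1) : GoodAt v d (P + C c) 1 := by
  refine good_poly (fun i => ?_) ?_
  · rcases Nat.eq_zero_or_pos i with rfl | hi
    · rw [coeff_add, coeff_C, if_pos rfl]
      exact (Valuation.map_add v _ _).trans (max_le (hint 0) hc)
    · rw [add_C_coeff hd hdeg i hi]
      exact hint i
  · rw [add_C_coeff hd hdeg d (by omega), ← hdeg, coeff_natDegree, hlead]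

variable (hc : 1 < v c) (hg : v g ^ d = v c)

include hd hc hg in
lemma g_big : 1 < v g := by
  by_contra h
  push Not at h
  exact absurd (hc.trans_le (hg ▸ pow_le_one₀ zero_le h)) (lt_irrefl _)

include hd hdeg hint hlead hc hg

lemma scal_val_zero : v ((scal d g c P).coeff 0) = 1 := by
  have h1 : v ((P + C c).coeff 0) = v c := by
    rw [coeff_add, coeff_C, if_pos rfl]
    exact Valuation.map_add_eq_of_lt_right v ((hint 0).trans_lt hc)
  have h0 : v g ≠ 0 := (zero_lt_one.trans (g_big hd hc hg)).ne'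
  rw [scal_coeff, pow_zero, mul_one, map_mul, h1, map_pow, map_inv₀, ← hg, ← mul_pow,
    inv_mul_cancel₀ h0, one_pow]

lemma scal_val_lead : v ((scal d g c P).coeff d) = 1 := by
  have h0 : v g ≠ 0 := (zero_lt_one.trans (g_big hd hc hg)).ne'
  rw [scal_coeff, add_C_coeff hd hdeg d (by omega), ← hdeg, coeff_natDegree, hdeg, map_mul,
    map_mul, hlead, one_mul, map_pow, map_pow, map_inv₀, ← mul_pow, inv_mul_cancel₀ h0, one_pow]

lemma scal_val_mid {j : ℕ} (h1 : 0 < j) (h2 : j < d) : v ((scal d g c P).coeff j) < 1 := by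
  have hg1 := g_big hd hc hg
  have h0 : v g ≠ 0 := (zero_lt_one.trans hg1).ne'
  rw [scal_coeff, add_C_coeff hd hdeg j h1, map_mul, map_mul, map_pow, map_pow, map_inv₀]
  have e : (v g)⁻¹ ^ d * (v (P.coeff j) * v g ^ j) = v (P.coeff j) * (v g)⁻¹ ^ (d - j) := by
    have e1 : (v g)⁻¹ ^ d = (v g)⁻¹ ^ (d - j) * (v g)⁻¹ ^ j := by
      rw [← pow_add]; congr 1; omega
    have e2 : (v g)⁻¹ ^ j * v g ^ j = 1 := by rw [← mul_pow, inv_mul_cancel₀ h0, one_pow]
    calc _ = v (P.coeff j) * (v g)⁻¹ ^ (d - j) * ((v g)⁻¹ ^ j * v g ^ j) := by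
          rw [e1]; ac_rfl
      _ = _ := by rw [e2, mul_one]
  rw [e]
  have h3 : (v g)⁻¹ < 1 := inv_lt_one_of_one_lt₀ hg1
  calc v (P.coeff j) * (v g)⁻¹ ^ (d - j) ≤ 1 * (v g)⁻¹ ^ (d - j) := mul_le_mul_left (hint j) _
    _ = (v g)⁻¹ ^ (d - j) := one_mul _
    _ < 1 := pow_lt_one₀ zero_le h3 (by omega)

lemma scal_degree : (scal d g c P).natDegree ≤ d := by
  rw [natDegree_le_iff_coeff_eq_zero]
  intro N hN
  rw [scal_coeff, add_C_coeff hd hdeg N (by omega), coeff_eq_zero_of_natDegree_lt (by omega),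
    zero_mul, mul_zero]

lemma scal_int (i : ℕ) : v ((scal d g c P).coeff i) ≤ 1 := by
  rcases Nat.eq_zero_or_pos i with rfl | hi
  · exact (scal_val_zero hd hdeg hint hlead hc hg).le
  · rcases lt_trichotomy i d with h | h | h
    · exact (scal_val_mid hd hdeg hint hlead hc hg hi h).le
    · rw [h]
      exact (scal_val_lead hd hdeg hint hlead hc hg).le
    · rw [coeff_eq_zero_of_natDegree_lt
        ((scal_degree hd hdeg hint hlead hc hg).trans_lt h), map_zero]
      exact zero_le

lemma scal_simple (hvd : v (d : K) = 1) : Simple v (scal d g c P) := by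
  set F := scal d g c P with hF
  intro x hx hFx
  have hF0 : v (F.coeff 0) = 1 := scal_val_zero hd hdeg hint hlead hc hg
  have hFd : v (F.coeff d) = 1 := scal_val_lead hd hdeg hint hlead hc hg
  have hFm : ∀ {j : ℕ}, 0 < j → j < d → v (F.coeff j) < 1 := fun h1 h2 =>
    scal_val_mid hd hdeg hint hlead hc hg h1 h2
  have hdF : F.natDegree ≤ d := scal_degree hd hdeg hint hlead hc hg
  have hint' : ∀ i, v (F.coeff i) ≤ 1 := scal_int hd hdeg hint hlead hc hg
  -- `x` is a unit
  have hx1 : v x = 1 := by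
    by_contra hne
    have hlt : v x < 1 := lt_of_le_of_ne hx hne
    have h1 : v (F.eval x) = 1 := by
      rw [eval_eq_sum_range' (Nat.lt_succ_of_le hdF), Finset.sum_range_succ', pow_zero, mul_one,
        Valuation.map_add_eq_of_lt_right, hF0]
      rw [hF0]
      refine Valuation.map_sum_lt v one_ne_zero fun i _ => ?_
      rw [map_mul, map_pow]
      calc v (F.coeff (i + 1)) * v x ^ (i + 1) ≤ 1 * v x ^ (i + 1) :=
            mul_le_mul_left (hint' _) _
        _ = v x ^ (i + 1) := one_mul _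
        _ < 1 := pow_lt_one₀ zero_le hlt (Nat.succ_ne_zero i)
    exact absurd h1 hFx.ne
  have hdd : F.derivative.natDegree < d := by
    have := natDegree_derivative_le F
    omega
  obtain ⟨m, hm⟩ : ∃ m, d = m + 1 := ⟨d - 1, by omega⟩
  rw [eval_eq_sum_range' hdd, hm, Finset.sum_range_succ]
  have h2 : v (F.derivative.coeff m * x ^ m) = 1 := by
    rw [coeff_derivative, ← hm, map_mul, map_mul, hFd, one_mul, map_pow, hx1, one_pow, mul_one]
    have : ((m : K) + 1) = (d : K) := by rw [hm]; push_cast; rfl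
    rw [this, hvd]
  rw [Valuation.map_add_eq_of_lt_right, h2]
  rw [h2]
  refine Valuation.map_sum_lt v one_ne_zero fun i hi => ?_
  rw [Finset.mem_range] at hi
  rw [coeff_derivative, map_mul, map_mul, map_pow, hx1, one_pow, mul_one]
  have h3 : v ((i : K) + 1) ≤ 1 := by
    have h4 : ((i : K) + 1) = ((i + 1 : ℕ) : K) := by push_cast; rfl
    rw [h4]
    exact UBC.LocPerAux.nat_le_one v (i + 1)
  calc v (F.coeff (i + 1)) * v ((i : K) + 1) ≤ v (F.coeff (i + 1)) * 1 := mul_le_mul_right h3 _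
    _ = v (F.coeff (i + 1)) := mul_one _
    _ < 1 := hFm (Nat.succ_pos i) (by omega)

lemma bad_const_poly (hvd : v (d : K) = 1) : BadAt v d (scal d g c P) 1 where
  toGoodAt := good_poly (scal_int hd hdeg hint hlead hc hg)
    (scal_val_lead hd hdeg hint hlead hc hg)
  dF := scal_degree hd hdeg hint hlead hc hg
  dG := by rw [natDegree_one]; exact Nat.zero_le _
  lead := scal_val_lead hd hdeg hint hlead hc hg
  simple := scal_simple hd hdeg hint hlead hc hg hvd

end

/-- the value of a periodic point at the places where the constant is not integral -/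
lemma per_val {v : Valuation K ℤᵐ⁰} {d : ℕ} (hd : 2 ≤ d) {P : ℕ → K[X]} {c : K}
    (hdeg : ∀ i, (P i).natDegree = d) (hint : ∀ i j, v ((P i).coeff j) ≤ 1)
    (hlead : ∀ i, v (P i).leadingCoeff = 1) {a : ℕ → K}
    (ha : ∀ i, a (i + 1) = (P i).eval (a i) + c) {L : ℕ} (hL : 0 < L) (haL : ∀ i, a (i + L) = a i)
    (hc : 1 < v c) (i : ℕ) : v (a i) ^ d = v c := by
  have h := UBC.LocDomAux.seq_pow v (r := 1) (m := d) le_rfl (by omega) (by omega) (H := P)
    (g := v c) (c := fun _ => c) (fun i => ⟨hlead i, hdeg i, fun j _ => Or.inl (hint i j)⟩)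
    (a := a) (fun i => by rw [ha]; unfold UBC.fam; rw [pow_one]) hL haL hc (fun _ => rfl) i
  rwa [one_mul] at h

end UBR
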