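import Pool.Agent.UBR.ExAdm
import Pool.Agent.UBR.Examples
import Pool.Agent.UBR.Final
import Pool.Agent.UBC.SelExt

/-!
# Examples: the rational functions `P(z) + c` and `P(1/z) + c`
-/

set_option autoImplicit false
set_option linter.unusedSectionVars false

universe u

namespace UBR

open UBC Pool.Agent.UBC OnePoint Polynomial WithZero NumberField IsDedekindDomain

section general

variable {K : Type*} [Field K]

lemma hom_co {d : ℕ} {F : K[X]} (hF : F.natDegree ≤ d) (z : OnePoint K) :
    hom d F (c1 z) (c2 z) = ev d F z := by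
  have h := sum_coords hF 1 z
  rw [one_pow, one_mul, one_mul, one_mul] at h
  exact h

/-- a map given by two forms without a common zero modulo `v` does not increase the chordal
distance -/
theorem chordal_le_of_good {v : Valuation K ℤᵐ⁰} {d : ℕ} (hd : 1 ≤ d) {F G : K[X]}
    {f : OnePoint K → OnePoint K} (h : GoodAt v d F G) (hf : RatRep d F G f) (x y : OnePoint K) :
    chordal v (f x) (f y) ≤ chordal v x y := by
  have key : ∀ z, ∃ c : K, c ≠ 0 ∧ mapR d F G (co z) = c • co (f z) := by
    intro z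
    obtain ⟨c, hc, h1, h2⟩ := hf.rep z
    refine ⟨c, hc, Prod.ext ?_ ?_⟩
    · change hom d F (c1 z) (c2 z) = c * c1 (f z)
      rw [hom_co hf.dF, h1]
    · change hom d G (c1 z) (c2 z) = c * c2 (f z)
      rw [hom_co hf.dG, h2]
  obtain ⟨a, ha, h1⟩ := key x
  obtain ⟨b, hb, h2⟩ := key y
  have h3 := h.chord_map_le hd (co_ne x) (co_ne y)
  rw [h1, h2, chord_smul v ha hb] at h3
  exact h3

variable [DecidableEq K]

lemma delta_one (v : Valuation K ℤᵐ⁰) (x y : OnePoint K) : delta v 1 x y = chordal v x y := by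
  unfold delta
  rw [one_smul, one_smul]

/-- a set of maps of good reduction satisfies the local condition -/
theorem adm_of_good {v : Valuation K ℤᵐ⁰} {n : ℕ} {A : Set (OnePoint K → OnePoint K)}
    (h : ∀ f ∈ A, ∃ (d : ℕ) (F G : K[X]), 1 ≤ d ∧ GoodAt v d F G ∧ RatRep d F G f) :
    Adm n v A := by
  refine adm_cases ⟨1, Or.inl fun f hf x y => ?_⟩
  obtain ⟨d, F, G, hd, h1, h2⟩ := h f hf
  rw [delta_one, delta_one]
  exact chordal_le_of_good hd h1 h2 x y

/-- the map `1 / z` -/
noncomputable def sw (z : OnePoint K) : OnePoint K :=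
  z.elim ((0 : K) : OnePoint K) (fun x => if x = 0 then ∞ else ((x⁻¹ : K) : OnePoint K))

lemma sw_coords (z : OnePoint K) : ∃ c : K, c ≠ 0 ∧ co (sw z) = c • (c2 z, c1 z) := by
  induction z using OnePoint.rec with
  | infty => exact ⟨1, one_ne_zero, by rw [one_smul]; rfl⟩
  | coe x =>
    by_cases hx : x = 0
    · refine ⟨1, one_ne_zero, ?_⟩
      rw [one_smul]
      change co (if x = 0 then ∞ else ((x⁻¹ : K) : OnePoint K)) = _
      rw [if_pos hx, c1_coe, c2_coe, hx]
      rfl
    · refine ⟨x⁻¹, inv_ne_zero hx, ?_⟩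
      change co (if x = 0 then ∞ else ((x⁻¹ : K) : OnePoint K)) = _
      rw [if_neg hx, c1_coe, c2_coe]
      refine Prod.ext ?_ ?_
      · change x⁻¹ = x⁻¹ * 1
        rw [mul_one]
      · change (1 : K) = x⁻¹ * x
        rw [inv_mul_cancel₀ hx]

lemma chordal_sw (v : Valuation K ℤᵐ⁰) (x y : OnePoint K) :
    chordal v (sw x) (sw y) = chordal v x y := by
  obtain ⟨a, ha, h1⟩ := sw_coords x
  obtain ⟨b, hb, h2⟩ := sw_coords y
  unfold chordal
  rw [h1, h2, chord_smul v ha hb]
  unfold chord wedge nrm co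
  simp only
  rw [max_comm (v (c2 x)), max_comm (v (c2 y)), Valuation.map_sub_swap v (c2 x * c1 y),
    mul_comm (c2 x) (c1 y), mul_comm (c1 x) (c2 y)]

lemma invMap_eq (P : K[X]) (c : K) (z : OnePoint K) : invMap P c z = polyMap P c (sw z) := by
  induction z using OnePoint.rec with
  | infty => rfl
  | coe x =>
    change (if x = 0 then ∞ else ((P.eval x⁻¹ + c : K) : OnePoint K)) =
      polyMap P c (if x = 0 then ∞ else ((x⁻¹ : K) : OnePoint K))
    by_cases hx : x = 0
    · rw [if_pos hx, if_pos hx]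
      rfl
    · rw [if_neg hx, if_neg hx]
      rfl

/-- a polynomial as a rational function -/
lemma ratRep_poly {d : ℕ} (hd : 1 ≤ d) {P : K[X]} (hdeg : P.natDegree = d) (c : K) :
    RatRep d (P + C c) 1 (polyMap P c) := by
  refine ⟨?_, ?_, isCoprime_one_right, fun z => ?_⟩
  · rw [natDegree_add_C, hdeg]
  · rw [natDegree_one]
    exact Nat.zero_le _
  · induction z using OnePoint.rec with
    | infty =>
      refine ⟨P.leadingCoeff, ?_, ?_, ?_⟩
      · rw [Ne, leadingCoeff_eq_zero]
        rintro rfl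
        rw [natDegree_zero] at hdeg
        omega
      · rw [ev_infty, coeff_add, coeff_C, if_neg (by omega), add_zero]
        change _ = _ * c1 ∞
        rw [c1_infty, mul_one, ← hdeg, coeff_natDegree]
      · rw [ev_infty, coeff_one, if_neg (by omega)]
        change _ = _ * c2 ∞
        rw [c2_infty, mul_zero]
    | coe x =>
      refine ⟨1, one_ne_zero, ?_, ?_⟩
      · rw [ev_coe, eval_add, eval_C, one_mul]
        rfl
      · rw [ev_coe, eval_one, one_mul]
        rfl

section loc

variable {v : Valuation K ℤᵐ⁰} (hsurj : Function.Surjective v) {d : ℕ} (hd : 2 ≤ d)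
  (hvd : v (d : K) = 1) (c : K) (A : Set K[X])
  (hA : ∀ P ∈ A, P.natDegree = d ∧ (∀ i, v (P.coeff i) ≤ 1) ∧ v P.leadingCoeff = 1)

include hsurj hd hvd hA

/-- the maps `P(z) + c` satisfy the local condition with the exponent `d - 1` -/
theorem adm_polyMap : Adm (d - 1) v {f | ∃ P ∈ A, f = polyMap P c} := by
  rcases le_or_gt (v c) 1 with hc | hc
  · refine adm_of_good ?_
    rintro f ⟨P, hP, rfl⟩
    obtain ⟨h1, h2, h3⟩ := hA P hP
    exact ⟨d, P + C c, 1, by omega, good_const_poly hd h1 h2 h3 hc, ratRep_poly (by omega) h1 c⟩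
  · obtain ⟨g, hg⟩ := exists_lev hsurj (show 1 ≤ d by omega) hc
    have hg0 : g ≠ 0 := by
      rintro rfl
      have := hg.one_le
      rw [map_zero] at this
      exact absurd this (not_le.2 zero_lt_one)
    refine adm_cases ⟨dia g hg0, Or.inr ?_⟩
    rintro f ⟨P, hP, rfl⟩
    obtain ⟨h1, h2, h3⟩ := hA P hP
    exact powExp_poly hd hvd h1 h2 h3 hc hg hg0

/-- the maps `P(1/z) + c` satisfy the local condition with the exponent `d + 1` -/
theorem adm_invMap : Adm (d + 1) v {f | ∃ P ∈ A, f = invMap P c} := by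
  rcases le_or_gt (v c) 1 with hc | hc
  · refine adm_cases ⟨1, Or.inl ?_⟩
    rintro f ⟨P, hP, rfl⟩ x y
    obtain ⟨h1, h2, h3⟩ := hA P hP
    rw [delta_one, delta_one, invMap_eq, invMap_eq]
    refine (chordal_le_of_good (show 1 ≤ d by omega) (good_const_poly hd h1 h2 h3 hc)
      (ratRep_poly (by omega) h1 c) _ _).trans ?_
    rw [chordal_sw]
  · obtain ⟨g, hg⟩ := exists_lev hsurj (show 1 ≤ d by omega) hc
    have hg0 : g ≠ 0 := by
      rintro rfl
      have := hg.one_le
      rw [map_zero] at this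
      exact absurd this (not_le.2 zero_lt_one)
    refine adm_cases ⟨dia g⁻¹ (inv_ne_zero hg0), Or.inr ?_⟩
    rintro f ⟨P, hP, rfl⟩
    obtain ⟨h1, h2, h3⟩ := hA P hP
    exact powExp_inv hd hvd h1 h2 h3 hc hg hg0

end loc

/-! ### The rational functions -/

/-- a quotient of coprime polynomials -/
lemma exists_num_denom {F G : K[X]} (hcop : IsCoprime F G) (hG : G ≠ 0) {f : RatFunc K}
    (hf : f = algebraMap K[X] (RatFunc K) F / algebraMap K[X] (RatFunc K) G) :
    ∃ a : K, a ≠ 0 ∧ F = C a * f.num ∧ G = C a * f.denom := by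
  have hd0 : f.denom ≠ 0 := RatFunc.denom_ne_zero f
  have h1 : f.num * G = F * f.denom := by
    have hG' : algebraMap K[X] (RatFunc K) G ≠ 0 := RatFunc.algebraMap_ne_zero hG
    have hd' : algebraMap K[X] (RatFunc K) f.denom ≠ 0 := RatFunc.algebraMap_ne_zero hd0
    have h2 : algebraMap K[X] (RatFunc K) f.num / algebraMap K[X] (RatFunc K) f.denom =
        algebraMap K[X] (RatFunc K) F / algebraMap K[X] (RatFunc K) G := by
      rw [RatFunc.num_div_denom, hf]
    rw [div_eq_div_iff hd' hG', ← map_mul, ← map_mul] at h2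
    exact RatFunc.algebraMap_injective K h2
  have h3 : G ∣ f.denom := hcop.symm.dvd_of_dvd_mul_left (by rw [← h1]; exact dvd_mul_left _ _)
  have h4 : f.denom ∣ G := (RatFunc.isCoprime_num_denom f).symm.dvd_of_dvd_mul_left
    (by rw [h1]; exact dvd_mul_left _ _)
  obtain ⟨u, hu⟩ := associated_of_dvd_dvd h4 h3
  obtain ⟨a, ha, hau⟩ := Polynomial.isUnit_iff.1 u.isUnit
  have hG2 : G = C a * f.denom := by
    rw [← hu, ← hau, mul_comm]
  refine ⟨a, ha.ne_zero, ?_, hG2⟩
  refine mul_right_cancel₀ hd0 ?_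
  rw [← h1, hG2]
  ring

/-- the value of a quotient of coprime polynomials -/
theorem ratRep_div {F G : K[X]} (hcop : IsCoprime F G) (hG : G ≠ 0) {f : RatFunc K}
    (hf : f = algebraMap K[X] (RatFunc K) F / algebraMap K[X] (RatFunc K) G) :
    deg f = max F.natDegree G.natDegree ∧ RatRep (deg f) F G (value f) := by
  obtain ⟨a, ha, h1, h2⟩ := exists_num_denom hcop hG hf
  have h3 : deg f = max F.natDegree G.natDegree := by
    unfold deg
    rw [h1, h2, natDegree_C_mul ha, natDegree_C_mul ha]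
  refine ⟨h3, ?_, ?_, hcop, fun z => ?_⟩
  · rw [h3]
    exact le_max_left _ _
  · rw [h3]
    exact le_max_right _ _
  · obtain ⟨c, hc, h4, h5⟩ := (ratRep_value f).rep z
    have hev : ∀ (e : ℕ) (H : K[X]), ev e (C a * H) z = a * ev e H z := by
      intro e H
      induction z using OnePoint.rec with
      | infty => rw [ev_infty, ev_infty, coeff_C_mul]
      | coe x => rw [ev_coe, ev_coe, eval_mul, eval_C]
    refine ⟨a * c, mul_ne_zero ha hc, ?_, ?_⟩
    · rw [h1, hev, h4, mul_assoc]
    · rw [h2, hev, h5, mul_assoc]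

/-- two maps with the same representation are equal -/
lemma ratRep_unique {e : ℕ} {F G : K[X]} {φ ψ : OnePoint K → OnePoint K} (h : RatRep e F G φ)
    (h' : RatRep e F G ψ) : φ = ψ := by
  funext z
  obtain ⟨a, ha, h1, h2⟩ := h.rep z
  obtain ⟨b, hb, h3, h4⟩ := h'.rep z
  rw [← wd_eq_zero]
  unfold wd
  have h5 : a * b * (c1 (φ z) * c2 (ψ z) - c2 (φ z) * c1 (ψ z)) = 0 := by
    calc _ = (a * c1 (φ z)) * (b * c2 (ψ z)) - (a * c2 (φ z)) * (b * c1 (ψ z)) := by ring
      _ = 0 := by rw [← h1, ← h2, ← h3, ← h4]; ring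
  exact (mul_eq_zero.1 h5).resolve_left (mul_ne_zero ha hb)

/-- the rational function `P(z) + c` -/
noncomputable def polyFun (P : K[X]) (c : K) : RatFunc K := algebraMap K[X] (RatFunc K) (P + C c)

/-- the rational function `P(1/z) + c` -/
noncomputable def invFun (P : K[X]) (c : K) : RatFunc K :=
  algebraMap K[X] (RatFunc K) (P.reverse + C c * X ^ P.natDegree) /
    algebraMap K[X] (RatFunc K) (X ^ P.natDegree)

lemma polyFun_spec {d : ℕ} (hd : 1 ≤ d) {P : K[X]} (hdeg : P.natDegree = d) (c : K) :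
    deg (polyFun P c) = d ∧ value (polyFun P c) = polyMap P c := by
  have h1 := ratRep_div (F := P + C c) (G := 1) isCoprime_one_right one_ne_zero
    (f := polyFun P c) (by rw [map_one, div_one]; rfl)
  have h2 : deg (polyFun P c) = d := by
    rw [h1.1, natDegree_add_C, hdeg, natDegree_one, max_eq_left (Nat.zero_le _)]
  refine ⟨h2, ratRep_unique (h2 ▸ h1.2) (ratRep_poly hd hdeg c)⟩

lemma eval_reverse {P : K[X]} {x : K} (hx : x ≠ 0) :
    P.reverse.eval x = x ^ P.natDegree * P.eval x⁻¹ := by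
  let : Invertible x⁻¹ := invertibleOfNonzero (inv_ne_zero hx)
  have h := eval₂_reverse_mul_pow (RingHom.id K) x⁻¹ P
  rw [invOf_eq_inv, inv_inv, eval₂_id, eval₂_id] at h
  rw [← h, mul_comm, mul_assoc, ← mul_pow, inv_mul_cancel₀ hx, one_pow, mul_one]

lemma ratRep_inv {d : ℕ} (hd : 1 ≤ d) {P : K[X]} (hdeg : P.natDegree = d) (c : K) :
    RatRep d (P.reverse + C c * X ^ d) (X ^ d) (invMap P c) ∧
      (P.reverse + C c * X ^ d).natDegree ≤ d := by
  have hP0 : P ≠ 0 := by
    rintro rfl
    rw [natDegree_zero] at hdeg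
    omega
  have h0 : (P.reverse + C c * X ^ d).coeff 0 = P.leadingCoeff := by
    rw [coeff_add, coeff_zero_reverse, coeff_C_mul, coeff_X_pow, if_neg (by omega), mul_zero,
      add_zero]
  have hdeg' : (P.reverse + C c * X ^ d).natDegree ≤ d := by
    refine (natDegree_add_le _ _).trans (max_le ?_ (natDegree_C_mul_X_pow_le _ _))
    exact (reverse_natDegree_le P).trans hdeg.le
  refine ⟨⟨hdeg', (natDegree_X_pow d).le, ?_, fun z => ?_⟩, hdeg'⟩
  · refine IsCoprime.pow_right ?_
    rw [isCoprime_comm]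
    refine (Polynomial.irreducible_X.coprime_iff_not_dvd).2 ?_
    rw [X_dvd_iff, h0, leadingCoeff_eq_zero]
    exact hP0
  · induction z using OnePoint.rec with
    | infty =>
      refine ⟨1, one_ne_zero, ?_, ?_⟩
      · rw [ev_infty, one_mul]
        change _ = c1 ((P.eval 0 + c : K) : OnePoint K)
        rw [c1_coe, coeff_add, coeff_C_mul, coeff_X_pow, if_pos rfl, mul_one, coeff_reverse, hdeg,
          revAt_le le_rfl, Nat.sub_self, ← coeff_zero_eq_eval_zero]
      · rw [ev_infty, coeff_X_pow, if_pos rfl, one_mul]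
        rfl
    | coe x =>
      by_cases hx : x = 0
      · refine ⟨P.leadingCoeff, leadingCoeff_ne_zero.2 hP0, ?_, ?_⟩
        · rw [ev_coe, hx, ← coeff_zero_eq_eval_zero, h0]
          change _ = _ * c1 (if (0 : K) = 0 then ∞ else _)
          rw [if_pos rfl, c1_infty, mul_one]
        · rw [ev_coe, hx, eval_pow, eval_X, zero_pow (by omega)]
          change _ = _ * c2 (if (0 : K) = 0 then ∞ else _)
          rw [if_pos rfl, c2_infty, mul_zero]
      · refine ⟨x ^ d, pow_ne_zero d hx, ?_, ?_⟩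
        · rw [ev_coe]
          change _ = _ * c1 (if x = 0 then ∞ else ((P.eval x⁻¹ + c : K) : OnePoint K))
          rw [if_neg hx, c1_coe, eval_add, eval_reverse hx, hdeg, eval_mul, eval_C, eval_pow,
            eval_X]
          ring
        · rw [ev_coe, eval_pow, eval_X]
          change _ = _ * c2 (if x = 0 then ∞ else ((P.eval x⁻¹ + c : K) : OnePoint K))
          rw [if_neg hx, c2_coe, mul_one]

lemma invFun_spec {d : ℕ} (hd : 1 ≤ d) {P : K[X]} (hdeg : P.natDegree = d) (c : K) :
    deg (invFun P c) = d ∧ value (invFun P c) = invMap P c := by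
  obtain ⟨h1, h1'⟩ := ratRep_inv hd hdeg c
  have h2 := ratRep_div (F := P.reverse + C c * X ^ d) (G := X ^ d) h1.cop
    (pow_ne_zero d X_ne_zero) (f := invFun P c) (by unfold invFun; rw [hdeg])
  have h3 : deg (invFun P c) = d := by
    rw [h2.1, natDegree_X_pow, max_eq_right h1']
  exact ⟨h3, ratRep_unique (h3 ▸ h2.2) h1⟩

end general

/-- the periods of the compositions of the rational functions `P(1/z) + c`, with a constant `c` -/
theorem uniform_inv (K : Type u) [Field K] [NumberField K] [DecidableEq K] {d : ℕ} (hd : 3 ≤ d)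
    (S : Set (HeightOneSpectrum (𝓞 K))) (hS : S.Finite) :
    ∃ B : ℕ, ∀ (c : K) (l : List K[X]), l ≠ [] → (∀ P ∈ l, P.natDegree = d ∧
      ∀ v : HeightOneSpectrum (𝓞 K), v ∉ S → (∀ i, v.valuation K (P.coeff i) ≤ 1) ∧
        v.valuation K P.leadingCoeff = 1) →
      (∀ (x : OnePoint K) (e m : ℕ), Odd m →
        Function.minimalPeriod (comp (l.map fun P => invFun P c)) x = 2 ^ e * m → m ≤ B) ∧
      {x : OnePoint K |
        Odd (Function.minimalPeriod (comp (l.map fun P => invFun P c)) x)}.encard ≤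
        (((d ^ l.length) ^ B : ℕ) : ℕ∞) ∧
      (5 ≤ d → Odd d →
        (∀ x : OnePoint K,
          Function.minimalPeriod (comp (l.map fun P => invFun P c)) x ≤ B) ∧
        {x : OnePoint K |
          x ∈ Function.periodicPts (comp (l.map fun P => invFun P c))}.encard ≤
          (((d ^ l.length) ^ B : ℕ) : ℕ∞)) := by
  have hd0 : (d : K) ≠ 0 := Nat.cast_ne_zero.2 (by omega)
  obtain ⟨B, hB⟩ := uniform_rat K (n := d + 1) (by omega)
    (S ∪ {v : HeightOneSpectrum (𝓞 K) | v.valuation K (d : K) ≠ 1})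
    (hS.union (UBC.finite_nonunit K _ hd0))
  refine ⟨B, fun c l hl hP => ?_⟩
  have hprod : ((l.map fun P => invFun P c).map deg).prod = d ^ l.length := by
    rw [List.map_map]
    have : l.map (deg ∘ fun P => invFun P c) = l.map (fun _ => d) := by
      refine List.map_congr_left fun P hP' => ?_
      exact (invFun_spec (by omega) (hP P hP').1 c).1
    rw [this, List.map_const', List.prod_replicate]
  have h := hB (l.map fun P => invFun P c) (by simpa using hl) ?_ ?_
  · rw [hprod] at h
    exact ⟨h.1, h.2.1, fun h5 hodd => h.2.2 (by omega) (by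
      rw [Nat.even_add_one, Nat.not_even_iff_odd]; exact hodd)⟩
  · intro f hf
    obtain ⟨P, hP', rfl⟩ := List.mem_map.1 hf
    rw [(invFun_spec (by omega) (hP P hP').1 c).1]
    omega
  · intro v hv
    rw [Set.mem_union, not_or] at hv
    have hv2 : v.valuation K (d : K) = 1 := by
      by_contra hne
      exact hv.2 hne
    have h1 := adm_invMap (v := v.valuation K) (v.valuation_surjective K) (d := d) (by omega) hv2 c
      {P | P ∈ l} (fun P hP' => ⟨(hP P hP').1, ((hP P hP').2 v hv.1).1, ((hP P hP').2 v hv.1).2⟩)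
    have h2 : {g | ∃ f ∈ l.map (fun P => invFun P c), g = value f} =
        {f | ∃ P ∈ {P | P ∈ l}, f = invMap P c} := by
      ext g
      constructor
      · rintro ⟨f, hf, rfl⟩
        obtain ⟨P, hP', rfl⟩ := List.mem_map.1 hf
        exact ⟨P, hP', (invFun_spec (by omega) (hP P hP').1 c).2⟩
      · rintro ⟨P, hP', rfl⟩
        exact ⟨invFun P c, List.mem_map.2 ⟨P, hP', rfl⟩,
          (invFun_spec (by omega) (hP P hP').1 c).2.symm⟩
    rw [h2]
    exact h1

end UBR
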