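import Pool.Agent.UBR.ExPow

/-!
# The family of the maps `b ^ n ψ(z)`
-/

set_option autoImplicit false

universe u

namespace UBR.Fam

open UBR UBC Pool.Agent.UBC OnePoint NumberField IsDedekindDomain Polynomial WithZero

section

variable {K : Type*} [Field K]

lemma coprime_X {G : K[X]} (h : G.coeff 0 ≠ 0) : IsCoprime G X := by
  refine ((irreducible_X.coprime_iff_not_dvd).2 fun hd => h ?_).symm
  exact X_dvd_iff.1 hd

lemma coeff_X_mul_derivative (G : K[X]) (k : ℕ) : (X * derivative G).coeff k = G.coeff k * k := by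
  rcases k with _ | k
  · rw [mul_coeff_zero, coeff_X_zero, zero_mul, Nat.cast_zero, mul_zero]
  · rw [coeff_X_mul, coeff_derivative]
    push_cast
    ring

/-- the reversed polynomial of a separable polynomial without zero at zero is separable -/
theorem separable_reflect_natDegree {G : K[X]} (hG : G.Separable) (h0 : G.coeff 0 ≠ 0) :
    (reflect G.natDegree G).Separable ∧ (reflect G.natDegree G).coeff 0 ≠ 0 := by
  set N := G.natDegree with hN
  set R := reflect N G with hR
  have hG0 : G ≠ 0 := by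
    rintro rfl
    simp at h0
  have hR0 : R.coeff 0 ≠ 0 := by
    rw [hR, coeff_reflect, revAt_le (Nat.zero_le N), Nat.sub_zero]
    exact leadingCoeff_ne_zero.2 hG0
  refine ⟨?_, hR0⟩
  have hid : X * derivative R = C (N : K) * R - reflect N (X * derivative G) := by
    ext j
    rw [coeff_X_mul_derivative, coeff_sub, coeff_C_mul, hR, coeff_reflect, coeff_reflect,
      coeff_X_mul_derivative]
    rcases le_or_gt j N with hj | hj
    · rw [revAt_le hj, Nat.cast_sub hj]
      ring
    · have h1 : G.coeff j = 0 := coeff_eq_zero_of_natDegree_lt hj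
      rw [revAt_eq_self_of_lt hj, h1]
      ring
  have hdeg : (X * derivative G).natDegree ≤ N := by
    refine natDegree_le_iff_coeff_eq_zero.2 fun j hj => ?_
    rw [coeff_X_mul_derivative, coeff_eq_zero_of_natDegree_lt hj, zero_mul]
  obtain ⟨A, B, hAB⟩ : IsCoprime G (X * derivative G) := (coprime_X h0).mul_right hG
  set M := max A.natDegree B.natDegree with hM
  have h1 : reflect (M + N) (A * G + B * (X * derivative G)) = X ^ (M + N) := by
    rw [hAB, reflect_one]
  rw [reflect_add, reflect_mul _ _ (le_max_left _ _) le_rfl, reflect_mul _ _ (le_max_right _ _) hdeg]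
    at h1
  obtain ⟨u, w, huw⟩ : IsCoprime R (X ^ (M + N)) := (coprime_X hR0).pow_right
  refine ⟨u + w * reflect M A + w * reflect M B * C (N : K), -(w * reflect M B * X), ?_⟩
  have h2 : reflect N (X * derivative G) = C (N : K) * R - X * derivative R := by
    rw [hid]
    ring
  rw [h2] at h1
  linear_combination huw + w * h1

theorem separable_reflect {G : K[X]} (hG : G.Separable) (h0 : G.coeff 0 ≠ 0) {e : ℕ}
    (h1 : G.natDegree ≤ e) (h2 : e ≤ G.natDegree + 1) : (reflect e G).Separable := by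
  obtain ⟨h3, h4⟩ := separable_reflect_natDegree hG h0
  rcases h1.eq_or_lt with h5 | h5
  · rw [← h5]
    exact h3
  · have h6 : e = 1 + G.natDegree := by omega
    have h7 : reflect (1 + G.natDegree) (1 * G) = reflect 1 1 * reflect G.natDegree G :=
      reflect_mul _ _ (by simp) le_rfl
    rw [one_mul, reflect_one, pow_one] at h7
    rw [h6, h7]
    exact separable_X.mul h3 (coprime_X h4).symm

/-- numerator and denominator of a multiple -/
theorem num_denom_C_mul {ψ : RatFunc K} {a : K} (ha : a ≠ 0) :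
    (RatFunc.C a * ψ).denom = ψ.denom ∧ (RatFunc.C a * ψ).num = C a * ψ.num := by
  set f := RatFunc.C a * ψ with hf
  have hcross : f.num * ψ.denom = C a * ψ.num * f.denom := by
    have k1 := RatFunc.num_div_denom f
    have k2 := RatFunc.num_div_denom ψ
    have g1 : algebraMap K[X] (RatFunc K) f.denom ≠ 0 :=
      RatFunc.algebraMap_ne_zero (RatFunc.denom_ne_zero f)
    have g2 : algebraMap K[X] (RatFunc K) ψ.denom ≠ 0 :=
      RatFunc.algebraMap_ne_zero (RatFunc.denom_ne_zero ψ)
    have k3 : algebraMap K[X] (RatFunc K) f.num / algebraMap K[X] (RatFunc K) f.denom =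
        algebraMap K[X] (RatFunc K) (C a) *
          (algebraMap K[X] (RatFunc K) ψ.num / algebraMap K[X] (RatFunc K) ψ.denom) := by
      rw [k1, k2, RatFunc.algebraMap_C]
    apply RatFunc.algebraMap_injective K
    rw [map_mul, map_mul, map_mul]
    field_simp at k3
    linear_combination k3
  have hcop := RatFunc.isCoprime_num_denom f
  have hcop' := RatFunc.isCoprime_num_denom ψ
  have hu : IsUnit (C a) := isUnit_C.2 ha.isUnit
  have h1 : ψ.denom ∣ f.denom := by
    have h2 : ψ.denom ∣ (C a * ψ.num) * f.denom := ⟨f.num, by rw [← hcross]; ring⟩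
    refine IsCoprime.dvd_of_dvd_mul_left ?_ h2
    exact (isCoprime_mul_unit_left_right hu _ _).2 hcop'.symm
  have h2 : f.denom ∣ ψ.denom := by
    have h3 : f.denom ∣ f.num * ψ.denom := ⟨C a * ψ.num, by rw [hcross]; ring⟩
    exact IsCoprime.dvd_of_dvd_mul_left hcop.symm h3
  have h3 : f.denom = ψ.denom :=
    eq_of_monic_of_associated (RatFunc.monic_denom f) (RatFunc.monic_denom ψ)
      (associated_of_dvd_dvd h2 h1)
  refine ⟨h3, ?_⟩
  rw [h3] at hcross
  exact mul_right_cancel₀ (RatFunc.denom_ne_zero ψ) hcross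

theorem deg_C_mul {ψ : RatFunc K} {a : K} (ha : a ≠ 0) : deg (RatFunc.C a * ψ) = deg ψ := by
  obtain ⟨h1, h2⟩ := num_denom_C_mul (ψ := ψ) ha
  unfold deg
  rw [h1, h2, natDegree_C_mul ha]

end

/-- compositions of the maps `b ^ n ψ(z)` -/
theorem uniform_fam (K : Type u) [Field K] [NumberField K] [DecidableEq K] {n : ℕ} (hn : 4 ≤ n)
    (T : Finset (RatFunc K)) (hT : ∀ ψ ∈ T, 2 ≤ deg ψ ∧ ψ.num.Separable ∧ ψ.denom.Separable ∧
      ψ.denom.eval 0 ≠ 0 ∧ ψ.denom.natDegree ≤ ψ.num.natDegree ∧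
      ψ.num.natDegree ≤ ψ.denom.natDegree + 1) :
    ∃ B : ℕ, ∀ b : K, b ≠ 0 → ∀ l : List (RatFunc K), l ≠ [] →
      (∀ f ∈ l, ∃ ψ ∈ T, f = RatFunc.C (b ^ n) * ψ) →
      (∀ (x : OnePoint K) (e m : ℕ), Odd m → Function.minimalPeriod (comp l) x = 2 ^ e * m →
        m ≤ B) ∧
      {x : OnePoint K | Odd (Function.minimalPeriod (comp l) x)}.encard ≤
        ((((l.map deg).prod) ^ B : ℕ) : ℕ∞) ∧
      (6 ≤ n → Even n → (∀ x : OnePoint K, Function.minimalPeriod (comp l) x ≤ B) ∧
        {x : OnePoint K | x ∈ Function.periodicPts (comp l)}.encard ≤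
          ((((l.map deg).prod) ^ B : ℕ) : ℕ∞)) := by
  obtain ⟨S, hS, hadm⟩ := ExPow.adm_pow T fun ψ hψ => by
    obtain ⟨h0, h1, h2, h3, h4, h5⟩ := hT ψ hψ
    have h3' : ψ.denom.coeff 0 ≠ 0 := by rwa [coeff_zero_eq_eval_zero]
    refine ⟨by omega, h4, h1, h3', separable_reflect h2 h3' (le_max_right _ _) ?_⟩
    unfold deg
    rw [max_eq_left h4]
    exact h5
  obtain ⟨B, hB⟩ := uniform_rat K hn S hS
  refine ⟨B, fun b hb l hl hf => hB l hl (fun f hfl => ?_) fun v hv => ?_⟩
  · obtain ⟨ψ, hψ, rfl⟩ := hf f hfl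
    rw [deg_C_mul (pow_ne_zero _ hb)]
    exact (hT ψ hψ).1
  · obtain ⟨σ, U, hσ⟩ := hadm n (by omega) b hb v hv
    refine ⟨σ, U, ?_⟩
    rintro g ⟨f, hfl, rfl⟩
    obtain ⟨ψ, hψ, rfl⟩ := hf f hfl
    exact hσ _ ⟨ψ, hψ, rfl⟩

end UBR.Fam
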