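import Pool.Agent.UBR.Good

/-!
# Chordal distances in a cycle at places of good reduction
-/

set_option autoImplicit false

namespace UBR

open Polynomial WithZero

variable {K : Type*} [Field K]

/-- the cycle `t ↦ X (ℓ * t)` of length `k` (as points of the projective line) for the composition
of the maps given by the forms `F i, G i` of degree `d i`, `i < ℓ` -/
structure IsCycR (d : ℕ → ℕ) (F G : ℕ → K[X]) (ℓ : ℕ) (X : ℕ → K × K) (k : ℕ) : Prop where
  lpos : 0 < ℓ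
  kpos : 0 < k
  hd : ∀ i, d (i + ℓ) = d i
  hF : ∀ i, F (i + ℓ) = F i
  hG : ∀ i, G (i + ℓ) = G i
  hX0 : ∀ i, X i ≠ 0
  hX : ∀ i, ∃ a : K, a ≠ 0 ∧ X (i + 1) = a • mapR (d i) (F i) (G i) (X i)
  hXk : ∀ i, ∃ a : K, a ≠ 0 ∧ X (i + ℓ * k) = a • X i

namespace IsCycR

variable {d : ℕ → ℕ} {F G : ℕ → K[X]} {ℓ : ℕ} {X : ℕ → K × K} {k : ℕ}

lemma shift (h : IsCycR d F G ℓ X k) (t i : ℕ) :
    d (i + ℓ * t) = d i ∧ F (i + ℓ * t) = F i ∧ G (i + ℓ * t) = G i := by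
  induction t with
  | zero => simp
  | succ t ih =>
    have e : i + ℓ * (t + 1) = (i + ℓ * t) + ℓ := by ring
    rw [e, h.hd, h.hF, h.hG]
    exact ih

lemma shift_rec (h : IsCycR d F G ℓ X k) (t i : ℕ) :
    ∃ a : K, a ≠ 0 ∧ X (i + 1 + ℓ * t) = a • mapR (d i) (F i) (G i) (X (i + ℓ * t)) := by
  obtain ⟨a, ha, hX⟩ := h.hX (i + ℓ * t)
  obtain ⟨h1, h2, h3⟩ := h.shift t i
  refine ⟨a, ha, ?_⟩
  have e : i + 1 + ℓ * t = (i + ℓ * t) + 1 := by ring
  rw [e, hX, h1, h2, h3]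

lemma shift_per (h : IsCycR d F G ℓ X k) (t i : ℕ) :
    ∃ a : K, a ≠ 0 ∧ X (i + ℓ * k + ℓ * t) = a • X (i + ℓ * t) := by
  obtain ⟨a, ha, hX⟩ := h.hXk (i + ℓ * t)
  refine ⟨a, ha, ?_⟩
  have e : i + ℓ * k + ℓ * t = (i + ℓ * t) + ℓ * k := by ring
  rw [e, hX]

/-- good places: the chordal distance depends only on the level -/
theorem chord_eq (h : IsCycR d F G ℓ X k) {v : Valuation K ℤᵐ⁰} (hd1 : ∀ i, 1 ≤ d i)
    (hgood : ∀ i, GoodAt v (d i) (F i) (G i)) {m n m' n' : ℕ}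
    (hg : Nat.gcd (Nat.dist m n) k = Nat.gcd (Nat.dist m' n') k) :
    chord v (X (ℓ * m)) (X (ℓ * n)) = chord v (X (ℓ * m')) (X (ℓ * n')) := by
  refine level_abs (fun m n => chord v (X (ℓ * m)) (X (ℓ * n))) (fun m n => chord_symm v _ _)
    (fun a b c => chord_ultra v (h.hX0 _) (h.hX0 _) (h.hX0 _)) (fun a b c => ?_)
    (fun m n t => ?_) h.kpos (fun m n => ?_) hg
  · change chord v (X (ℓ * a)) (X (ℓ * a)) ≤ chord v (X (ℓ * b)) (X (ℓ * c))
    rw [chord_self]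
    exact zero_le
  · have h1 : chord v (X (ℓ * t + ℓ * m)) (X (ℓ * t + ℓ * n)) =
        chord v (X (0 + ℓ * m)) (X (0 + ℓ * n)) :=
      chord_const hd1 hgood (X := fun i => X (i + ℓ * m)) (Y := fun i => X (i + ℓ * n))
        (fun i => h.hX0 _) (fun i => h.hX0 _) (fun i => h.shift_rec m i)
        (fun i => h.shift_rec n i) (Nat.mul_pos h.lpos h.kpos) (fun i => h.shift_per m i)
        (fun i => h.shift_per n i) (ℓ * t)
    have e1 : ℓ * t + ℓ * m = ℓ * (m + t) := by ring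
    have e2 : ℓ * t + ℓ * n = ℓ * (n + t) := by ring
    rw [e1, e2, Nat.zero_add, Nat.zero_add] at h1
    exact h1
  · change chord v (X (ℓ * (m + k))) (X (ℓ * n)) = chord v (X (ℓ * m)) (X (ℓ * n))
    obtain ⟨a, ha, hX⟩ := h.hXk (ℓ * m)
    have e : ℓ * (m + k) = ℓ * m + ℓ * k := by ring
    have h1 : X (ℓ * n) = (1 : K) • X (ℓ * n) := (one_smul K _).symm
    rw [e, hX, h1, chord_smul v ha one_ne_zero, one_smul]

end IsCycR

/-- valuation of a cross-ratio -/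
theorem val_cross (v : Valuation K ℤᵐ⁰) {A B C D : K × K} (hA : A ≠ 0) (hB : B ≠ 0) (hC : C ≠ 0)
    (hD : D ≠ 0) :
    v ((wedge A B * wedge C D) / (wedge A D * wedge C B)) =
      (chord v A B * chord v C D) / (chord v A D * chord v C B) := by
  have ha := nrm_ne v hA
  have hb := nrm_ne v hB
  have hc := nrm_ne v hC
  have hd := nrm_ne v hD
  unfold chord
  rw [map_div₀, map_mul, map_mul, div_mul_div_comm, div_mul_div_comm,
    show nrm v A * nrm v D * (nrm v C * nrm v B) = nrm v A * nrm v B * (nrm v C * nrm v D) by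
      ac_rfl, div_div_div_cancel_right₀]
  exact mul_ne_zero (mul_ne_zero ha hb) (mul_ne_zero hc hd)

end UBR
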