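import Mathlib

/-!
# Shift invariant ultrametrics on a cycle
-/

set_option autoImplicit false

namespace UBR

/-- A shift invariant, `k`-periodic ultrametric on the indices of a cycle of length `k` depends
only on the greatest common divisor of the difference of the indices with `k`. -/
theorem level_abs {Γ : Type*} [LinearOrder Γ] (δ : ℕ → ℕ → Γ) (hsymm : ∀ m n, δ m n = δ n m)
    (hultra : ∀ a b c, δ a c ≤ max (δ a b) (δ b c)) (hzero : ∀ a b c, δ a a ≤ δ b c)
    (hshift : ∀ m n t, δ (m + t) (n + t) = δ m n) {k : ℕ} (hk : 0 < k)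
    (hper : ∀ m n, δ (m + k) n = δ m n) {m n m' n' : ℕ}
    (hg : Nat.gcd (Nat.dist m n) k = Nat.gcd (Nat.dist m' n') k) : δ m n = δ m' n' := by
  have hmul : ∀ j i : ℕ, δ (j * i) 0 ≤ δ j 0 := by
    intro j i
    induction i with
    | zero => rw [Nat.mul_zero]; exact hzero 0 j 0
    | succ i ih =>
      have h1 : δ (j * (i + 1)) (j * i) = δ j 0 := by
        have h2 := hshift j 0 (j * i)
        have e : j * (i + 1) = j + j * i := by ring
        rw [Nat.zero_add] at h2
        rw [e, h2]
      exact (hultra _ (j * i) _).trans (max_le h1.le ih)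
  have hperm : ∀ m t : ℕ, δ (m + k * t) 0 = δ m 0 := by
    intro m t
    induction t with
    | zero => simp
    | succ t ih =>
      have e : m + k * (t + 1) = (m + k * t) + k := by ring
      rw [e, hper, ih]
  have hmod : ∀ t : ℕ, δ (t % k) 0 = δ t 0 := by
    intro t
    rw [← hperm (t % k) (t / k), Nat.mod_add_div]
  have hgcd : ∀ j : ℕ, δ j 0 = δ (Nat.gcd j k) 0 := by
    intro j
    refine le_antisymm ?_ ?_
    · obtain ⟨q, hq⟩ := Nat.gcd_dvd_left j k
      have h1 := hmul (Nat.gcd j k) q
      rwa [← hq] at h1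
    · obtain ⟨i, hi⟩ : ∃ i : ℕ, (j * i) % k = (Nat.gcd j k) % k := by
        rcases (Nat.le_of_dvd hk (Nat.gcd_dvd_right j k)).lt_or_eq with h | h
        · obtain ⟨i, -, hi⟩ := Nat.exists_mul_mod_eq_gcd h
          exact ⟨i, by rw [hi, Nat.mod_eq_of_lt h]⟩
        · refine ⟨0, ?_⟩
          rw [h, Nat.mod_self, mul_zero, Nat.zero_mod]
      have h1 := hmul j i
      rw [← hmod (j * i), hi, hmod] at h1
      exact h1
  have key : ∀ m n : ℕ, δ m n = δ (Nat.gcd (Nat.dist m n) k) 0 := by
    intro m n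
    rw [← hgcd]
    rcases le_total m n with h | h
    · have h1 := hshift (n - m) 0 m
      rw [Nat.sub_add_cancel h, Nat.zero_add] at h1
      rw [Nat.dist_eq_sub_of_le h, hsymm m n, h1]
    · have h1 := hshift (m - n) 0 n
      rw [Nat.sub_add_cancel h, Nat.zero_add] at h1
      rw [Nat.dist_eq_sub_of_le_right h, h1]
  rw [key m n, hg, ← key m' n']

end UBR
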