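import Pool.Agent.UBR.Level

/-!
# Cycles of compositions of maps of an ultrametric space

There is a set `U` which the maps preserve and on which they are non-expanding; outside of `U` the
distances are `n`-th powers or multiplied by `n`-th powers of elements greater than one.
-/

set_option autoImplicit false

namespace UBR

open WithZero

/-- an ultrametric of diameter at most one with values in `ℤᵐ⁰` -/
structure UM {P : Type*} (δ : P → P → ℤᵐ⁰) : Prop where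
  symm : ∀ x y, δ x y = δ y x
  self : ∀ x, δ x x = 0
  le_one : ∀ x y, δ x y ≤ 1
  ne : ∀ x y, x ≠ y → δ x y ≠ 0
  ultra : ∀ x y z, δ x z ≤ max (δ x y) (δ y z)

/-- The map `f` maps `U` to itself without increasing distances; a distance outside of `U` is an
`n`-th power or is multiplied by the `n`-th power of an element greater than one. -/
structure PowExp {P : Type*} (n : ℕ) (δ : P → P → ℤᵐ⁰) (U : Set P) (f : P → P) : Prop where
  maps : ∀ x ∈ U, f x ∈ U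
  nonexp : ∀ x ∈ U, ∀ y ∈ U, δ (f x) (f y) ≤ δ x y
  exp : ∀ x y, x ∉ U → y ∉ U → f x ∉ U → f y ∉ U →
    (∃ γ : ℤᵐ⁰, δ x y = γ ^ n) ∨ ∃ γ : ℤᵐ⁰, 1 < γ ∧ δ (f x) (f y) = γ ^ n * δ x y

/-- a special case: `f` contracts `U` and multiplies small distances outside of `U` by the `n`-th
power of a constant greater than one -/
structure PowExpC {P : Type*} (n : ℕ) (δ : P → P → ℤᵐ⁰) (U : Set P) (f : P → P) : Prop where
  maps : ∀ x ∈ U, f x ∈ U
  contr : ∀ x ∈ U, ∀ y ∈ U, x ≠ y → δ (f x) (f y) < δ x y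
  exp : ∃ γ : ℤᵐ⁰, 1 < γ ∧ ∀ x y, x ∉ U → y ∉ U → f x ∉ U → f y ∉ U → δ x y < 1 →
    δ (f x) (f y) = γ ^ n * δ x y

theorem PowExpC.toPowExp {P : Type*} {n : ℕ} {δ : P → P → ℤᵐ⁰} (hδ : UM δ) {U : Set P} {f : P → P}
    (h : PowExpC n δ U f) : PowExp n δ U f := by
  refine ⟨h.maps, fun x hx y hy => ?_, fun x y hx hy hfx hfy => ?_⟩
  · rcases eq_or_ne x y with rfl | hxy
    · rw [hδ.self, hδ.self]
    · exact (h.contr x hx y hy hxy).le
  · rcases (hδ.le_one x y).eq_or_lt with h1 | h1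
    · exact Or.inl ⟨1, by rw [h1, one_pow]⟩
    · obtain ⟨γ, hγ, h2⟩ := h.exp
      exact Or.inr ⟨γ, hγ, h2 x y hx hy hfx hfy h1⟩

/-- `a` is the orbit of a cycle of exact length `k` for the composition of the maps `f i`,
`i < ℓ` -/
structure IsOrb {P : Type*} (f : ℕ → P → P) (ℓ : ℕ) (a : ℕ → P) (k : ℕ) : Prop where
  lpos : 0 < ℓ
  kpos : 0 < k
  hf : ∀ i, f (i + ℓ) = f i
  ha : ∀ i, a (i + 1) = f i (a i)
  hak : ∀ i, a (i + ℓ * k) = a i
  hne : ∀ j, 0 < j → j < k → a (ℓ * j) ≠ a 0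

namespace IsOrb

variable {P : Type*} {f : ℕ → P → P} {ℓ : ℕ} {a : ℕ → P} {k : ℕ}

lemma shift_f (h : IsOrb f ℓ a k) (t i : ℕ) : f (i + ℓ * t) = f i := by
  induction t with
  | zero => simp
  | succ t ih =>
    have e : i + ℓ * (t + 1) = (i + ℓ * t) + ℓ := by ring
    rw [e, h.hf]
    exact ih

lemma shift_rec (h : IsOrb f ℓ a k) (t i : ℕ) :
    a (i + 1 + ℓ * t) = f i (a (i + ℓ * t)) := by
  have e : i + 1 + ℓ * t = (i + ℓ * t) + 1 := by ring
  rw [e, h.ha, h.shift_f]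

lemma shift_per (h : IsOrb f ℓ a k) (t i : ℕ) : a (i + ℓ * k + ℓ * t) = a (i + ℓ * t) := by
  have e : i + ℓ * k + ℓ * t = (i + ℓ * t) + ℓ * k := by ring
  rw [e, h.hak]

lemma per (h : IsOrb f ℓ a k) (t i : ℕ) : a (i + ℓ * k * t) = a i := by
  induction t with
  | zero => simp
  | succ t ih =>
    have e : i + ℓ * k * (t + 1) = (i + ℓ * k * t) + ℓ * k := by ring
    rw [e, h.hak, ih]

/-- the elements of the cycle are distinct -/
lemma ne (h : IsOrb f ℓ a k) {m n : ℕ} (hmn : m < n) (hn : n < k) :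
    a (ℓ * m) ≠ a (ℓ * n) := by
  intro heq
  have h1 : ∀ i, a (i + ℓ * m) = a (i + ℓ * n) := by
    intro i
    induction i with
    | zero => rw [Nat.zero_add, Nat.zero_add, heq]
    | succ i ih =>
      rw [h.shift_rec m i, h.shift_rec n i, ih]
  have h2 := h1 (ℓ * (k - m))
  have e1 : ℓ * (k - m) + ℓ * m = 0 + ℓ * k := by
    rw [← Nat.mul_add, Nat.sub_add_cancel (by omega), Nat.zero_add]
  have e2 : ℓ * (k - m) + ℓ * n = ℓ * (n - m) + ℓ * k := by
    rw [← Nat.mul_add, ← Nat.mul_add]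
    congr 1
    omega
  rw [e1, e2, h.hak, h.hak] at h2
  exact h.hne (n - m) (by omega) (by omega) h2.symm

/-- the elements of the cycle are distinct -/
lemma ne' (h : IsOrb f ℓ a k) {m n : ℕ} (hm : m < k) (hn : n < k) (hmn : m ≠ n) :
    a (ℓ * m) ≠ a (ℓ * n) := by
  rcases lt_or_gt_of_ne hmn with h1 | h1
  · exact h.ne h1 hn
  · exact (h.ne h1 hm).symm

/-- passing to a power of the composition -/
lemma sub (h : IsOrb f ℓ a k) {u w : ℕ} (hk : k = u * w) : IsOrb f (ℓ * u) a w := by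
  have hu : 0 < u := by
    rcases Nat.eq_zero_or_pos u with hu | hu
    · have := h.kpos
      rw [hk, hu, Nat.zero_mul] at this
      exact absurd this (lt_irrefl _)
    · exact hu
  have hw : 0 < w := by
    rcases Nat.eq_zero_or_pos w with hw | hw
    · have := h.kpos
      rw [hk, hw, Nat.mul_zero] at this
      exact absurd this (lt_irrefl _)
    · exact hw
  refine ⟨Nat.mul_pos h.lpos hu, hw, fun i => h.shift_f u i, h.ha, fun i => ?_,
    fun j hj hjw => ?_⟩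
  · rw [mul_assoc, ← hk]
    exact h.hak i
  · rw [mul_assoc]
    refine h.hne (u * j) (Nat.mul_pos hu hj) ?_
    rw [hk]
    exact Nat.mul_lt_mul_of_pos_left hjw hu

end IsOrb

/-- an antitone periodic sequence is constant -/
theorem const_of_antitone {Γ : Type*} [LinearOrder Γ] {D : ℕ → Γ} (hD : ∀ i, D (i + 1) ≤ D i)
    {L : ℕ} (hL : 0 < L) (hper : ∀ i, D (i + L) = D i) (i : ℕ) : D i = D 0 := by
  have hanti : Antitone D := antitone_nat_of_succ_le hD
  have h1 : ∀ k i, D (i + L * k) = D i := by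
    intro k
    induction k with
    | zero => intro i; simp
    | succ k ih =>
      intro i
      have e : i + L * (k + 1) = (i + L * k) + L := by ring
      rw [e, hper, ih]
  refine le_antisymm (hanti (Nat.zero_le i)) ?_
  have h2 : D (0 + L * i) ≤ D i := hanti (by nlinarith)
  rwa [h1] at h2

/-- an orbit in `U`: the distance depends only on the level -/
theorem IsOrb.level {P : Type*} {δ : P → P → ℤᵐ⁰} (hδ : UM δ) {n : ℕ} {U : Set P}
    {f : ℕ → P → P} {ℓ : ℕ} {a : ℕ → P} {k : ℕ} (h : IsOrb f ℓ a k)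
    (hf : ∀ i, PowExp n δ U (f i)) (haU : ∀ i, a i ∈ U)
    {m n m' n' : ℕ} (hg : Nat.gcd (Nat.dist m n) k = Nat.gcd (Nat.dist m' n') k) :
    δ (a (ℓ * m)) (a (ℓ * n)) = δ (a (ℓ * m')) (a (ℓ * n')) := by
  refine level_abs (fun m n => δ (a (ℓ * m)) (a (ℓ * n))) (fun m n => hδ.symm _ _)
    (fun a b c => hδ.ultra _ _ _) (fun b c d => ?_) (fun m n t => ?_) h.kpos (fun m n => ?_) hg
  · change δ (a (ℓ * b)) (a (ℓ * b)) ≤ δ (a (ℓ * c)) (a (ℓ * d))
    rw [hδ.self]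
    exact zero_le
  · have h1 := const_of_antitone (D := fun i => δ (a (i + ℓ * m)) (a (i + ℓ * n)))
      (fun i => by
        change δ (a (i + 1 + ℓ * m)) (a (i + 1 + ℓ * n)) ≤ δ (a (i + ℓ * m)) (a (i + ℓ * n))
        rw [h.shift_rec, h.shift_rec]
        exact (hf i).nonexp _ (haU _) _ (haU _)) (Nat.mul_pos h.lpos h.kpos)
      (fun i => by
        change δ (a (i + ℓ * k + ℓ * m)) (a (i + ℓ * k + ℓ * n)) = _
        rw [h.shift_per, h.shift_per]) (ℓ * t)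
    change δ (a (ℓ * t + ℓ * m)) (a (ℓ * t + ℓ * n)) = δ (a (0 + ℓ * m)) (a (0 + ℓ * n)) at h1
    have e1 : ℓ * t + ℓ * m = ℓ * (m + t) := by ring
    have e2 : ℓ * t + ℓ * n = ℓ * (n + t) := by ring
    rw [e1, e2, Nat.zero_add, Nat.zero_add] at h1
    exact h1
  · change δ (a (ℓ * (m + k))) (a (ℓ * n)) = δ (a (ℓ * m)) (a (ℓ * n))
    have e : ℓ * (m + k) = ℓ * m + ℓ * k := by ring
    rw [e, h.hak]

/-- an increasing sequence of distances reaches an `n`-th power -/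
theorem reach_pow {n : ℕ} (hn : 0 < n) {D : ℕ → ℤᵐ⁰} (hD0 : D 0 ≠ 0)
    (hstep : ∀ i, (∃ γ : ℤᵐ⁰, D i = γ ^ n) ∨ ∃ γ : ℤᵐ⁰, 1 < γ ∧ D (i + 1) = γ ^ n * D i)
    {L : ℕ} (hL : 0 < L) (hDL : D L = D 0) : ∃ e : ℤᵐ⁰, D 0 = e ^ n := by
  have key : ∀ k, (∀ j < k, ¬ ∃ γ : ℤᵐ⁰, D j = γ ^ n) →
      ∃ g : ℤᵐ⁰, 1 ≤ g ∧ (0 < k → 1 < g) ∧ D k = g ^ n * D 0 := by
    intro k
    induction k with
    | zero => exact fun _ => ⟨1, le_rfl, fun h => absurd h (lt_irrefl _), by simp⟩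
    | succ k ih =>
      intro hk
      obtain ⟨g, hg1, -, hg2⟩ := ih fun j hj => hk j (by omega)
      obtain ⟨γ, hγ1, hγ2⟩ := (hstep k).resolve_left (hk k (by omega))
      have h1 : 1 < γ * g := by
        calc (1 : ℤᵐ⁰) < γ := hγ1
          _ = γ * 1 := (mul_one _).symm
          _ ≤ γ * g := mul_le_mul_right hg1 _
      exact ⟨γ * g, h1.le, fun _ => h1, by rw [hγ2, hg2, mul_pow, mul_assoc]⟩
  have hex : ∃ k, ∃ γ : ℤᵐ⁰, D k = γ ^ n := by
    by_contra hno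
    rw [not_exists] at hno
    obtain ⟨g, -, hg1, hg2⟩ := key L fun j _ => hno j
    rw [hDL] at hg2
    have h3 : g ^ n = 1 := mul_right_cancel₀ hD0 (by rw [← hg2, one_mul])
    exact absurd h3 (one_lt_pow₀ (hg1 hL) hn.ne').ne'
  classical
  obtain ⟨g, hg1, -, hg2⟩ := key (Nat.find hex) fun j hj => Nat.find_min hex hj
  obtain ⟨γ, hγ⟩ := Nat.find_spec hex
  have hg0 : g ^ n ≠ 0 := pow_ne_zero _ (zero_lt_one.trans_le hg1).ne'
  rw [hγ] at hg2
  refine ⟨g⁻¹ * γ, ?_⟩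
  rw [mul_pow, inv_pow, hg2, inv_mul_cancel_left₀ hg0]

/-- an orbit outside of `U`: the distances are `n`-th powers -/
theorem IsOrb.pow {P : Type*} {δ : P → P → ℤᵐ⁰} (hδ : UM δ) {n : ℕ} (hn : 0 < n) {U : Set P}
    {f : ℕ → P → P} {ℓ : ℕ} {a : ℕ → P} {k : ℕ} (h : IsOrb f ℓ a k)
    (hf : ∀ i, PowExp n δ U (f i)) (haU : ∀ i, a i ∉ U) {i j : ℕ} (hi : i < k) (hj : j < k)
    (hij : i ≠ j) : ∃ γ : ℤᵐ⁰, δ (a (ℓ * i)) (a (ℓ * j)) = γ ^ n := by
  have h0 := h.ne' hi hj hij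
  have h1 := reach_pow hn (D := fun t => δ (a (t + ℓ * i)) (a (t + ℓ * j))) (by
      simp only [Nat.zero_add]
      exact hδ.ne _ _ h0) (fun t => ?_) (Nat.mul_pos h.lpos h.kpos) ?_
  · simpa using h1
  · change (∃ γ : ℤᵐ⁰, δ (a (t + ℓ * i)) (a (t + ℓ * j)) = γ ^ n) ∨
      ∃ γ : ℤᵐ⁰, 1 < γ ∧ δ (a (t + 1 + ℓ * i)) (a (t + 1 + ℓ * j)) =
      γ ^ n * δ (a (t + ℓ * i)) (a (t + ℓ * j))
    rw [h.shift_rec, h.shift_rec]
    refine (hf t).exp _ _ (haU _) (haU _) ?_ ?_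
    · rw [← h.shift_rec]
      exact haU _
    · rw [← h.shift_rec]
      exact haU _
  · have e1 := h.shift_per i 0
    have e2 := h.shift_per j 0
    simp only [Nat.zero_add] at e1 e2
    change δ (a (ℓ * k + ℓ * i)) (a (ℓ * k + ℓ * j)) = δ (a (0 + ℓ * i)) (a (0 + ℓ * j))
    rw [e1, e2, Nat.zero_add, Nat.zero_add]

/-- an orbit is in `U` at all times or never -/
theorem IsOrb.mem {P : Type*} {δ : P → P → ℤᵐ⁰} {n : ℕ} {U : Set P}
    {f : ℕ → P → P} {ℓ : ℕ} {a : ℕ → P} {k : ℕ} (h : IsOrb f ℓ a k)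
    (hf : ∀ i, PowExp n δ U (f i)) : (∀ i, a i ∈ U) ∨ (∀ i, a i ∉ U) := by
  by_cases hex : ∃ i, a i ∈ U
  · left
    obtain ⟨i0, h0⟩ := hex
    have h1 : ∀ t, a (i0 + t) ∈ U := by
      intro t
      induction t with
      | zero => exact h0
      | succ t ih =>
        rw [← add_assoc, h.ha]
        exact (hf _).maps _ ih
    intro i
    rw [← h.per i0 i]
    have e : i + ℓ * k * i0 = i0 + (i + ℓ * k * i0 - i0) := by
      have : i0 ≤ ℓ * k * i0 := Nat.le_mul_of_pos_left _ (Nat.mul_pos h.lpos h.kpos)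
      omega
    rw [e]
    exact h1 _
  · right
    push Not at hex
    exact hex

end UBR
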